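import Mathlib

/-!
# Tensors and polynomial semi-invariants

`Ix n k L = (Fin k → Fin n) × Fin L` is the index set of the coordinates of an `L`-tuple of
covariant `k`-tensors on `ℂ ^ n`.
-/

open scoped BigOperators

namespace Pool.Agent.HOG

noncomputable section

/-- indices of the coordinates of an `L`-tuple of covariant `k`-tensors on `ℂ ^ n` -/
abbrev Ix (n k L : ℕ) : Type := (Fin k → Fin n) × Fin L

/-- the pull-back `T ∘ g` of a tuple of tensors by a linear map -/
def act {n k L : ℕ} (g : Matrix (Fin n) (Fin n) ℂ) (T : Ix n k L → ℂ) : Ix n k L → ℂ :=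
  fun p => ∑ j : Fin k → Fin n, (∏ a, g (j a) (p.1 a)) * T (j, p.2)

/-- the value of the tensors on `(v, ..., v)` -/
def diag {n k L : ℕ} (T : Ix n k L → ℂ) (v : Fin n → ℂ) : Fin L → ℂ :=
  fun l => ∑ j : Fin k → Fin n, (∏ a, v (j a)) * T (j, l)

/-- no nonzero vector is a common zero of the diagonal forms -/
def Reg {n k L : ℕ} (T : Ix n k L → ℂ) : Prop := ∀ v : Fin n → ℂ, diag T v = 0 → v = 0

/-- `P` is a semi-invariant of weight `c` -/
def Wt {n k L : ℕ} (c : ℕ) (P : MvPolynomial (Ix n k L) ℂ) : Prop :=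
  ∀ (g : Matrix (Fin n) (Fin n) ℂ), g.det ≠ 0 → ∀ T : Ix n k L → ℂ,
    MvPolynomial.eval (act g T) P = g.det ^ c * MvPolynomial.eval T P

theorem act_mul {n k L : ℕ} (g h : Matrix (Fin n) (Fin n) ℂ) (T : Ix n k L → ℂ) :
    act (g * h) T = act h (act g T) := by
  funext p
  simp only [act, Matrix.mul_apply]
  calc ∑ j : Fin k → Fin n, (∏ a, ∑ m, g (j a) m * h m (p.1 a)) * T (j, p.2)
      = ∑ j : Fin k → Fin n, (∑ m : Fin k → Fin n, ∏ a, g (j a) (m a) * h (m a) (p.1 a)) *
          T (j, p.2) := by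
        refine Finset.sum_congr rfl fun j _ => ?_
        rw [Finset.prod_univ_sum]
        simp
    _ = ∑ j : Fin k → Fin n, ∑ m : Fin k → Fin n,
          (∏ a, h (m a) (p.1 a)) * ((∏ a, g (j a) (m a)) * T (j, p.2)) := by
        refine Finset.sum_congr rfl fun j _ => ?_
        rw [Finset.sum_mul]
        refine Finset.sum_congr rfl fun m _ => ?_
        rw [Finset.prod_mul_distrib]
        ring
    _ = _ := by
        rw [Finset.sum_comm]
        refine Finset.sum_congr rfl fun m _ => ?_
        rw [Finset.mul_sum]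

theorem act_one {n k L : ℕ} (T : Ix n k L → ℂ) : act 1 T = T := by
  funext p
  simp only [act, Matrix.one_apply]
  rw [Finset.sum_eq_single p.1]
  · simp
  · intro j _ hj
    obtain ⟨a, ha⟩ := Function.ne_iff.1 hj
    rw [Finset.prod_eq_zero (Finset.mem_univ a) (if_neg ha), zero_mul]
  · simp

theorem act_smul {n k L : ℕ} (t : ℂ) (T : Ix n k L → ℂ) : act (t • 1) T = t ^ k • T := by
  have : act (t • 1 : Matrix (Fin n) (Fin n) ℂ) T = t ^ k • act 1 T := by
    funext p
    simp only [act, Matrix.smul_apply, smul_eq_mul, Finset.prod_mul_distrib, Finset.prod_const,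
      Finset.card_univ, Fintype.card_fin, Pi.smul_apply, Finset.mul_sum, mul_assoc]
  rw [this, act_one]

theorem diag_act {n k L : ℕ} (g : Matrix (Fin n) (Fin n) ℂ) (T : Ix n k L → ℂ)
    (v : Fin n → ℂ) : diag (act g T) v = diag T (g.mulVec v) := by
  funext l
  simp only [diag, act, Matrix.mulVec, dotProduct]
  calc ∑ j : Fin k → Fin n, (∏ a, v (j a)) * ∑ m : Fin k → Fin n, (∏ a, g (m a) (j a)) * T (m, l)
      = ∑ m : Fin k → Fin n, ∑ j : Fin k → Fin n, (∏ a, g (m a) (j a) * v (j a)) * T (m, l) := by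
        rw [Finset.sum_comm]
        refine Finset.sum_congr rfl fun j _ => ?_
        rw [Finset.mul_sum]
        refine Finset.sum_congr rfl fun m _ => ?_
        rw [Finset.prod_mul_distrib]
        ring
    _ = _ := by
        refine Finset.sum_congr rfl fun m _ => ?_
        rw [← Finset.sum_mul, Finset.prod_univ_sum]
        simp

end

end Pool.Agent.HOG
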