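import Pool.Agent.HOG.Act

/-!
# HOG/Avg: averaging a polynomial over a compact group

PLAN.  `K = {u ∈ Matrix.unitaryGroup (Fin n) ℂ | u.det ^ c = 1}`: a closed subgroup of the compact
group `U(n)` (closed and bounded in the matrices: entries of norm at most `1`), with its normalized
left Haar measure `μ` (`MeasureTheory.Measure.haar` on the subgroup, finite because compact;
divide by the total mass; Borel sigma-algebra).  `h (act u T)` is a polynomial in `T` whose
coefficients are continuous functions of `u`: write `h = Σ_{s ∈ support} coeff s h * ∏ X ^ s` and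
`act u T i = Σ_j (∏ a, u (j a) (i a)) T (j, l)`; formally, substitute:
`H u = (MvPolynomial.bind₁ (fun i => Σ_j C (∏ a, u (j a) (i.1 a)) * X (j, i.2))) h`, with
`eval T (H u) = eval (act u T) h`, coefficients continuous in `u`, supported in a fixed finite set of
monomials (total degree at most that of `h`).  Put `P = Σ_s (∫ coeff s (H u) dμ) monomial s`, so
`eval T P = ∫ eval (act u T) h dμ(u)`.  Invariance: `eval (act v T) P = ∫ eval (act u (act v T)) h =
∫ eval (act (v * u) T) h = eval T P` by left invariance (`act_mul`).  The last claim is immediate.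
-/

open scoped BigOperators Topology
open Filter Set

namespace Pool.Agent.HOG

noncomputable section

/-- a family of polynomials with continuous coefficients supported in a fixed finite set -/
private def Gd {G σ : Type*} [TopologicalSpace G] (H : G → MvPolynomial σ ℂ) : Prop :=
  (∀ s, Continuous fun u => MvPolynomial.coeff s (H u)) ∧
    ∃ S : Finset (σ →₀ ℕ), ∀ u s, s ∉ S → MvPolynomial.coeff s (H u) = 0

private theorem Gd.const {G σ : Type*} [TopologicalSpace G] (p : MvPolynomial σ ℂ) :
    Gd (fun _ : G => p) :=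
  ⟨fun _ => continuous_const, p.support, fun _ _ hs => MvPolynomial.notMem_support_iff.1 hs⟩

private theorem Gd.add {G σ : Type*} [TopologicalSpace G] {H₁ H₂ : G → MvPolynomial σ ℂ}
    (h₁ : Gd H₁) (h₂ : Gd H₂) : Gd (fun u => H₁ u + H₂ u) := by
  classical
  obtain ⟨c₁, S₁, z₁⟩ := h₁
  obtain ⟨c₂, S₂, z₂⟩ := h₂
  refine ⟨fun s => ?_, S₁ ∪ S₂, fun u s hs => ?_⟩
  · simp only [MvPolynomial.coeff_add]
    exact (c₁ s).add (c₂ s)
  · rw [Finset.mem_union, not_or] at hs
    rw [MvPolynomial.coeff_add, z₁ u s hs.1, z₂ u s hs.2, add_zero]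

private theorem Gd.mul {G σ : Type*} [TopologicalSpace G] {H₁ H₂ : G → MvPolynomial σ ℂ}
    (h₁ : Gd H₁) (h₂ : Gd H₂) : Gd (fun u => H₁ u * H₂ u) := by
  classical
  obtain ⟨c₁, S₁, z₁⟩ := h₁
  obtain ⟨c₂, S₂, z₂⟩ := h₂
  refine ⟨fun s => ?_, (S₁ ×ˢ S₂).image (fun p => p.1 + p.2), fun u s hs => ?_⟩
  · simp only [MvPolynomial.coeff_mul]
    exact continuous_finsetSum _ fun p _ => (c₁ p.1).mul (c₂ p.2)
  · rw [MvPolynomial.coeff_mul]
    refine Finset.sum_eq_zero fun p hp => ?_
    by_cases h1 : p.1 ∈ S₁
    · by_cases h2 : p.2 ∈ S₂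
      · exact absurd (Finset.mem_image.2 ⟨p, Finset.mem_product.2 ⟨h1, h2⟩,
          by simpa using hp⟩) hs
      · rw [z₂ u _ h2, mul_zero]
    · rw [z₁ u _ h1, zero_mul]

private theorem Gd.sum {G σ ι : Type*} [TopologicalSpace G] (t : Finset ι)
    {H : ι → G → MvPolynomial σ ℂ} (h : ∀ i ∈ t, Gd (H i)) : Gd (fun u => ∑ i ∈ t, H i u) := by
  classical
  induction t using Finset.induction_on with
  | empty => simpa using Gd.const (G := G) (0 : MvPolynomial σ ℂ)
  | insert i t hi ih =>
    simp only [Finset.sum_insert hi]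
    exact (h i (Finset.mem_insert_self _ _)).add
      (ih fun j hj => h j (Finset.mem_insert_of_mem hj))

private theorem Gd.CC {G σ : Type*} [TopologicalSpace G] {f : G → ℂ} (hf : Continuous f) :
    Gd (fun u : G => (MvPolynomial.C (f u) : MvPolynomial σ ℂ)) := by
  classical
  refine ⟨fun s => ?_, {0}, fun u s hs => ?_⟩
  · simp only [MvPolynomial.coeff_C]
    split_ifs
    · exact hf
    · exact continuous_const
  · rw [MvPolynomial.coeff_C, if_neg]
    rintro rfl
    simp at hs

private theorem Gd.bind {G σ τ : Type*} [TopologicalSpace G] {f : G → τ → MvPolynomial σ ℂ}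
    (hf : ∀ i, Gd (fun u => f u i)) (h : MvPolynomial τ ℂ) :
    Gd (fun u => MvPolynomial.bind₁ (f u) h) := by
  induction h using MvPolynomial.induction_on with
  | C a => simpa using Gd.const (G := G) (MvPolynomial.C a : MvPolynomial σ ℂ)
  | add p q hp hq => simpa using hp.add hq
  | mul_X p i hp => simpa using hp.mul (hf i)

/-- integration of the coefficients -/
private theorem Gd.integral {G σ : Type*} [Fintype σ] [TopologicalSpace G] [CompactSpace G]
    [MeasurableSpace G] [BorelSpace G] (μ : MeasureTheory.Measure G)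
    [MeasureTheory.IsProbabilityMeasure μ] {H : G → MvPolynomial σ ℂ} (h : Gd H) :
    ∃ P : MvPolynomial σ ℂ, ∀ T : σ → ℂ,
      MvPolynomial.eval T P = ∫ u, MvPolynomial.eval T (H u) ∂μ := by
  classical
  obtain ⟨cH, S, zS⟩ := h
  refine ⟨∑ s ∈ S, MvPolynomial.monomial s (∫ u, MvPolynomial.coeff s (H u) ∂μ), fun T => ?_⟩
  have e1 : ∀ u, MvPolynomial.eval T (H u) =
      ∑ s ∈ S, MvPolynomial.coeff s (H u) * ∏ i, T i ^ s i := by
    intro u
    rw [MvPolynomial.eval_eq']
    refine Finset.sum_subset_zero_on_sdiff ?_ ?_ ?_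
    · intro s hs
      by_contra hc
      exact (MvPolynomial.mem_support_iff.1 hs) (zS u s hc)
    · intro s hs
      rw [Finset.mem_sdiff] at hs
      rw [MvPolynomial.notMem_support_iff.1 hs.2, zero_mul]
    · intros; rfl
  simp only [e1]
  rw [MeasureTheory.integral_finsetSum]
  · rw [map_sum]
    refine Finset.sum_congr rfl fun s _ => ?_
    rw [MvPolynomial.eval_monomial, MeasureTheory.integral_mul_const]
    congr 1
    rw [Finsupp.prod_fintype]
    intro i
    exact pow_zero _
  · intro s _
    refine Continuous.integrable_of_hasCompactSupport ?_ (HasCompactSupport.of_compactSpace _)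
    exact (cH s).mul continuous_const

private theorem compact_U (n : ℕ) :
    IsCompact ((Matrix.unitaryGroup (Fin n) ℂ : Set (Matrix (Fin n) (Fin n) ℂ))) := by
  have hK : IsCompact (Set.pi univ fun _ : Fin n => Set.pi univ fun _ : Fin n =>
      Metric.closedBall (0 : ℂ) 1) :=
    isCompact_univ_pi fun _ => isCompact_univ_pi fun _ => isCompact_closedBall _ _
  refine hK.of_isClosed_subset ?_ ?_
  · have : ((Matrix.unitaryGroup (Fin n) ℂ : Set (Matrix (Fin n) (Fin n) ℂ))) =
        {u | star u * u = 1} ∩ {u | u * star u = 1} := by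
      ext u
      exact Iff.rfl
    rw [this]
    exact (isClosed_eq (by fun_prop) continuous_const).inter
      (isClosed_eq (by fun_prop) continuous_const)
  · intro u hu i _ j _
    rw [mem_closedBall_zero_iff]
    exact entry_norm_bound_of_unitary hu i j

/-- the subgroup of the unitary group -/
private def KK (n c : ℕ) : Subgroup (Matrix.unitaryGroup (Fin n) ℂ) where
  carrier := {u | (u : Matrix (Fin n) (Fin n) ℂ).det ^ c = 1}
  one_mem' := by simp
  mul_mem' := by
    intro a b ha hb
    simp only [mem_ofPred_eq] at ha hb ⊢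
    rw [Submonoid.coe_mul, Matrix.det_mul, mul_pow, ha, hb, one_mul]
  inv_mem' := by
    intro a ha
    simp only [mem_ofPred_eq] at ha ⊢
    have h1 : ((a⁻¹ : Matrix.unitaryGroup (Fin n) ℂ) : Matrix (Fin n) (Fin n) ℂ) *
        (a : Matrix (Fin n) (Fin n) ℂ) = 1 := by
      rw [← Submonoid.coe_mul, inv_mul_cancel, Submonoid.coe_one]
    have h2 := congrArg (fun M : Matrix (Fin n) (Fin n) ℂ => M.det ^ c) h1
    simp only [Matrix.det_mul, mul_pow, ha, Matrix.det_one, one_pow, mul_one] at h2
    exact h2

theorem exists_average {n k L : ℕ} (c : ℕ) (h : MvPolynomial (Ix n k L) ℂ) :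
    ∃ P : MvPolynomial (Ix n k L) ℂ,
      (∀ u ∈ Matrix.unitaryGroup (Fin n) ℂ, u.det ^ c = 1 → ∀ T : Ix n k L → ℂ,
        MvPolynomial.eval (act u T) P = MvPolynomial.eval T P) ∧
      ∀ (T : Ix n k L → ℂ) (a : ℂ), (∀ u ∈ Matrix.unitaryGroup (Fin n) ℂ, u.det ^ c = 1 →
        MvPolynomial.eval (act u T) h = a) → MvPolynomial.eval T P = a := by
  classical
  haveI : CompactSpace (Matrix.unitaryGroup (Fin n) ℂ) := isCompact_iff_compactSpace.1 (compact_U n)
  have hcl : IsClosed ((KK n c : Subgroup (Matrix.unitaryGroup (Fin n) ℂ)) :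
      Set (Matrix.unitaryGroup (Fin n) ℂ)) := by
    have : ((KK n c : Subgroup (Matrix.unitaryGroup (Fin n) ℂ)) :
      Set (Matrix.unitaryGroup (Fin n) ℂ)) =
        {u : Matrix.unitaryGroup (Fin n) ℂ | (u : Matrix (Fin n) (Fin n) ℂ).det ^ c = 1} := rfl
    rw [this]
    exact isClosed_eq ((Continuous.matrix_det continuous_subtype_val).pow c) continuous_const
  haveI : CompactSpace (KK n c) := isCompact_iff_compactSpace.1 hcl.isCompact
  letI : MeasurableSpace (KK n c) := borel _
  haveI : BorelSpace (KK n c) := ⟨rfl⟩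
  let μ : MeasureTheory.Measure (KK n c) := MeasureTheory.Measure.haarMeasure ⊤
  haveI : MeasureTheory.IsProbabilityMeasure μ := by
    refine ⟨?_⟩
    have := MeasureTheory.Measure.haarMeasure_self (K₀ := (⊤ : TopologicalSpace.PositiveCompacts (KK n c)))
    simpa using this
  let val : KK n c → Matrix (Fin n) (Fin n) ℂ := fun u => ((u : Matrix.unitaryGroup (Fin n) ℂ) :
    Matrix (Fin n) (Fin n) ℂ)
  have hval : Continuous val := continuous_subtype_val.comp continuous_subtype_val
  let f : KK n c → Ix n k L → MvPolynomial (Ix n k L) ℂ := fun u i =>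
    ∑ j : Fin k → Fin n, MvPolynomial.C (∏ a, val u (j a) (i.1 a)) * MvPolynomial.X (j, i.2)
  have hf : ∀ i, Gd (fun u => f u i) := by
    intro i
    refine Gd.sum _ fun j _ => Gd.mul (Gd.CC ?_) (Gd.const _)
    refine continuous_finsetProd _ fun a _ => ?_
    exact hval.matrix_elem _ _
  have hev : ∀ (u : KK n c) (T : Ix n k L → ℂ),
      MvPolynomial.eval T (MvPolynomial.bind₁ (f u) h) = MvPolynomial.eval (act (val u) T) h := by
    intro u T
    rw [MvPolynomial.eval, MvPolynomial.eval₂Hom_bind₁]
    congr 1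
    congr 1
    funext i
    simp [f, act]
  obtain ⟨P, hP⟩ := Gd.integral μ (Gd.bind hf h)
  refine ⟨P, ?_, ?_⟩
  · intro u hu hc T
    let v : KK n c := ⟨⟨u, hu⟩, hc⟩
    rw [hP, hP]
    simp only [hev]
    rw [← MeasureTheory.integral_mul_left_eq_self
      (fun w => MvPolynomial.eval (act (val w) T) h) v]
    refine MeasureTheory.integral_congr_ae (Filter.Eventually.of_forall fun w => ?_)
    show MvPolynomial.eval (act (val w) (act u T)) h = MvPolynomial.eval (act (val (v * w)) T) h
    have : val (v * w) = u * val w := rfl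
    rw [this, act_mul]
  · intro T a ha
    rw [hP]
    simp only [hev]
    have : ∀ w : KK n c, MvPolynomial.eval (act (val w) T) h = a := fun w =>
      ha _ w.1.2 w.2
    simp [this]

end

end Pool.Agent.HOG
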