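import Pool.Agent.HOG.Act

/-!
# HOG/Dec: decomposition of an invariant polynomial into weights

PLAN.  Let `P_d` be the homogeneous component of degree `d` of `P`.  As `act g` is linear in `T`
(`act g (t • T) = t • act g T`), comparing the powers of `t` in
`eval (act g (t • T)) P = eval (t • T) P` gives the invariance of each `P_d` under the `g` with
`g.det ^ c = 1`.  Suppose `P_d ≠ 0`, so `eval T P_d ≠ 0` for some `T` (`MvPolynomial.funext`), and
`n ≥ 1`.  For `ζ ^ (n c) = 1`, `g = ζ • 1` satisfies `g.det ^ c = 1` and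
`eval (act g T) P_d = ζ ^ (k d) eval T P_d` (`act_smul`), so `ζ ^ (k d) = 1`; with `ζ` a primitive
`n c`-th root of unity: `n c ∣ k d`, `k d = n c j`.  For `g` invertible take `t` with
`t ^ n = g.det`; `g = (t • 1) * (t⁻¹ • g)` and `(t⁻¹ • g).det = 1`, so
`eval (act g T) P_d = t ^ (k d) eval T P_d = (g.det) ^ (c j) eval T P_d`: weight `c j`.  Let `Q j` be
`P_d` with `k d = n c j` (the sum of these; there is at most one `d` for each `j` if `k ≥ 1`; use the
sum over all `d ≤ totalDegree` with `k * d = n * c * j`).  If `k = 0` then `P_d ≠ 0` forces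
`j = 0`.  If `n = 0` then `g.det = 1`, `act g T = T` by `act_one` and
everything has every weight: `Q 0 = P`.
-/

open scoped BigOperators Topology
open Filter Set

namespace Pool.Agent.HOG

noncomputable section

private theorem eval_hom {σ : Type} {p : MvPolynomial σ ℂ} {d : ℕ} (hp : p.IsHomogeneous d)
    (t : ℂ) (T : σ → ℂ) :
    MvPolynomial.eval (t • T) p = t ^ d * MvPolynomial.eval T p := by
  rw [MvPolynomial.eval_eq, MvPolynomial.eval_eq, Finset.mul_sum]
  refine Finset.sum_congr rfl fun m hm => ?_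
  have h1 : m.degree = d := by
    by_contra h
    exact (MvPolynomial.mem_support_iff.1 hm) (hp.coeff_eq_zero h)
  have h2 : ∏ i ∈ m.support, (t • T) i ^ m i = t ^ d * ∏ i ∈ m.support, T i ^ m i := by
    rw [← h1]
    simp only [Pi.smul_apply, smul_eq_mul, mul_pow, Finset.prod_mul_distrib,
      Finset.prod_pow_eq_pow_sum]
    rfl
  rw [h2]
  ring

private theorem act_lin {n k L : ℕ} (g : Matrix (Fin n) (Fin n) ℂ) (t : ℂ) (T : Ix n k L → ℂ) :
    act g (t • T) = t • act g T := by
  funext p
  simp only [act, Pi.smul_apply, smul_eq_mul, Finset.mul_sum]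
  exact Finset.sum_congr rfl fun j _ => by ring

private theorem comp_inv {n k L : ℕ} {c : ℕ} (P : MvPolynomial (Ix n k L) ℂ)
    (hP : ∀ g : Matrix (Fin n) (Fin n) ℂ, g.det ^ c = 1 → ∀ T : Ix n k L → ℂ,
      MvPolynomial.eval (act g T) P = MvPolynomial.eval T P)
    (g : Matrix (Fin n) (Fin n) ℂ) (hg : g.det ^ c = 1) (T : Ix n k L → ℂ) (d : ℕ) :
    MvPolynomial.eval (act g T) (MvPolynomial.homogeneousComponent d P) =
      MvPolynomial.eval T (MvPolynomial.homogeneousComponent d P) := by
  have hexp : ∀ (U : Ix n k L → ℂ) (t : ℂ), MvPolynomial.eval (t • U) P =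
      ∑ i ∈ Finset.range (P.totalDegree + 1),
        t ^ i * MvPolynomial.eval U (MvPolynomial.homogeneousComponent i P) := by
    intro U t
    conv_lhs => rw [← MvPolynomial.sum_homogeneousComponent P]
    rw [map_sum]
    exact Finset.sum_congr rfl fun i _ =>
      eval_hom (MvPolynomial.homogeneousComponent_isHomogeneous i P) t U
  have hA : ∑ i ∈ Finset.range (P.totalDegree + 1),
      Polynomial.C (MvPolynomial.eval (act g T) (MvPolynomial.homogeneousComponent i P) -
        MvPolynomial.eval T (MvPolynomial.homogeneousComponent i P)) * Polynomial.X ^ i = 0 := by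
    apply Polynomial.funext
    intro t
    have h1 := hP g hg (t • T)
    rw [act_lin, hexp, hexp] at h1
    rw [Polynomial.eval_finsetSum, Polynomial.eval_zero]
    have h2 : ∀ i ∈ Finset.range (P.totalDegree + 1), Polynomial.eval t
        (Polynomial.C (MvPolynomial.eval (act g T) (MvPolynomial.homogeneousComponent i P) -
          MvPolynomial.eval T (MvPolynomial.homogeneousComponent i P)) * Polynomial.X ^ i) =
        t ^ i * MvPolynomial.eval (act g T) (MvPolynomial.homogeneousComponent i P) -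
          t ^ i * MvPolynomial.eval T (MvPolynomial.homogeneousComponent i P) := by
      intro i _
      rw [Polynomial.eval_mul, Polynomial.eval_C, Polynomial.eval_pow, Polynomial.eval_X]
      ring
    rw [Finset.sum_congr rfl h2, Finset.sum_sub_distrib, h1, sub_self]
  by_cases hd : d < P.totalDegree + 1
  · have h1 := congrArg (fun q => Polynomial.coeff q d) hA
    simp only [Polynomial.finsetSum_coeff, Polynomial.coeff_C_mul_X_pow,
      Polynomial.coeff_zero] at h1
    rw [Finset.sum_ite_eq, if_pos (Finset.mem_range.2 hd)] at h1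
    exact sub_eq_zero.1 h1
  · rw [MvPolynomial.homogeneousComponent_eq_zero d P (by omega), map_zero, map_zero]

private theorem comp_wt {n k L : ℕ} (hn : n ≠ 0) {c : ℕ} (P : MvPolynomial (Ix n k L) ℂ)
    (hP : ∀ g : Matrix (Fin n) (Fin n) ℂ, g.det ^ c = 1 → ∀ T : Ix n k L → ℂ,
      MvPolynomial.eval (act g T) P = MvPolynomial.eval T P) (d j : ℕ)
    (hj : k * d = n * c * j) : Wt (c * j) (MvPolynomial.homogeneousComponent d P) := by
  intro g hg T
  obtain ⟨t, ht⟩ := IsAlgClosed.exists_pow_nat_eq g.det (Nat.pos_of_ne_zero hn)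
  have ht0 : t ≠ 0 := by
    rintro rfl
    rw [zero_pow hn] at ht
    exact hg ht.symm
  have hg' : (t⁻¹ • g).det = 1 := by
    rw [Matrix.det_smul, Fintype.card_fin, ← ht, inv_pow,
      inv_mul_cancel₀ (pow_ne_zero n ht0)]
  have hmul : g = (t • 1) * (t⁻¹ • g) := by
    rw [Matrix.smul_mul, Matrix.one_mul, smul_smul, mul_inv_cancel₀ ht0, one_smul]
  rw [hmul, act_mul, comp_inv P hP (t⁻¹ • g) (by rw [hg', one_pow]), act_smul,
    eval_hom (MvPolynomial.homogeneousComponent_isHomogeneous d P), ← hmul, ← ht, ← pow_mul,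
    ← pow_mul, hj, mul_assoc]

private theorem comp_dvd {n k L : ℕ} (hn : n ≠ 0) {c : ℕ} (hc : 1 ≤ c)
    (P : MvPolynomial (Ix n k L) ℂ)
    (hP : ∀ g : Matrix (Fin n) (Fin n) ℂ, g.det ^ c = 1 → ∀ T : Ix n k L → ℂ,
      MvPolynomial.eval (act g T) P = MvPolynomial.eval T P) (d : ℕ)
    (hd : MvPolynomial.homogeneousComponent d P ≠ 0) : n * c ∣ k * d := by
  obtain ⟨T, hT⟩ : ∃ T, MvPolynomial.eval T (MvPolynomial.homogeneousComponent d P) ≠ 0 := by
    by_contra hcon
    push Not at hcon
    exact hd (MvPolynomial.funext fun T => by rw [hcon T, map_zero])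
  have hnc : n * c ≠ 0 := Nat.mul_ne_zero hn (by omega)
  have hprim := Complex.isPrimitiveRoot_exp (n * c) hnc
  obtain ⟨ζ, hζ⟩ : ∃ ζ : ℂ, IsPrimitiveRoot ζ (n * c) := ⟨_, hprim⟩
  have h1 := comp_inv P hP ((ζ • 1 : Matrix (Fin n) (Fin n) ℂ)) (by
    rw [Matrix.det_smul, Matrix.det_one, mul_one, Fintype.card_fin, ← pow_mul]
    exact hζ.pow_eq_one) T d
  rw [act_smul, eval_hom (MvPolynomial.homogeneousComponent_isHomogeneous d P)] at h1
  have h2 : (ζ ^ k) ^ d = 1 := mul_right_cancel₀ hT (by rw [h1, one_mul])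
  rw [← pow_mul] at h2
  exact hζ.dvd_of_pow_eq_one _ h2

theorem exists_weights {n k L : ℕ} {c : ℕ} (hc : 1 ≤ c) (P : MvPolynomial (Ix n k L) ℂ)
    (hP : ∀ g : Matrix (Fin n) (Fin n) ℂ, g.det ^ c = 1 → ∀ T : Ix n k L → ℂ,
      MvPolynomial.eval (act g T) P = MvPolynomial.eval T P) :
    ∃ (J : ℕ) (Q : ℕ → MvPolynomial (Ix n k L) ℂ), P = ∑ j ∈ Finset.range J, Q j ∧
      ∀ j, Wt (c * j) (Q j) := by
  classical
  by_cases hn : n = 0
  · subst hn
    refine ⟨1, fun _ => P, by rw [Finset.sum_range_one], fun j g _ T => ?_⟩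
    have hg : g = 1 := Subsingleton.elim _ _
    rw [hg, act_one, Matrix.det_one, one_pow, one_mul]
  have hnc : n * c ≠ 0 := Nat.mul_ne_zero hn (by omega)
  refine ⟨k * P.totalDegree + 1, fun j => ∑ d ∈ Finset.range (P.totalDegree + 1),
    if k * d = n * c * j then MvPolynomial.homogeneousComponent d P else 0, ?_, ?_⟩
  · rw [Finset.sum_comm]
    conv_lhs => rw [← MvPolynomial.sum_homogeneousComponent P]
    refine Finset.sum_congr rfl fun d hd => ?_
    rw [Finset.mem_range] at hd
    by_cases h0 : MvPolynomial.homogeneousComponent d P = 0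
    · rw [h0]
      simp
    · obtain ⟨j, hj⟩ := comp_dvd hn hc P hP d h0
      rw [Finset.sum_eq_single j]
      · rw [if_pos hj]
      · intro i _ hi
        rw [if_neg]
        intro h
        apply hi
        rw [hj] at h
        exact (Nat.eq_of_mul_eq_mul_left (Nat.pos_of_ne_zero hnc) h).symm
      · intro h
        exfalso
        apply h
        rw [Finset.mem_range]
        have h1 : j ≤ n * c * j := Nat.le_mul_of_pos_left j (Nat.pos_of_ne_zero hnc)
        have h2 : k * d ≤ k * P.totalDegree := Nat.mul_le_mul_left k (by omega)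
        omega
  · intro j g hg T
    rw [map_sum, map_sum, Finset.mul_sum]
    refine Finset.sum_congr rfl fun d _ => ?_
    split_ifs with h
    · exact comp_wt hn P hP d j h g hg T
    · rw [map_zero, map_zero, mul_zero]

end

end Pool.Agent.HOG
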