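import Pool.Agent.HOG.FinA

/-!
# HOG/Orb: orbits of regular tensors are closed

PLAN.  Let `p : Ix n k L → MvPolynomial (Fin n × Fin n) ℂ`,
`p (i, l) = Σ_j (∏ a, X (j a, i a)) * C (F (j, l))`: homogeneous of degree `k`, and
`eval (fun q => g q.1 q.2) (p i) = act g F i`.  If all vanish at `g` then `act g F = 0`, so
`diag F (g.mulVec v) = diag (act g F) v = 0` for all `v` (`diag_act`), `g.mulVec v = 0`, `g = 0`.  So
`isIntegral_of_no_zero` applies: `θ = aeval p` is integral.
`closed_orbit`: `I` = the ideal of the polynomials in the matrix entries vanishing on the set of the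
`g` with `g.det ^ c = 1` (a vanishing ideal), `P` = the maximal ideal of `MvPolynomial (Ix n k L) ℂ`
of the polynomials vanishing at `Ψ`.  The hypothesis says `I.comap θ ≤ P`.  By
`Ideal.exists_ideal_over_prime_of_isIntegral` (with the algebra structure given by `θ`,
`θ.toAlgebra`) there is a prime `Q ≥ I` with `Q.comap θ = P`; it is maximal
(`Ideal.isMaximal_of_isIntegral_of_isMaximal_comap`), so it is the vanishing ideal of a point `g`
(`MvPolynomial.isMaximal_iff_eq_vanishingIdeal_singleton`); `g.det ^ c = 1` because the polynomial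
`det ^ c - 1` is in `I`, and `act g F = Ψ` because `X i - C (Ψ i) ∈ P`.
`finite_solutions`: each entry `X (i, j)` is integral over `ℂ[p]`: a monic polynomial equation whose
coefficients, evaluated at a solution `g` of `act g F = Ψ`, depend only on `Ψ`: finitely many
possible values of each entry.
-/

open scoped BigOperators Topology
open Filter Set

namespace Pool.Agent.HOG

noncomputable section

/-- the matrix with entries `x` -/
private def mat {n : ℕ} (x : Fin n × Fin n → ℂ) : Matrix (Fin n) (Fin n) ℂ := fun a b => x (a, b)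

/-- the coordinates of `act g F` as polynomials in the entries of `g` -/
private def pe {n k L : ℕ} (F : Ix n k L → ℂ) (p : Ix n k L) :
    MvPolynomial (Fin n × Fin n) ℂ :=
  ∑ j : Fin k → Fin n, (∏ a, MvPolynomial.X (j a, p.1 a)) * MvPolynomial.C (F (j, p.2))

private theorem eval_pe {n k L : ℕ} (F : Ix n k L → ℂ) (x : Fin n × Fin n → ℂ) (p : Ix n k L) :
    MvPolynomial.eval x (pe F p) = act (mat x) F p := by
  simp [pe, act, mat, map_sum, map_prod]

private theorem pe_hom {n k L : ℕ} (F : Ix n k L → ℂ) (p : Ix n k L) :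
    (pe F p).IsHomogeneous k := by
  refine MvPolynomial.IsHomogeneous.sum _ _ _ fun j _ => ?_
  have h1 : (∏ a : Fin k, (MvPolynomial.X (j a, p.1 a) :
      MvPolynomial (Fin n × Fin n) ℂ)).IsHomogeneous (∑ _a : Fin k, 1) :=
    MvPolynomial.IsHomogeneous.prod _ _ _ fun a _ => MvPolynomial.isHomogeneous_X _ _
  have h2 := h1.mul (MvPolynomial.isHomogeneous_C _ (F (j, p.2)))
  simpa using h2

private theorem int_pe {n k L : ℕ} (hk : 1 ≤ k) {F : Ix n k L → ℂ} (hF : Reg F) :
    (MvPolynomial.aeval (pe F) : MvPolynomial (Ix n k L) ℂ →ₐ[ℂ]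
      MvPolynomial (Fin n × Fin n) ℂ).toRingHom.IsIntegral :=
  isIntegral_of_no_zero hk (pe F) (pe_hom F) fun x hx => by
    have h1 : act (mat x) F = 0 := by
      funext p
      rw [← eval_pe]
      exact hx p
    have h2 : ∀ v, (mat x).mulVec v = 0 := fun v => hF _ (by
      rw [← diag_act, h1]
      funext l
      simp [diag])
    funext ⟨a, b⟩
    have h3 := congrFun (h2 (Pi.single b 1)) a
    simpa [mat] using h3

private theorem eval_th {n k L : ℕ} (F : Ix n k L → ℂ) (x : Fin n × Fin n → ℂ)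
    (m : MvPolynomial (Ix n k L) ℂ) :
    MvPolynomial.eval x ((MvPolynomial.aeval (pe F) : MvPolynomial (Ix n k L) ℂ →ₐ[ℂ]
      MvPolynomial (Fin n × Fin n) ℂ).toRingHom m) = MvPolynomial.eval (act (mat x) F) m := by
  have h1 := MvPolynomial.comp_aeval_apply (pe F)
    (MvPolynomial.aeval x : MvPolynomial (Fin n × Fin n) ℂ →ₐ[ℂ] ℂ) m
  have h2 : (fun i => (MvPolynomial.aeval x : MvPolynomial (Fin n × Fin n) ℂ →ₐ[ℂ] ℂ) (pe F i)) =
      act (mat x) F := by
    funext i
    rw [← eval_pe]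
    rfl
  rw [h2] at h1
  exact h1

theorem closed_orbit {n k L : ℕ} (hk : 1 ≤ k) {F : Ix n k L → ℂ} (hF : Reg F) {c : ℕ}
    (hc : 1 ≤ c) {Ψ : Ix n k L → ℂ}
    (h : ∀ m : MvPolynomial (Ix n k L) ℂ, (∀ g : Matrix (Fin n) (Fin n) ℂ, g.det ^ c = 1 →
      MvPolynomial.eval (act g F) m = 0) → MvPolynomial.eval Ψ m = 0) :
    ∃ g : Matrix (Fin n) (Fin n) ℂ, g.det ^ c = 1 ∧ Ψ = act g F := by
  classical
  obtain ⟨θ, hθ⟩ : ∃ θ : MvPolynomial (Ix n k L) ℂ →+* MvPolynomial (Fin n × Fin n) ℂ,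
    θ = (MvPolynomial.aeval (pe F) : MvPolynomial (Ix n k L) ℂ →ₐ[ℂ]
      MvPolynomial (Fin n × Fin n) ℂ).toRingHom := ⟨_, rfl⟩
  have hint : θ.IsIntegral := hθ ▸ int_pe hk hF
  have hev : ∀ x m, MvPolynomial.eval x (θ m) = MvPolynomial.eval (act (mat x) F) m := by
    intro x m
    rw [hθ]
    exact eval_th F x m
  obtain ⟨I, hI⟩ : ∃ I : Ideal (MvPolynomial (Fin n × Fin n) ℂ),
    I = MvPolynomial.vanishingIdeal ℂ {x : Fin n × Fin n → ℂ | (mat x).det ^ c = 1} := ⟨_, rfl⟩
  have hIP : I.comap θ ≤ (MvPolynomial.vanishingIdeal ℂ {Ψ} : Ideal (MvPolynomial (Ix n k L) ℂ)) := by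
    intro m hm
    rw [MvPolynomial.mem_vanishingIdeal_singleton_iff]
    refine h m fun g hg => ?_
    rw [Ideal.mem_comap, hI, MvPolynomial.mem_vanishingIdeal_iff] at hm
    have h1 := hm (fun q => g q.1 q.2) (by exact hg)
    have h2 := hev (fun q => g q.1 q.2) m
    rw [← MvPolynomial.coe_aeval_eq_eval] at h2
    exact h2.symm.trans h1
  have hQ : ∃ Q ≥ I, Q.IsPrime ∧ Q.comap θ =
      (MvPolynomial.vanishingIdeal ℂ {Ψ} : Ideal (MvPolynomial (Ix n k L) ℂ)) := by
    let _ : Algebra (MvPolynomial (Ix n k L) ℂ) (MvPolynomial (Fin n × Fin n) ℂ) := θ.toAlgebra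
    have : Algebra.IsIntegral (MvPolynomial (Ix n k L) ℂ) (MvPolynomial (Fin n × Fin n) ℂ) :=
      ⟨hint⟩
    exact Ideal.exists_ideal_over_prime_of_isIntegral _ I hIP
  obtain ⟨Q, hIQ, hQp, hQc⟩ := hQ
  have hQm : Q.IsMaximal := by
    refine Ideal.isMaximal_of_isIntegral_of_isMaximal_comap' θ hint Q ?_
    rw [hQc]
    infer_instance
  obtain ⟨x, hx⟩ := MvPolynomial.isMaximal_iff_eq_vanishingIdeal_singleton.mp hQm
  refine ⟨mat x, ?_, ?_⟩
  · -- the determinant
    have h1 : (Matrix.det (Matrix.of fun a b : Fin n =>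
        (MvPolynomial.X (a, b) : MvPolynomial (Fin n × Fin n) ℂ))) ^ c - 1 ∈ Q := by
      refine hIQ ?_
      rw [hI, MvPolynomial.mem_vanishingIdeal_iff]
      intro y hy
      rw [map_sub, map_pow, map_one, AlgHom.map_det]
      have h2 : (MvPolynomial.aeval y : MvPolynomial (Fin n × Fin n) ℂ →ₐ[ℂ] ℂ).mapMatrix
          (Matrix.of fun a b : Fin n => (MvPolynomial.X (a, b) :
            MvPolynomial (Fin n × Fin n) ℂ)) = mat y := by
        ext a b
        simp [mat]
      rw [h2, sub_eq_zero]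
      exact hy
    rw [hx, MvPolynomial.mem_vanishingIdeal_singleton_iff, map_sub, map_pow, map_one,
      AlgHom.map_det] at h1
    have h2 : (MvPolynomial.aeval x : MvPolynomial (Fin n × Fin n) ℂ →ₐ[ℂ] ℂ).mapMatrix
        (Matrix.of fun a b : Fin n => (MvPolynomial.X (a, b) :
          MvPolynomial (Fin n × Fin n) ℂ)) = mat x := by
      ext a b
      simp [mat]
    rw [h2, sub_eq_zero] at h1
    exact h1
  · funext i
    have h1 : (MvPolynomial.X i - MvPolynomial.C (Ψ i) : MvPolynomial (Ix n k L) ℂ) ∈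
        Q.comap θ := by
      rw [hQc, MvPolynomial.mem_vanishingIdeal_singleton_iff]
      simp
    rw [Ideal.mem_comap, hx, MvPolynomial.mem_vanishingIdeal_singleton_iff] at h1
    have h2 := hev x (MvPolynomial.X i - MvPolynomial.C (Ψ i))
    rw [← MvPolynomial.coe_aeval_eq_eval] at h2
    have h3 := h2.symm.trans h1
    rw [map_sub, MvPolynomial.eval_X, MvPolynomial.eval_C, sub_eq_zero] at h3
    exact h3.symm

theorem finite_solutions {n k L : ℕ} (hk : 1 ≤ k) {F : Ix n k L → ℂ} (hF : Reg F)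
    (Ψ : Ix n k L → ℂ) : {g : Matrix (Fin n) (Fin n) ℂ | act g F = Ψ}.Finite := by
  classical
  have hint := int_pe hk hF
  choose q hqm hq using fun a : Fin n × Fin n => hint (MvPolynomial.X a)
  have hfin : ∀ a b : Fin n, {z : ℂ | ((q (a, b)).map (MvPolynomial.eval Ψ)).IsRoot z}.Finite := by
    intro a b
    refine Polynomial.finite_setOfPred_isRoot ?_
    exact ((hqm (a, b)).map _).ne_zero
  refine Set.Finite.subset (Set.Finite.pi' fun a => Set.Finite.pi' fun b => hfin a b) ?_
  intro g hg a b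
  have hg' : act g F = Ψ := hg
  have h1 := congrArg (MvPolynomial.eval (fun r : Fin n × Fin n => g r.1 r.2)) (hq (a, b))
  rw [map_zero, Polynomial.hom_eval₂, MvPolynomial.eval_X] at h1
  show ((q (a, b)).map (MvPolynomial.eval Ψ)).eval (g a b) = 0
  rw [Polynomial.eval_map, ← h1]
  congr 1
  refine RingHom.ext fun m => ?_
  rw [← hg']
  exact (eval_th F (fun r : Fin n × Fin n => g r.1 r.2) m).symm

end

end Pool.Agent.HOG
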