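import Pool.Agent.HOG.TDefs
import Pool.Agent.HOA.Rep
import Pool.Agent.HOA.RepInv
import Pool.Agent.HOA.RepBr
import Pool.Agent.HOA.Loc

/-!
# HOG/RepL: coordinate expressions of locally defined holomorphic fields

PLAN.  Local versions of the (proved) modules HOA/Rep, HOA/RepInv, HOA/RepBr, HOA/Br, HOA/Push: copy
and localize their proofs (`ContMDiffAt` instead of `ContMDiff`; `ContMDiffAt` of order `ω` at a point
holds at all nearby points: `contMDiffAt_iff_contMDiffAt_nhds` or through the analyticity of `rep`).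
`push_bracketAt`: near `x`, `X' j (f y) = mfderiv f y (X j y)`-type relation:
the field `Y` on a neighbourhood of `f x` given by `Y y = mfderiv f (f.symm y) (X (f.symm y))` is the
pull-back by `f.symm`; use `VectorField.mpullback_mlieBracket` as in HOA/Br (`push_br`).
-/

open scoped Manifold ContDiff Topology BigOperators
open Set Metric Filter

namespace Pool.Agent.HOG

open Pool.Agent.HOA

noncomputable section

variable {E : Type} [NormedAddCommGroup E] [NormedSpace ℂ E] [FiniteDimensional ℂ E]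
variable {M : Type} [TopologicalSpace M] [T2Space M] [CompactSpace M] [ChartedSpace E M]
  [IsManifold 𝓘(ℂ, E) ω M]

theorem rep_analyticAt {X : (x : M) → TangentSpace 𝓘(ℂ, E) x} {x : M} (hX : HolAt X x)
    {e : OpenPartialHomeomorph M E} (he : e ∈ atlas E M) (hx : x ∈ e.source) :
    AnalyticAt ℂ (rep e X) (e x) := by
  have hmax : e ∈ IsManifold.maximalAtlas 𝓘(ℂ, E) ω M := IsManifold.subset_maximalAtlas he
  have h1 : ContMDiffOn 𝓘(ℂ, E) 𝓘(ℂ, E) ω e e.source := contMDiffOn_of_mem_maximalAtlas hmax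
  have h2 : ContMDiffOn 𝓘(ℂ, E) 𝓘(ℂ, E) ω e.symm e.target :=
    contMDiffOn_symm_of_mem_maximalAtlas hmax
  have h3 := h1.contMDiffOn_tangentMapWithin (m := ω) le_rfl e.open_source.uniqueMDiffOn
  have h2' : ContMDiffAt 𝓘(ℂ, E) 𝓘(ℂ, E) ω e.symm (e x) :=
    h2.contMDiffAt (e.open_target.mem_nhds (e.map_source hx))
  have hX' : ContMDiffAt 𝓘(ℂ, E) (𝓘(ℂ, E)).tangent ω
      (fun y => (⟨y, X y⟩ : TangentBundle 𝓘(ℂ, E) M)) (e.symm (e x)) := by
    rw [e.left_inv hx]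
    exact hX
  have h4 : ContMDiffAt 𝓘(ℂ, E) (𝓘(ℂ, E)).tangent ω
      (fun z => (⟨e.symm z, X (e.symm z)⟩ : TangentBundle 𝓘(ℂ, E) M)) (e x) :=
    hX'.comp (e x) h2'
  have hopen : IsOpen (Bundle.TotalSpace.proj ⁻¹' e.source : Set (TangentBundle 𝓘(ℂ, E) M)) :=
    e.open_source.preimage (FiberBundle.continuous_proj E (TangentSpace 𝓘(ℂ, E)))
  have h3' := h3.contMDiffAt
    (x := (⟨e.symm (e x), X (e.symm (e x))⟩ : TangentBundle 𝓘(ℂ, E) M))
    (hopen.mem_nhds (e.map_target (e.map_source hx)))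
  have h5 := ContMDiffAt.comp (e x) h3' h4
  have h6 := (contMDiff_snd_tangentBundle_modelSpace E 𝓘(ℂ, E) (n := ω)).contMDiffAt.comp (e x) h5
  have h7 := h6.contDiffAt
  have h8 := h7.analyticAt
  refine h8.congr ?_
  filter_upwards [e.open_target.mem_nhds (e.map_source hx)] with y hy
  show mfderivWithin 𝓘(ℂ, E) 𝓘(ℂ, E) e e.source (e.symm y) (X (e.symm y)) =
    mfderiv 𝓘(ℂ, E) 𝓘(ℂ, E) e (e.symm y) (X (e.symm y))
  rw [mfderivWithin_of_mem_nhds (e.open_source.mem_nhds (e.map_target hy))]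

theorem holAt_of_rep {X : (x : M) → TangentSpace 𝓘(ℂ, E) x} {x : M}
    {e : OpenPartialHomeomorph M E} (he : e ∈ atlas E M) (hx : x ∈ e.source)
    (h : AnalyticAt ℂ (rep e X) (e x)) : HolAt X x := by
  have hmax : e ∈ IsManifold.maximalAtlas 𝓘(ℂ, E) ω M := IsManifold.subset_maximalAtlas he
  have h1 : ContMDiffOn 𝓘(ℂ, E) 𝓘(ℂ, E) ω e e.source := contMDiffOn_of_mem_maximalAtlas hmax
  have h2 : ContMDiffOn 𝓘(ℂ, E) 𝓘(ℂ, E) ω e.symm e.target :=
    contMDiffOn_symm_of_mem_maximalAtlas hmax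
  have h3 := h2.contMDiffOn_tangentMapWithin (m := ω) le_rfl e.open_target.uniqueMDiffOn
  obtain ⟨V, hV⟩ : ∃ V : E → E, V = rep e X := ⟨_, rfl⟩
  have h4a : AnalyticAt ℂ V (e x) := by
    rw [hV]
    exact h
  have h4 : ContMDiffAt 𝓘(ℂ, E) (𝓘(ℂ, E)).tangent ω
      (fun z => (⟨z, V z⟩ : TangentBundle 𝓘(ℂ, E) E)) (e x) :=
    contMDiffAt_vectorSpace_iff_contDiffAt.2 h4a.contDiffAt
  have h5 : ContMDiffAt 𝓘(ℂ, E) 𝓘(ℂ, E) ω e x := h1.contMDiffAt (e.open_source.mem_nhds hx)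
  have h6 := h4.comp x h5
  have hopen : IsOpen (Bundle.TotalSpace.proj ⁻¹' e.target : Set (TangentBundle 𝓘(ℂ, E) E)) :=
    e.open_target.preimage (FiberBundle.continuous_proj E (TangentSpace 𝓘(ℂ, E)))
  have h7 := h3.contMDiffAt (x := (⟨e x, V (e x)⟩ : TangentBundle 𝓘(ℂ, E) E))
    (hopen.mem_nhds (e.map_source hx))
  have h8 := h7.comp x h6
  refine h8.congr_of_eventuallyEq ?_
  filter_upwards [e.open_source.mem_nhds hx] with y hy
  have hmd := mdifferentiable_of_mem_atlas (I := 𝓘(ℂ, E)) he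
  have e1 : V (e y) = (mfderiv 𝓘(ℂ, E) 𝓘(ℂ, E) e y (X y) : E) := by
    rw [hV]
    show lc e (e.symm (e y)) (X (e.symm (e y))) = lc e y (X y)
    rw [e.left_inv hy]
  have e2 : (mfderivWithin 𝓘(ℂ, E) 𝓘(ℂ, E) e.symm e.target (e y) (V (e y)) : E) = (X y : E) := by
    rw [mfderivWithin_of_mem_nhds (e.open_target.mem_nhds (e.map_source hy))]
    have e3 := DFunLike.congr_fun (hmd.symm_comp_deriv hy) (X y)
    have e4 : (mfderiv 𝓘(ℂ, E) 𝓘(ℂ, E) e.symm (e y) (V (e y)) : E) =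
        (mfderiv 𝓘(ℂ, E) 𝓘(ℂ, E) e.symm (e y) (mfderiv 𝓘(ℂ, E) 𝓘(ℂ, E) e y (X y)) : E) := by
      rw [e1]
    exact e4.trans e3
  refine Bundle.TotalSpace.ext (e.left_inv hy).symm ?_
  exact heq_of_eq e2.symm

theorem holAt_eventually {X : (x : M) → TangentSpace 𝓘(ℂ, E) x} {x : M} (hX : HolAt X x) :
    ∀ᶠ y in 𝓝 x, HolAt X y := by
  obtain ⟨e, he, hx⟩ : ∃ e ∈ atlas E M, x ∈ e.source :=
    ⟨chartAt E x, chart_mem_atlas E x, mem_chart_source E x⟩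
  have h1 := (rep_analyticAt hX he hx).eventually_analyticAt
  have h2 := (e.continuousAt hx).eventually h1
  filter_upwards [h2, e.open_source.mem_nhds hx] with y hy hy'
  exact holAt_of_rep he hy' hy

omit [FiniteDimensional ℂ E] [T2Space M] [CompactSpace M] in
private theorem rep_eq_pull (X : (x : M) → TangentSpace 𝓘(ℂ, E) x)
    {e : OpenPartialHomeomorph M E} (he : e ∈ atlas E M) {z : E} (hz : z ∈ e.target) :
    rep e X z = VectorField.mpullback 𝓘(ℂ, E) 𝓘(ℂ, E) e.symm X z := by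
  have hm : e.MDifferentiable 𝓘(ℂ, E) 𝓘(ℂ, E) := mdifferentiable_of_mem_atlas he
  have h1 := hm.comp_symm_deriv hz
  have h2 := hm.symm_comp_deriv (x := e.symm z) (e.map_target hz)
  have key : ∀ w : E, w = z →
      (mfderiv 𝓘(ℂ, E) 𝓘(ℂ, E) e.symm w : E →L[ℂ] E).comp
        (mfderiv 𝓘(ℂ, E) 𝓘(ℂ, E) e (e.symm z) : E →L[ℂ] E) = ContinuousLinearMap.id ℂ E →
      (mfderiv 𝓘(ℂ, E) 𝓘(ℂ, E) e.symm z : E →L[ℂ] E).comp
        (mfderiv 𝓘(ℂ, E) 𝓘(ℂ, E) e (e.symm z) : E →L[ℂ] E) = ContinuousLinearMap.id ℂ E := by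
    rintro w rfl h
    exact h
  have h3 := key (e (e.symm z)) (e.right_inv hz) h2
  have hinv : (mfderiv 𝓘(ℂ, E) 𝓘(ℂ, E) e.symm z : E →L[ℂ] E).inverse =
      (mfderiv 𝓘(ℂ, E) 𝓘(ℂ, E) e (e.symm z) : E →L[ℂ] E) :=
    ContinuousLinearMap.inverse_eq h3 h1
  exact (congrArg (fun A : E →L[ℂ] E => A (X (e.symm z))) hinv).symm

omit [FiniteDimensional ℂ E] in
private theorem br_vec (V W : E → E) (z : E) :
    (VectorField.mlieBracket 𝓘(ℂ, E) (M := E) (V : (x : E) → TangentSpace 𝓘(ℂ, E) x)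
      (W : (x : E) → TangentSpace 𝓘(ℂ, E) x) z : E) = fderiv ℂ W z (V z) - fderiv ℂ V z (W z) := by
  have h := congrFun (VectorField.mlieBracketWithin_eq_lieBracketWithin (𝕜 := ℂ)
    (V := (V : (x : E) → TangentSpace 𝓘(ℂ, E) x)) (W := (W : (x : E) → TangentSpace 𝓘(ℂ, E) x))
    (s := univ)) z
  rw [VectorField.lieBracketWithin_univ] at h
  exact h

theorem rep_bracketAt {X Y : (x : M) → TangentSpace 𝓘(ℂ, E) x} {x : M} (hX : HolAt X x)
    (hY : HolAt Y x) {e : OpenPartialHomeomorph M E} (he : e ∈ atlas E M) (hx : x ∈ e.source) :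
    rep e (VectorField.mlieBracket 𝓘(ℂ, E) X Y) (e x) =
      fderiv ℂ (rep e Y) (e x) (rep e X (e x)) - fderiv ℂ (rep e X) (e x) (rep e Y (e x)) := by
  have hcs : CompleteSpace E := FiniteDimensional.complete ℂ E
  have hm2 : IsManifold 𝓘(ℂ, E) (minSmoothness ℂ 2) M := IsManifold.of_le (n := ω) le_top
  have hz : e x ∈ e.target := e.map_source hx
  rw [rep_eq_pull _ he hz]
  have hf : ContMDiffAt 𝓘(ℂ, E) 𝓘(ℂ, E) ω e.symm (e x) :=
    (contMDiffOn_symm_of_mem_maximalAtlas (IsManifold.subset_maximalAtlas he)).contMDiffAt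
      (e.open_target.mem_nhds hz)
  have hX0 : MDifferentiableAt 𝓘(ℂ, E) (𝓘(ℂ, E)).tangent
      (fun x => (⟨x, X x⟩ : TangentBundle 𝓘(ℂ, E) M)) x :=
    ContMDiffAt.mdifferentiableAt hX (by simp)
  have hY0 : MDifferentiableAt 𝓘(ℂ, E) (𝓘(ℂ, E)).tangent
      (fun x => (⟨x, Y x⟩ : TangentBundle 𝓘(ℂ, E) M)) x :=
    ContMDiffAt.mdifferentiableAt hY (by simp)
  have hX1 : MDifferentiableAt 𝓘(ℂ, E) (𝓘(ℂ, E)).tangent
      (fun x => (⟨x, X x⟩ : TangentBundle 𝓘(ℂ, E) M)) (e.symm (e x)) := by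
    rw [e.left_inv hx]
    exact hX0
  have hY1 : MDifferentiableAt 𝓘(ℂ, E) (𝓘(ℂ, E)).tangent
      (fun x => (⟨x, Y x⟩ : TangentBundle 𝓘(ℂ, E) M)) (e.symm (e x)) := by
    rw [e.left_inv hx]
    exact hY0
  rw [VectorField.mpullback_mlieBracket hX1 hY1 hf (by simp)]
  have hXe : VectorField.mpullback 𝓘(ℂ, E) 𝓘(ℂ, E) e.symm X =ᶠ[𝓝 (e x)] rep e X := by
    filter_upwards [e.open_target.mem_nhds hz] with w hw
    exact (rep_eq_pull X he hw).symm
  have hYe : VectorField.mpullback 𝓘(ℂ, E) 𝓘(ℂ, E) e.symm Y =ᶠ[𝓝 (e x)] rep e Y := by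
    filter_upwards [e.open_target.mem_nhds hz] with w hw
    exact (rep_eq_pull Y he hw).symm
  exact (Filter.EventuallyEq.mlieBracket_vectorField_eq hXe hYe).trans
    (br_vec (rep e X) (rep e Y) (e x))

theorem holAt_bracket {X Y : (x : M) → TangentSpace 𝓘(ℂ, E) x} {x : M} (hX : HolAt X x)
    (hY : HolAt Y x) : HolAt (VectorField.mlieBracket 𝓘(ℂ, E) X Y) x := by
  have : CompleteSpace E := FiniteDimensional.complete ℂ E
  have h1 : (ω : WithTop ℕ∞) + 1 ≤ ω := le_top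
  have : IsManifold 𝓘(ℂ, E) (ω + 1) M := IsManifold.of_le (n := ω) h1
  have : IsManifold 𝓘(ℂ, E) (minSmoothness ℂ 2) M := IsManifold.of_le (n := ω) le_top
  have hv : ContMDiffWithinAt 𝓘(ℂ, E) (𝓘(ℂ, E)).tangent ω
      (fun x => (⟨x, X x⟩ : TangentBundle 𝓘(ℂ, E) M)) univ x := ContMDiffAt.contMDiffWithinAt hX
  have hw : ContMDiffWithinAt 𝓘(ℂ, E) (𝓘(ℂ, E)).tangent ω
      (fun x => (⟨x, Y x⟩ : TangentBundle 𝓘(ℂ, E) M)) univ x := ContMDiffAt.contMDiffWithinAt hY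
  have h := hv.mlieBracketWithin_vectorField (m := ω) hw uniqueMDiffOn_univ (mem_univ x) le_top
  rw [contMDiffWithinAt_univ] at h
  simp only [VectorField.mlieBracketWithin_univ] at h
  exact h

/-- if the fields `X`, `Y` near `x` are `f`-related to the fields `X'`, `Y'` near `f x`, so are the
brackets -/
theorem push_bracketAt (f : Diffeomorph 𝓘(ℂ, E) 𝓘(ℂ, E) M M ω)
    {X Y X' Y' : (x : M) → TangentSpace 𝓘(ℂ, E) x} {x : M} (hX : HolAt X x) (hY : HolAt Y x)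
    (hX' : HolAt X' (f x)) (hY' : HolAt Y' (f x))
    (h1 : ∀ᶠ y in 𝓝 x, mfderiv 𝓘(ℂ, E) 𝓘(ℂ, E) f y (X y) = X' (f y))
    (h2 : ∀ᶠ y in 𝓝 x, mfderiv 𝓘(ℂ, E) 𝓘(ℂ, E) f y (Y y) = Y' (f y)) :
    mfderiv 𝓘(ℂ, E) 𝓘(ℂ, E) f x (VectorField.mlieBracket 𝓘(ℂ, E) X Y x) =
      VectorField.mlieBracket 𝓘(ℂ, E) X' Y' (f x) := by
  have : CompleteSpace E := FiniteDimensional.complete ℂ E
  have : IsManifold 𝓘(ℂ, E) (minSmoothness ℂ 2) M := IsManifold.of_le (n := ω) le_top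
  have hne : (ω : WithTop ℕ∞) ≠ 0 := by simp
  have hinv : ∀ (x : M) (ξ : TangentSpace 𝓘(ℂ, E) x),
      (mfderiv 𝓘(ℂ, E) 𝓘(ℂ, E) f x).inverse (mfderiv 𝓘(ℂ, E) 𝓘(ℂ, E) f x ξ) = ξ := by
    intro x ξ
    rw [← f.mfderivToContinuousLinearEquiv_coe hne, ContinuousLinearMap.inverse_equiv]
    exact (f.mfderivToContinuousLinearEquiv hne x).symm_apply_apply ξ
  have hinv' : ∀ (x : M) (ξ : TangentSpace 𝓘(ℂ, E) (f x)),
      mfderiv 𝓘(ℂ, E) 𝓘(ℂ, E) f x ((mfderiv 𝓘(ℂ, E) 𝓘(ℂ, E) f x).inverse ξ) = ξ := by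
    intro x ξ
    rw [← f.mfderivToContinuousLinearEquiv_coe hne, ContinuousLinearMap.inverse_equiv]
    exact (f.mfderivToContinuousLinearEquiv hne x).apply_symm_apply ξ
  have hXe : VectorField.mpullback 𝓘(ℂ, E) 𝓘(ℂ, E) f X' =ᶠ[𝓝 x] X := by
    filter_upwards [h1] with y hy
    rw [VectorField.mpullback_apply, ← hy]
    exact hinv y _
  have hYe : VectorField.mpullback 𝓘(ℂ, E) 𝓘(ℂ, E) f Y' =ᶠ[𝓝 x] Y := by
    filter_upwards [h2] with y hy
    rw [VectorField.mpullback_apply, ← hy]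
    exact hinv y _
  have hX1 : MDifferentiableAt 𝓘(ℂ, E) (𝓘(ℂ, E)).tangent
      (fun x => (⟨x, X' x⟩ : TangentBundle 𝓘(ℂ, E) M)) (f x) :=
    ContMDiffAt.mdifferentiableAt hX' (by simp)
  have hY1 : MDifferentiableAt 𝓘(ℂ, E) (𝓘(ℂ, E)).tangent
      (fun x => (⟨x, Y' x⟩ : TangentBundle 𝓘(ℂ, E) M)) (f x) :=
    ContMDiffAt.mdifferentiableAt hY' (by simp)
  have h := VectorField.mpullback_mlieBracket (I := 𝓘(ℂ, E)) (I' := 𝓘(ℂ, E)) (n := ω) (f := f)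
    hX1 hY1 (f.contMDiff x) le_top
  rw [Filter.EventuallyEq.mlieBracket_vectorField_eq hXe hYe, VectorField.mpullback_apply] at h
  rw [← h, hinv']

end

end Pool.Agent.HOG
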