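import Pool.Agent.HOG.TAlg
import Pool.Agent.HOG.RepL

/-!
# HOG/ScA: structure functions of the local frames

PLAN.  Near `x₀` the frame `X · x` is independent (`tup_indep`, `F` regular) and spans (`n = finrank`),
so `coord` gives the coordinates (`coord_eq`): `sc_spec`.  `sc_analytic`: in the chart `e`, with `β` a
basis of `E` indexed by `Fin n`, `rep e (mlieBracket (X i) (X j)) = Σ_l sc X (e.symm z) i j l •
rep e (X l) z` near `e x₀`; the `rep e (X l)` and the left side (`holAt_bracket`, `rep_analyticAt`) are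
analytic, and Cramer's rule expresses the coefficients as quotients of determinants.
`sc_congr`: the bracket at `x₀` depends only on the germs
(`Filter.EventuallyEq.mlieBracket_vectorField_eq`).
`sc_fmul`: `[Σ_p h p i X_p, Σ_q h q j X_q] = Σ h p i h q j [X_p, X_q]` (bilinearity over constants,
`mlieBracket_add_left`, `mlieBracket_const_smul_left`, ..., or in the chart with `rep_bracketAt`);
comparing coordinates: `Σ_l c'_ijl h r l = Σ_{p,q} h p i h q j c_pqr`, which is `Intw h c' c`
(bilinear, check on the standard basis).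
-/

open scoped Manifold ContDiff Topology BigOperators
open Set Metric Filter

namespace Pool.Agent.HOG

open Pool.Agent.HOA

noncomputable section

variable {E : Type} [NormedAddCommGroup E] [NormedSpace ℂ E] [FiniteDimensional ℂ E]
variable {M : Type} [TopologicalSpace M] [T2Space M] [CompactSpace M] [ChartedSpace E M]
  [IsManifold 𝓘(ℂ, E) ω M]

omit [FiniteDimensional ℂ E] [T2Space M] [CompactSpace M] [IsManifold 𝓘(ℂ, E) ω M] in
private theorem lc_sum {n : ℕ} (e : OpenPartialHomeomorph M E) (x : M) (t : Fin n → ℂ)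
    (v : Fin n → TangentSpace 𝓘(ℂ, E) x) :
    lc e x (∑ i, t i • v i) = ∑ i, t i • lc e x (v i) := by
  unfold lc
  rw [map_sum]
  apply Finset.sum_congr rfl
  intro i _
  rw [map_smul]
  rfl

omit [FiniteDimensional ℂ E] [T2Space M] [CompactSpace M] [IsManifold 𝓘(ℂ, E) ω M] in
private theorem rep_fmul {n : ℕ} (e : OpenPartialHomeomorph M E)
    (X : Fin n → (x : M) → TangentSpace 𝓘(ℂ, E) x) (h : Matrix (Fin n) (Fin n) ℂ) (i : Fin n) :
    rep e (fun x => fmul (fun l => X l x) h i) = fun z => ∑ j, h j i • rep e (X j) z := by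
  funext z
  exact lc_sum e (e.symm z) (fun j => h j i) (fun j => X j (e.symm z))

private theorem coord_spec {n : ℕ} {V : Type} [AddCommGroup V] [Module ℂ V] {v : Fin n → V}
    {w : V} (h : ∃ t : Fin n → ℂ, w = ∑ i, t i • v i) : w = ∑ i, coord v w i • v i := by
  have h1 : coord v w = h.choose := by
    unfold coord
    rw [dif_pos h]
  rw [h1]
  exact h.choose_spec

/-- coordinates with respect to an independent frame -/
private theorem coord_frame {n : ℕ} (hn : Module.finrank ℂ E = n) {x : M}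
    {v : Fin n → TangentSpace 𝓘(ℂ, E) x} (hv : LinearIndependent ℂ v) (i : Fin n)
    (w : TangentSpace 𝓘(ℂ, E) x) : w = ∑ l, coord v w l • v l := by
  obtain ⟨g, hg, _⟩ := exists_fmul hn hv (fun _ => w)
  apply coord_spec
  exact ⟨fun j => g j i, congrFun hg i⟩

theorem sc_spec {n k L : ℕ} (hk : 1 ≤ k) (hn : Module.finrank ℂ E = n)
    {τ : Fin L → HT E M k} {F : Ix n k L → ℂ} (hF : Reg F) {x₀ : M}
    {X : Fin n → (x : M) → TangentSpace 𝓘(ℂ, E) x} (hX : IsLF τ F X x₀) :
    ∀ᶠ x in 𝓝 x₀, ∀ i j, VectorField.mlieBracket 𝓘(ℂ, E) (X i) (X j) x =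
      ∑ l, sc X x i j l • X l x := by
  filter_upwards [hX] with x hx
  intro i j
  have hv : LinearIndependent ℂ (fun i => X i x) := tup_indep hk (τ := τ) (by
    rw [hx.2]
    exact hF)
  exact coord_frame hn hv i _

private theorem det_an {n : ℕ} {B : E → Matrix (Fin n) (Fin n) ℂ} {z₀ : E}
    (h : ∀ r s, AnalyticAt ℂ (fun z => B z r s) z₀) : AnalyticAt ℂ (fun z => (B z).det) z₀ := by
  simp only [Matrix.det_apply]
  apply Finset.analyticAt_fun_sum
  intro σ _
  have h1 : AnalyticAt ℂ (fun z => ∏ i, B z (σ i) i) z₀ :=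
    Finset.analyticAt_fun_prod _ fun i _ => h _ _
  have h2 : (fun z => Equiv.Perm.sign σ • ∏ i, B z (σ i) i) =
      fun z => ((Equiv.Perm.sign σ : ℤ) : ℂ) * ∏ i, B z (σ i) i := by
    funext z
    rw [Units.smul_def, zsmul_eq_mul]
  rw [h2]
  exact analyticAt_const.mul h1

theorem sc_analytic {n k L : ℕ} (hk : 1 ≤ k) (hn : Module.finrank ℂ E = n)
    {τ : Fin L → HT E M k} {F : Ix n k L → ℂ} (hF : Reg F) {x₀ : M}
    {X : Fin n → (x : M) → TangentSpace 𝓘(ℂ, E) x} (hX : IsLF τ F X x₀)
    {e : OpenPartialHomeomorph M E} (he : e ∈ atlas E M) (hx : x₀ ∈ e.source) (i j l : Fin n) :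
    AnalyticAt ℂ (fun z => sc X (e.symm z) i j l) (e x₀) := by
  have hz₀ : e x₀ ∈ e.target := e.map_source hx
  have hten : Tendsto e.symm (𝓝 (e x₀)) (𝓝 x₀) := e.tendsto_symm hx
  have h1 := hten.eventually (sc_spec hk hn hF hX)
  have h2 := (hten.eventually hX).self_of_nhds
  have h0 := hX.self_of_nhds
  let β : Module.Basis (Fin n) ℂ E := Module.finBasisOfFinrankEq ℂ E hn
  obtain ⟨A, hA⟩ : ∃ A : E → Matrix (Fin n) (Fin n) ℂ, ∀ z r s,
    A z r s = β.repr (rep e (X s) z) r := ⟨fun z => fun r s => β.repr (rep e (X s) z) r,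
      fun _ _ _ => rfl⟩
  obtain ⟨b, hb⟩ : ∃ b : E → Fin n → ℂ, ∀ z r,
    b z r = β.repr (rep e (VectorField.mlieBracket 𝓘(ℂ, E) (X i) (X j)) z) r :=
    ⟨fun z r => β.repr (rep e (VectorField.mlieBracket 𝓘(ℂ, E) (X i) (X j)) z) r,
      fun _ _ => rfl⟩
  have hlin : ∀ (r : Fin n) (Y : (x : M) → TangentSpace 𝓘(ℂ, E) x), HolAt Y x₀ →
      AnalyticAt ℂ (fun z => β.repr (rep e Y z) r) (e x₀) := by
    intro r Y hY
    have h3 := rep_analyticAt hY he hx
    have h4 : AnalyticAt ℂ (LinearMap.toContinuousLinearMap (β.coord r)) (rep e Y (e x₀)) :=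
      ContinuousLinearMap.analyticAt _ _
    exact h4.comp h3
  have hAan : ∀ r s, AnalyticAt ℂ (fun z => A z r s) (e x₀) := by
    intro r s
    simp only [hA]
    exact hlin r (X s) (h0.1 s)
  have hban : ∀ r, AnalyticAt ℂ (fun z => b z r) (e x₀) := by
    intro r
    simp only [hb]
    exact hlin r _ (holAt_bracket (h0.1 i) (h0.1 j))
  have h3 : ∀ᶠ z in 𝓝 (e x₀), (A z).mulVec (fun l => sc X (e.symm z) i j l) = b z := by
    filter_upwards [h1] with z hz
    funext r
    have h4 : rep e (VectorField.mlieBracket 𝓘(ℂ, E) (X i) (X j)) z =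
        ∑ l, sc X (e.symm z) i j l • rep e (X l) z := by
      show lc e (e.symm z) (VectorField.mlieBracket 𝓘(ℂ, E) (X i) (X j) (e.symm z)) = _
      rw [hz i j]
      exact lc_sum e (e.symm z) (fun l => sc X (e.symm z) i j l) (fun l => X l (e.symm z))
    rw [hb, h4, map_sum, Finsupp.finsetSum_apply]
    show ∑ l, A z r l * sc X (e.symm z) i j l = _
    apply Finset.sum_congr rfl
    intro l _
    rw [hA, map_smul, Finsupp.smul_apply, smul_eq_mul, mul_comm]
  have hdet : (A (e x₀)).det ≠ 0 := by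
    have hv : LinearIndependent ℂ (fun i => X i (e.symm (e x₀))) := tup_indep hk (τ := τ) (by
      rw [h2.2]
      exact hF)
    have hv' : LinearIndependent ℂ (fun s => rep e (X s) (e x₀)) := by
      let Λ : TangentSpace 𝓘(ℂ, E) (e.symm (e x₀)) →ₗ[ℂ] E :=
        { toFun := lc e (e.symm (e x₀))
          map_add' := fun a b => by
            unfold lc
            exact map_add _ a b
          map_smul' := fun t a => by
            unfold lc
            exact map_smul _ t a }
      have hker : LinearMap.ker Λ = ⊥ := by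
        rw [LinearMap.ker_eq_bot]
        exact lc_injective he (e.map_target hz₀)
      exact hv.map' Λ hker
    have hsp : Submodule.span ℂ (Set.range fun s => rep e (X s) (e x₀)) = ⊤ :=
      hv'.span_eq_top_of_card_eq_finrank' (by rw [Fintype.card_fin, hn])
    have hu : IsUnit (β.det fun s => rep e (X s) (e x₀)) :=
      (Module.Basis.is_basis_iff_det β).1 ⟨hv', hsp⟩
    have hu2 : β.det (fun s => rep e (X s) (e x₀)) = (A (e x₀)).det := by
      rw [Module.Basis.det_apply]
      congr 1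
      ext r s
      rw [hA]
      rfl
    rw [← hu2]
    exact hu.ne_zero
  have hdan : AnalyticAt ℂ (fun z => (A z).det) (e x₀) := det_an hAan
  have h5 : ∀ᶠ z in 𝓝 (e x₀), (A z).det ≠ 0 := hdan.continuousAt.eventually_ne hdet
  have hcan : AnalyticAt ℂ (fun z => ((A z).updateCol l (b z)).det) (e x₀) := by
    apply det_an
    intro r s
    simp only [Matrix.updateCol_apply]
    by_cases hs : s = l
    · simp only [hs, if_true]
      exact hban r
    · simp only [hs, if_false]
      exact hAan r s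
  refine (hcan.div hdan hdet).congr ?_
  filter_upwards [h3, h5] with z hz hz'
  rw [Pi.div_apply, div_eq_iff hz', ← Matrix.cramer_apply, ← hz,
    Matrix.cramer_eq_adjugate_mulVec, Matrix.mulVec_mulVec, Matrix.adjugate_mul,
    Matrix.smul_mulVec, Matrix.one_mulVec, Pi.smul_apply, smul_eq_mul, mul_comm]

theorem sc_congr {n : ℕ} {x₀ : M} {X X' : Fin n → (x : M) → TangentSpace 𝓘(ℂ, E) x}
    (h : ∀ᶠ x in 𝓝 x₀, ∀ i, X i x = X' i x) : sc X x₀ = sc X' x₀ := by
  have h1 : ∀ i, X i =ᶠ[𝓝 x₀] X' i := fun i => h.mono fun x hx => hx i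
  have h2 : (fun l => X l x₀) = fun l => X' l x₀ := funext fun l => h.self_of_nhds l
  funext i j
  unfold sc
  rw [h2, (h1 i).mlieBracket_vectorField_eq (h1 j)]

omit [T2Space M] [CompactSpace M] [FiniteDimensional ℂ E] in
private theorem holAt_fmul {n : ℕ} {x : M} {X : Fin n → (x : M) → TangentSpace 𝓘(ℂ, E) x}
    (hX : ∀ i, HolAt (X i) x) (h : Matrix (Fin n) (Fin n) ℂ) (i : Fin n) :
    HolAt (fun x => fmul (fun l => X l x) h i) x := by
  unfold HolAt fmul
  apply ContMDiffAt.sum_section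
  intro j _
  exact (hX j).const_smul_section

theorem lf_fmul {n k L : ℕ} {τ : Fin L → HT E M k} {F : Ix n k L → ℂ} {x₀ : M}
    {X : Fin n → (x : M) → TangentSpace 𝓘(ℂ, E) x} (hX : IsLF τ F X x₀)
    {h : Matrix (Fin n) (Fin n) ℂ} (hh : act h F = F) :
    IsLF τ F (fun i x => fmul (fun l => X l x) h i) x₀ := by
  unfold IsLF at hX ⊢
  filter_upwards [hX] with x hx
  refine ⟨fun i => holAt_fmul hx.1 h i, ?_⟩
  have h1 := tup_fmul τ x (fun l => X l x) h
  rw [hx.2, hh] at h1
  exact h1

/-- the bracket is bilinear over the constants -/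
private theorem bracket_fmul {n : ℕ} {x₀ : M} {X : Fin n → (x : M) → TangentSpace 𝓘(ℂ, E) x}
    (hX : ∀ i, HolAt (X i) x₀) (h : Matrix (Fin n) (Fin n) ℂ) (i j : Fin n) :
    VectorField.mlieBracket 𝓘(ℂ, E) (fun x => fmul (fun l => X l x) h i)
      (fun x => fmul (fun l => X l x) h j) x₀ =
      ∑ p, ∑ q, (h p i * h q j) • VectorField.mlieBracket 𝓘(ℂ, E) (X p) (X q) x₀ := by
  obtain ⟨e, he, hx⟩ : ∃ e ∈ atlas E M, x₀ ∈ e.source :=
    ⟨chartAt E x₀, chart_mem_atlas E x₀, mem_chart_source E x₀⟩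
  have hz₀ : e x₀ ∈ e.target := e.map_source hx
  have hdiff : ∀ p, DifferentiableAt ℂ (rep e (X p)) (e x₀) := fun p =>
    (rep_analyticAt (hX p) he hx).differentiableAt
  have hfd : ∀ i, fderiv ℂ (fun z => ∑ p, h p i • rep e (X p) z) (e x₀) =
      ∑ p, h p i • fderiv ℂ (rep e (X p)) (e x₀) := by
    intro i
    have h5 := HasFDerivAt.fun_sum (u := Finset.univ) (A := fun p z => h p i • rep e (X p) z)
      (A' := fun p => h p i • fderiv ℂ (rep e (X p)) (e x₀)) (x := e x₀)
      fun p _ => (hdiff p).hasFDerivAt.const_smul (h p i)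
    exact h5.fderiv
  have key : lc e (e.symm (e x₀)) (VectorField.mlieBracket 𝓘(ℂ, E)
      (fun x => fmul (fun l => X l x) h i) (fun x => fmul (fun l => X l x) h j)
      (e.symm (e x₀))) = lc e (e.symm (e x₀)) (∑ p, ∑ q, (h p i * h q j) •
        VectorField.mlieBracket 𝓘(ℂ, E) (X p) (X q) (e.symm (e x₀))) := by
    have e1 := rep_bracketAt (holAt_fmul hX h i) (holAt_fmul hX h j) he hx
    have e2 : lc e (e.symm (e x₀)) (VectorField.mlieBracket 𝓘(ℂ, E)
      (fun x => fmul (fun l => X l x) h i) (fun x => fmul (fun l => X l x) h j)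
      (e.symm (e x₀))) = rep e (VectorField.mlieBracket 𝓘(ℂ, E)
      (fun x => fmul (fun l => X l x) h i) (fun x => fmul (fun l => X l x) h j)) (e x₀) := rfl
    rw [e2, e1, rep_fmul e X h i, rep_fmul e X h j, hfd i, hfd j]
    have e3 : lc e (e.symm (e x₀)) (∑ p, ∑ q, (h p i * h q j) •
        VectorField.mlieBracket 𝓘(ℂ, E) (X p) (X q) (e.symm (e x₀))) =
        ∑ p, ∑ q, (h p i * h q j) • rep e (VectorField.mlieBracket 𝓘(ℂ, E) (X p) (X q))
          (e x₀) := by
      have e4 := lc_sum e (e.symm (e x₀)) (fun _ : Fin n => (1 : ℂ)) (fun p => ∑ q,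
        (h p i * h q j) • VectorField.mlieBracket 𝓘(ℂ, E) (X p) (X q) (e.symm (e x₀)))
      simp only [one_smul] at e4
      refine e4.trans ?_
      apply Finset.sum_congr rfl
      intro p _
      exact lc_sum e (e.symm (e x₀)) (fun q => h p i * h q j) (fun q =>
        VectorField.mlieBracket 𝓘(ℂ, E) (X p) (X q) (e.symm (e x₀)))
    rw [e3]
    have e5 : ∀ p q, rep e (VectorField.mlieBracket 𝓘(ℂ, E) (X p) (X q)) (e x₀) =
        fderiv ℂ (rep e (X q)) (e x₀) (rep e (X p) (e x₀)) -
          fderiv ℂ (rep e (X p)) (e x₀) (rep e (X q) (e x₀)) := fun p q =>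
      rep_bracketAt (hX p) (hX q) he hx
    simp only [e5, ContinuousLinearMap.sum_apply, ContinuousLinearMap.smul_apply, map_sum,
      map_smul, smul_sub, Finset.sum_sub_distrib, Finset.smul_sum, smul_smul]
    congr 1
    · rw [Finset.sum_comm]
      apply Finset.sum_congr rfl
      intro p _
      apply Finset.sum_congr rfl
      intro q _
      rw [mul_comm]
  have key2 := lc_injective he (e.map_target hz₀) key
  rw [e.left_inv hx] at key2
  exact key2

theorem sc_fmul {n k L : ℕ} (hk : 1 ≤ k) (hn : Module.finrank ℂ E = n)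
    {τ : Fin L → HT E M k} {F : Ix n k L → ℂ} (hF : Reg F) {x₀ : M}
    {X : Fin n → (x : M) → TangentSpace 𝓘(ℂ, E) x} (hX : IsLF τ F X x₀)
    {h : Matrix (Fin n) (Fin n) ℂ} (hh : act h F = F) :
    Intw h (sc (fun i x => fmul (fun l => X l x) h i) x₀) (sc X x₀) := by
  have h0 := hX.self_of_nhds
  have hv : LinearIndependent ℂ (fun i => X i x₀) := tup_indep hk (τ := τ) (by
    rw [h0.2]
    exact hF)
  have s1 := (sc_spec hk hn hF hX).self_of_nhds
  have s2 := (sc_spec hk hn hF (lf_fmul hX hh)).self_of_nhds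
  obtain ⟨c, hc⟩ : ∃ c, c = sc X x₀ := ⟨_, rfl⟩
  obtain ⟨c', hc'⟩ : ∃ c', c' = sc (fun i x => fmul (fun l => X l x) h i) x₀ := ⟨_, rfl⟩
  rw [← hc] at s1
  rw [← hc'] at s2
  rw [← hc, ← hc']
  have star : ∀ i j r, ∑ l, h r l * c' i j l = ∑ p, ∑ q, h p i * h q j * c p q r := by
    intro i j
    have e1 := s2 i j
    rw [bracket_fmul h0.1 h i j] at e1
    simp only [s1] at e1
    have e2 : ∑ l, c' i j l • fmul (fun l => X l x₀) h l =
        ∑ r, (∑ l, h r l * c' i j l) • X r x₀ := by
      unfold fmul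
      simp only [Finset.smul_sum, smul_smul, Finset.sum_smul]
      rw [Finset.sum_comm]
      apply Finset.sum_congr rfl
      intro r _
      apply Finset.sum_congr rfl
      intro l _
      rw [mul_comm]
    have e3 : ∑ p, ∑ q, (h p i * h q j) • ∑ l, c p q l • X l x₀ =
        ∑ r, (∑ p, ∑ q, h p i * h q j * c p q r) • X r x₀ := by
      simp only [Finset.smul_sum, smul_smul, Finset.sum_smul]
      rw [Finset.sum_comm' (t' := Finset.univ) (s' := fun _ => Finset.univ) (by simp)]
      have e4 : ∀ q, ∑ p, ∑ r, (h p i * h q j * c p q r) • X r x₀ =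
          ∑ r, ∑ p, (h p i * h q j * c p q r) • X r x₀ := fun q => Finset.sum_comm
      simp only [e4]
      rw [Finset.sum_comm]
      apply Finset.sum_congr rfl
      intro r _
      rw [Finset.sum_comm]
    rw [e3] at e1
    have e5 : ∑ r, (∑ p, ∑ q, h p i * h q j * c p q r) • X r x₀ =
        ∑ r, (∑ l, h r l * c' i j l) • X r x₀ := e1.trans e2
    have e6 : ∑ r, ((∑ l, h r l * c' i j l) - ∑ p, ∑ q, h p i * h q j * c p q r) • X r x₀ = 0 := by
      simp only [sub_smul, Finset.sum_sub_distrib]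
      rw [e5, sub_self]
    intro r
    exact sub_eq_zero.1 (Fintype.linearIndependent_iff.1 hv _ e6 r)
  intro u v
  funext r
  show ∑ l, h r l * brc c' u v l = ∑ p, ∑ q, (h.mulVec u) p * (h.mulVec v) q * c p q r
  have e1 : ∑ l, h r l * brc c' u v l = ∑ i, ∑ j, u i * v j * ∑ l, h r l * c' i j l := by
    unfold brc
    simp only [Finset.mul_sum]
    rw [Finset.sum_comm]
    apply Finset.sum_congr rfl
    intro i _
    rw [Finset.sum_comm]
    apply Finset.sum_congr rfl
    intro j _
    apply Finset.sum_congr rfl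
    intro l _
    ring
  rw [e1]
  simp only [star]
  have e2 : ∀ p q, (h.mulVec u) p * (h.mulVec v) q * c p q r =
      ∑ i, ∑ j, u i * v j * (h p i * h q j * c p q r) := by
    intro p q
    show (∑ i, h p i * u i) * (∑ j, h q j * v j) * c p q r = _
    rw [Finset.sum_mul_sum, Finset.sum_mul]
    apply Finset.sum_congr rfl
    intro i _
    rw [Finset.sum_mul]
    apply Finset.sum_congr rfl
    intro j _
    ring
  simp only [e2]
  have e3 : ∀ i j, u i * v j * ∑ p, ∑ q, h p i * h q j * c p q r =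
      ∑ p, ∑ q, u i * v j * (h p i * h q j * c p q r) := by
    intro i j
    simp only [Finset.mul_sum]
  simp only [e3]
  -- exchange of the sums
  calc ∑ i, ∑ j, ∑ p, ∑ q, u i * v j * (h p i * h q j * c p q r)
      = ∑ i, ∑ p, ∑ j, ∑ q, u i * v j * (h p i * h q j * c p q r) := by
        apply Finset.sum_congr rfl
        intro i _
        exact Finset.sum_comm
    _ = ∑ p, ∑ i, ∑ j, ∑ q, u i * v j * (h p i * h q j * c p q r) := Finset.sum_comm
    _ = ∑ p, ∑ i, ∑ q, ∑ j, u i * v j * (h p i * h q j * c p q r) := by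
        apply Finset.sum_congr rfl
        intro p _
        apply Finset.sum_congr rfl
        intro i _
        exact Finset.sum_comm
    _ = ∑ p, ∑ q, ∑ i, ∑ j, u i * v j * (h p i * h q j * c p q r) := by
        apply Finset.sum_congr rfl
        intro p _
        exact Finset.sum_comm

end

end Pool.Agent.HOG
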