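import Pool.Agent.HOG.LocFr
import Pool.Agent.HOG.ScA
import Pool.Agent.HOG.Orb

/-!
# HOG/FEq: the diffeomorphism acts on the local frames by constant matrices

PLAN.  For `y` near `x` let `b y` be the matrix with
`mfderiv f y (X i y) = Σ_j b y j i • X' j (f y)` (the `X' · (f y)` form a basis: `exists_fmul`).  By
`hA`, `act (b y) F = tup τ (f y) (mfderiv f y (X · y)) = A F` (the right side of the claim), so `b y`
is in a finite set (`finite_solutions` in HOG/Orb), and `b` is continuous at the points near `x`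
(coordinates of continuous fields in a continuous frame, in charts: `rep_analyticAt`,
`lc_mfderiv`, Cramer), so it is constant near `x` (a continuous function to a finite discrete set; it
is enough that `b` is continuous near `x`), `b = a`.  The fields `X i` and `Σ_j a j i • X' j` are then
`f`-related near `x`, so by `push_bracketAt`,
`mfderiv f x [X i, X j] = [Σ_p a p i X' p, Σ_q a q j X' q] (f x) = Σ a p i a q j [X' p, X' q] (f x)`.
Comparing the coordinates in the basis `X' · (f x)` (`sc_spec` at `x` and `f x`):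
`Σ_l c_ijl a r l = Σ_{p,q} a p i a q j c'_pqr`, i.e. `Intw a (sc X x) (sc X' (f x))`.
-/

open scoped Manifold ContDiff Topology BigOperators
open Set Metric Filter

namespace Pool.Agent.HOG

open Pool.Agent.HOA

noncomputable section

variable {E : Type} [NormedAddCommGroup E] [NormedSpace ℂ E] [FiniteDimensional ℂ E]
variable {M : Type} [TopologicalSpace M] [T2Space M] [CompactSpace M] [ChartedSpace E M]
  [IsManifold 𝓘(ℂ, E) ω M]

private theorem hol_comb {n : ℕ} {X : Fin n → (x : M) → TangentSpace 𝓘(ℂ, E) x} {x : M}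
    (hX : ∀ p, HolAt (X p) x) (s : Finset (Fin n)) (a : Fin n → ℂ) :
    HolAt (fun z => ∑ p ∈ s, a p • X p z) x := by
  unfold HolAt
  refine ContMDiffAt.sum_section (t := fun p z => a p • X p z) fun p _ => ?_
  exact (hX p).const_smul_section

private theorem md_of {X : (x : M) → TangentSpace 𝓘(ℂ, E) x} {x : M} (hX : HolAt X x) :
    MDifferentiableAt 𝓘(ℂ, E) (𝓘(ℂ, E)).tangent
      (fun y => (⟨y, X y⟩ : TangentBundle 𝓘(ℂ, E) M)) x :=
  ContMDiffAt.mdifferentiableAt hX (by simp)

private theorem br_left {n : ℕ} {X : Fin n → (x : M) → TangentSpace 𝓘(ℂ, E) x} {x : M}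
    (hX : ∀ p, HolAt (X p) x) (Y : (x : M) → TangentSpace 𝓘(ℂ, E) x)
    (a : Fin n → ℂ) (s : Finset (Fin n)) :
    VectorField.mlieBracket 𝓘(ℂ, E) (fun z => ∑ p ∈ s, a p • X p z) Y x =
      ∑ p ∈ s, a p • VectorField.mlieBracket 𝓘(ℂ, E) (X p) Y x := by
  classical
  have hcs : CompleteSpace E := FiniteDimensional.complete ℂ E
  have hm2 : IsManifold 𝓘(ℂ, E) 2 M := IsManifold.of_le (n := ω) le_top
  induction s using Finset.induction_on with
  | empty =>
    simp only [Finset.sum_empty]
    exact congrFun (VectorField.mlieBracket_zero_left (I := 𝓘(ℂ, E)) (W := Y)) x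
  | insert p s hp ih =>
    rw [Finset.sum_insert hp, ← ih]
    have e1 : (fun z => ∑ q ∈ insert p s, a q • X q z) = (a p • X p) + (fun z => ∑ q ∈ s, a q • X q z) := by
      funext z
      rw [Finset.sum_insert hp]
      rfl
    rw [e1, VectorField.mlieBracket_add_left (md_of (X := a p • X p) (hX p).const_smul_section)
      (md_of (hol_comb hX s a)), VectorField.mlieBracket_const_smul_left (md_of (hX p))]

private theorem br_both {n : ℕ} {X : Fin n → (x : M) → TangentSpace 𝓘(ℂ, E) x} {x : M}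
    (hX : ∀ p, HolAt (X p) x) (a b : Fin n → ℂ) :
    VectorField.mlieBracket 𝓘(ℂ, E) (fun z => ∑ p, a p • X p z) (fun z => ∑ q, b q • X q z) x =
      ∑ p, ∑ q, (a p * b q) • VectorField.mlieBracket 𝓘(ℂ, E) (X p) (X q) x := by
  rw [br_left hX]
  refine Finset.sum_congr rfl fun p _ => ?_
  rw [VectorField.mlieBracket_swap_apply, br_left hX, ← Finset.sum_neg_distrib, Finset.smul_sum]
  refine Finset.sum_congr rfl fun q _ => ?_
  rw [mul_smul, ← smul_neg, ← VectorField.mlieBracket_swap_apply]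

private theorem rep_at (X : (x : M) → TangentSpace 𝓘(ℂ, E) x) {e : OpenPartialHomeomorph M E} {y : M}
    (hy : y ∈ e.source) : rep e X (e y) = lc e y (X y) := by
  have h : e.symm (e y) = y := e.left_inv hy
  exact congrArg (fun p : M => (lc e p (X p) : E)) h

private theorem lc_fmul {n : ℕ} (e : OpenPartialHomeomorph M E) (y : M)
    (v : Fin n → TangentSpace 𝓘(ℂ, E) y) (g : Matrix (Fin n) (Fin n) ℂ) (i : Fin n) :
    lc e y (fmul v g i) = ∑ j, g j i • lc e y (v j) := by
  unfold lc fmul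
  rw [map_sum]
  refine Finset.sum_congr rfl fun j _ => ?_
  rw [map_smul]
  rfl

/-- two continuous data which satisfy a linear relation at points arbitrarily near satisfy it -/
private theorem rel_const {n : ℕ} {x : M} {u w : Fin n → M → E} (hu : ∀ i, ContinuousAt (u i) x)
    (hw : ∀ i, ContinuousAt (w i) x) {S : Set (Matrix (Fin n) (Fin n) ℂ)} (hS : S.Finite)
    {b : M → Matrix (Fin n) (Fin n) ℂ} (hb : ∀ᶠ y in 𝓝 x, b y ∈ S ∧ ∀ i, u i y = ∑ j, b y j i • w j y)
    (hx : ∀ g ∈ S, (∀ i, u i x = ∑ j, g j i • w j x) → g = b x) : ∀ᶠ y in 𝓝 x, b y = b x := by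
  have h1 : ∀ g ∈ S, ∀ᶠ y in 𝓝 x, g ≠ b x → ¬ ∀ i, u i y = ∑ j, g j i • w j y := by
    intro g hg
    by_cases hgb : g = b x
    · exact Filter.Eventually.of_forall fun y h => absurd hgb h
    · have h2 : ¬ ∀ i, u i x = ∑ j, g j i • w j x := fun h => hgb (hx g hg h)
      push Not at h2
      obtain ⟨i, hi⟩ := h2
      have h3 : ContinuousAt (fun y => ∑ j, g j i • w j y) x := by
        refine tendsto_finsetSum _ fun j _ => ?_
        exact (hw j).const_smul _
      have h4 : ContinuousAt (fun y => u i y - ∑ j, g j i • w j y) x := (hu i).sub h3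
      have h5 : ∀ᶠ y in 𝓝 x, u i y - ∑ j, g j i • w j y ≠ 0 := h4.eventually_ne (sub_ne_zero.2 hi)
      filter_upwards [h5] with y hy _ hall
      exact hy (sub_eq_zero.2 (hall i))
  have h2 : ∀ᶠ y in 𝓝 x, ∀ g ∈ S, g ≠ b x → ¬ ∀ i, u i y = ∑ j, g j i • w j y :=
    (Filter.eventually_all_finite hS).2 h1
  filter_upwards [h2, hb] with y hy hby
  by_contra hne
  exact hy (b y) hby.1 hne hby.2

private theorem comp_eq {n : ℕ} {V : Type} [AddCommGroup V] [Module ℂ V] {v : Fin n → V}
    (hv : LinearIndependent ℂ v) {s t : Fin n → ℂ} (h : ∑ i, s i • v i = ∑ i, t i • v i) : s = t := by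
  rw [← coord_eq hv s, h, coord_eq hv t]

theorem push_frame (f : Diffeomorph 𝓘(ℂ, E) 𝓘(ℂ, E) M M ω) {n k L : ℕ} (hk : 1 ≤ k)
    (hn : Module.finrank ℂ E = n) {τ : Fin L → HT E M k} {F : Ix n k L → ℂ} (hF : Reg F)
    {A : Matrix (Fin L) (Fin L) ℂ}
    (hA : ∀ (l : Fin L) (x : M) (w : Fin k → TangentSpace 𝓘(ℂ, E) x),
      (τ l).1 (f x) (fun a => mfderiv 𝓘(ℂ, E) 𝓘(ℂ, E) f x (w a)) = ∑ l', A l l' * (τ l').1 x w)
    {x : M} {X X' : Fin n → (x : M) → TangentSpace 𝓘(ℂ, E) x} (hX : IsLF τ F X x)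
    (hX' : IsLF τ F X' (f x)) :
    ∃ a : Matrix (Fin n) (Fin n) ℂ,
      (∀ i, mfderiv 𝓘(ℂ, E) 𝓘(ℂ, E) f x (X i x) = fmul (fun j => X' j (f x)) a i) ∧
      act a F = (fun p => ∑ l', A p.2 l' * F (p.1, l')) ∧
      Intw a (sc X x) (sc X' (f x)) := by
  classical
  have hfc : ContinuousAt f x := f.continuous.continuousAt
  set Ψ : Ix n k L → ℂ := fun p => ∑ l', A p.2 l' * F (p.1, l') with hΨ
  have hX1 : ∀ᶠ y in 𝓝 x, (∀ i, HolAt (X i) y) ∧ tup τ y (fun i => X i y) = F := hX
  have hX2 : ∀ᶠ y in 𝓝 x, (∀ i, HolAt (X' i) (f y)) ∧ tup τ (f y) (fun i => X' i (f y)) = F :=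
    hfc.eventually hX'
  -- the matrix
  have hex : ∀ y : M, tup τ y (fun i => X i y) = F → tup τ (f y) (fun i => X' i (f y)) = F →
      ∃ g : Matrix (Fin n) (Fin n) ℂ,
        (fun i => mfderiv 𝓘(ℂ, E) 𝓘(ℂ, E) f y (X i y)) = fmul (fun j => X' j (f y)) g ∧ act g F = Ψ := by
    intro y h1 h2
    have h3 : LinearIndependent ℂ (fun j => X' j (f y)) := tup_indep hk (by rw [h2]; exact hF)
    obtain ⟨g, hg, -⟩ := exists_fmul hn h3 (fun i => mfderiv 𝓘(ℂ, E) 𝓘(ℂ, E) f y (X i y))
    refine ⟨g, hg, ?_⟩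
    have h4 : tup τ (f y) (fun i => mfderiv 𝓘(ℂ, E) 𝓘(ℂ, E) f y (X i y)) = act g F := by
      rw [hg, tup_fmul, h2]
    rw [← h4]
    funext p
    show (τ p.2).1 (f y) (fun a => mfderiv 𝓘(ℂ, E) 𝓘(ℂ, E) f y (X (p.1 a) y)) = Ψ p
    rw [hA p.2 y (fun a => X (p.1 a) y)]
    show ∑ l', A p.2 l' * (τ l').1 y (fun a => X (p.1 a) y) = ∑ l', A p.2 l' * F (p.1, l')
    refine Finset.sum_congr rfl fun l' _ => ?_
    rw [← h1]
    rfl
  let b : M → Matrix (Fin n) (Fin n) ℂ := fun y =>
    if h : tup τ y (fun i => X i y) = F ∧ tup τ (f y) (fun i => X' i (f y)) = F then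
      (hex y h.1 h.2).choose else 0
  have hb : ∀ y : M, tup τ y (fun i => X i y) = F → tup τ (f y) (fun i => X' i (f y)) = F →
      (fun i => mfderiv 𝓘(ℂ, E) 𝓘(ℂ, E) f y (X i y)) = fmul (fun j => X' j (f y)) (b y) ∧ act (b y) F = Ψ := by
    intro y h1 h2
    have h3 : b y = (hex y h1 h2).choose := dif_pos ⟨h1, h2⟩
    rw [h3]
    exact (hex y h1 h2).choose_spec
  have hxx := hX1.self_of_nhds
  have hxx' := hX2.self_of_nhds
  have hbx := hb x hxx.2 hxx'.2
  have hind : LinearIndependent ℂ (fun j => X' j (f x)) := tup_indep hk (by rw [hxx'.2]; exact hF)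
  -- constancy
  have he : chartAt E x ∈ atlas E M := chart_mem_atlas E x
  have he' : chartAt E (f x) ∈ atlas E M := chart_mem_atlas E (f x)
  have hxe : x ∈ (chartAt E x).source := mem_chart_source E x
  have hxe' : f x ∈ (chartAt E (f x)).source := mem_chart_source E (f x)
  have hconst : ∀ᶠ y in 𝓝 x, b y = b x := by
    refine rel_const (u := fun i y => fderiv ℂ (lmap (chartAt E x) f (chartAt E (f x))) (chartAt E x y)
        (rep (chartAt E x) (X i) (chartAt E x y)))
      (w := fun j y => rep (chartAt E (f x)) (X' j) (chartAt E (f x) (f y))) ?_ ?_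
      (finite_solutions hk hF Ψ) ?_ ?_
    · intro i
      have h1 : AnalyticAt ℂ (lmap (chartAt E x) f (chartAt E (f x))) (chartAt E x x) :=
        lmap_analytic f.contMDiff he he' ((chartAt E x).map_source hxe)
          (by rw [(chartAt E x).left_inv hxe]; exact hxe')
      have h2 : ContinuousAt (fun z => fderiv ℂ (lmap (chartAt E x) f (chartAt E (f x))) z
          (rep (chartAt E x) (X i) z)) (chartAt E x x) :=
        h1.fderiv.continuousAt.clm_apply (rep_analyticAt (hxx.1 i) he hxe).continuousAt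
      exact h2.comp ((chartAt E x).continuousAt hxe)
    · intro j
      have h1 := (rep_analyticAt (hxx'.1 j) he' hxe').continuousAt
      have h2 : ContinuousAt (fun y => chartAt E (f x) (f y)) x :=
        ((chartAt E (f x)).continuousAt hxe').comp hfc
      exact ContinuousAt.comp (f := fun y => chartAt E (f x) (f y)) h1 h2
    · filter_upwards [hX1, hX2, (chartAt E x).open_source.mem_nhds hxe,
        hfc.preimage_mem_nhds ((chartAt E (f x)).open_source.mem_nhds hxe')] with y h1 h2 h3 h4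
      have h5 := hb y h1.2 h2.2
      refine ⟨h5.2, fun i => ?_⟩
      have h6 := lc_mfderiv f.contMDiff he he' h3 h4 (X i y)
      have h7 := congrFun h5.1 i
      have h8 : mfderiv 𝓘(ℂ, E) 𝓘(ℂ, E) f y (X i y) = fmul (fun j => X' j (f y)) (b y) i := h7
      rw [h8, lc_fmul] at h6
      show fderiv ℂ (lmap (chartAt E x) f (chartAt E (f x))) (chartAt E x y)
        (rep (chartAt E x) (X i) (chartAt E x y)) = ∑ j, b y j i • rep (chartAt E (f x)) (X' j) (chartAt E (f x) (f y))
      rw [rep_at (X i) h3, ← h6]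
      refine Finset.sum_congr rfl fun j _ => ?_
      rw [rep_at (X' j) h4]
    · intro g _ hg
      have h1 : fmul (fun j => X' j (f x)) g = fmul (fun j => X' j (f x)) (b x) := by
        rw [← hbx.1]
        funext i
        apply lc_injective he' hxe'
        have h2 := hg i
        have h3 := lc_mfderiv f.contMDiff he he' hxe hxe' (X i x)
        rw [lc_fmul]
        refine Eq.trans ?_ h3.symm
        rw [← rep_at (X i) hxe]
        refine Eq.trans ?_ h2.symm
        refine Finset.sum_congr rfl fun j _ => ?_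
        rw [rep_at (X' j) hxe']
      exact fmul_inj hind h1
  refine ⟨b x, fun i => congrFun hbx.1 i, hbx.2, ?_⟩
  -- brackets
  have hrel : ∀ i, ∀ᶠ y in 𝓝 x, mfderiv 𝓘(ℂ, E) 𝓘(ℂ, E) f y (X i y) =
      (fun z => ∑ p, b x p i • X' p z) (f y) := by
    intro i
    filter_upwards [hX1, hX2, hconst] with y h1 h2 h3
    have h4 := congrFun (hb y h1.2 h2.2).1 i
    rw [h3] at h4
    exact h4
  have hbr : ∀ i j, mfderiv 𝓘(ℂ, E) 𝓘(ℂ, E) f x (VectorField.mlieBracket 𝓘(ℂ, E) (X i) (X j) x) =
      ∑ p, ∑ q, (b x p i * b x q j) • VectorField.mlieBracket 𝓘(ℂ, E) (X' p) (X' q) (f x) := by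
    intro i j
    rw [push_bracketAt f (hxx.1 i) (hxx.1 j) (hol_comb hxx'.1 Finset.univ fun p => b x p i)
      (hol_comb hxx'.1 Finset.univ fun p => b x p j) (hrel i) (hrel j),
      br_both hxx'.1 (fun p => b x p i) (fun p => b x p j)]
  have hs := (sc_spec hk hn hF hX).self_of_nhds
  have hs' := (sc_spec hk hn hF hX').self_of_nhds
  have hcmp : ∀ i j r, ∑ l, sc X x i j l * b x r l =
      ∑ p, ∑ q, b x p i * b x q j * sc X' (f x) p q r := by
    intro i j
    have h1 := hbr i j
    rw [hs i j, map_sum] at h1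
    have h2 : ∀ l, mfderiv 𝓘(ℂ, E) 𝓘(ℂ, E) f x (sc X x i j l • X l x) =
        ∑ r, (sc X x i j l * b x r l) • X' r (f x) := by
      intro l
      rw [map_smul, congrFun hbx.1 l]
      unfold fmul
      rw [Finset.smul_sum]
      refine Finset.sum_congr rfl fun r _ => ?_
      rw [mul_smul]
    rw [Finset.sum_congr rfl fun l _ => h2 l, Finset.sum_comm] at h1
    have h3 : ∑ r, (∑ l, sc X x i j l * b x r l) • X' r (f x) =
        ∑ r, (∑ p, ∑ q, b x p i * b x q j * sc X' (f x) p q r) • X' r (f x) := by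
      calc ∑ r, (∑ l, sc X x i j l * b x r l) • X' r (f x)
          = ∑ r, ∑ l, (sc X x i j l * b x r l) • X' r (f x) :=
            Finset.sum_congr rfl fun r _ => Finset.sum_smul
        _ = ∑ p, ∑ q, (b x p i * b x q j) • VectorField.mlieBracket 𝓘(ℂ, E) (X' p) (X' q) (f x) := h1
        _ = ∑ p, ∑ q, ∑ r, (b x p i * b x q j * sc X' (f x) p q r) • X' r (f x) := by
            refine Finset.sum_congr rfl fun p _ => Finset.sum_congr rfl fun q _ => ?_
            rw [hs' p q, Finset.smul_sum]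
            refine Finset.sum_congr rfl fun r _ => ?_
            rw [← mul_smul]
        _ = ∑ r, ∑ p, ∑ q, (b x p i * b x q j * sc X' (f x) p q r) • X' r (f x) := by
            rw [Finset.sum_comm]
            calc ∑ q, ∑ p, ∑ r, (b x p i * b x q j * sc X' (f x) p q r) • X' r (f x)
                = ∑ q, ∑ r, ∑ p, (b x p i * b x q j * sc X' (f x) p q r) • X' r (f x) :=
                  Finset.sum_congr rfl fun q _ => Finset.sum_comm
              _ = ∑ r, ∑ q, ∑ p, (b x p i * b x q j * sc X' (f x) p q r) • X' r (f x) := Finset.sum_comm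
              _ = _ := Finset.sum_congr rfl fun r _ => Finset.sum_comm
        _ = ∑ r, (∑ p, ∑ q, b x p i * b x q j * sc X' (f x) p q r) • X' r (f x) := by
            refine Finset.sum_congr rfl fun r _ => ?_
            rw [Finset.sum_smul]
            refine Finset.sum_congr rfl fun p _ => ?_
            rw [Finset.sum_smul]
    exact fun r => congrFun (comp_eq hind h3) r
  intro u v
  funext r
  have e1 : (b x).mulVec (brc (sc X x) u v) r = ∑ i, ∑ j, u i * v j * ∑ l, sc X x i j l * b x r l := by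
    show ∑ l, b x r l * ∑ i, ∑ j, u i * v j * sc X x i j l = _
    simp only [Finset.mul_sum]
    rw [Finset.sum_comm]
    refine Finset.sum_congr rfl fun i _ => ?_
    rw [Finset.sum_comm]
    refine Finset.sum_congr rfl fun j _ => Finset.sum_congr rfl fun l _ => ?_
    ring
  have e2 : brc (sc X' (f x)) ((b x).mulVec u) ((b x).mulVec v) r =
      ∑ i, ∑ j, u i * v j * ∑ p, ∑ q, b x p i * b x q j * sc X' (f x) p q r := by
    show ∑ p, ∑ q, (∑ i, b x p i * u i) * (∑ j, b x q j * v j) * sc X' (f x) p q r = _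
    simp only [Finset.mul_sum, Finset.sum_mul]
    calc ∑ p, ∑ q, ∑ j, ∑ i, b x p i * u i * (b x q j * v j) * sc X' (f x) p q r
        = ∑ p, ∑ q, ∑ i, ∑ j, b x p i * u i * (b x q j * v j) * sc X' (f x) p q r :=
          Finset.sum_congr rfl fun p _ => Finset.sum_congr rfl fun q _ => Finset.sum_comm
      _ = ∑ p, ∑ i, ∑ q, ∑ j, b x p i * u i * (b x q j * v j) * sc X' (f x) p q r :=
          Finset.sum_congr rfl fun p _ => Finset.sum_comm
      _ = ∑ i, ∑ p, ∑ q, ∑ j, b x p i * u i * (b x q j * v j) * sc X' (f x) p q r := Finset.sum_comm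
      _ = ∑ i, ∑ p, ∑ j, ∑ q, b x p i * u i * (b x q j * v j) * sc X' (f x) p q r :=
          Finset.sum_congr rfl fun i _ => Finset.sum_congr rfl fun p _ => Finset.sum_comm
      _ = ∑ i, ∑ j, ∑ p, ∑ q, b x p i * u i * (b x q j * v j) * sc X' (f x) p q r :=
          Finset.sum_congr rfl fun i _ => Finset.sum_comm
      _ = _ := by
          refine Finset.sum_congr rfl fun i _ => Finset.sum_congr rfl fun j _ =>
            Finset.sum_congr rfl fun p _ => Finset.sum_congr rfl fun q _ => ?_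
          ring
  rw [e1, e2]
  exact Finset.sum_congr rfl fun i _ => Finset.sum_congr rfl fun j _ => by rw [hcmp i j r]

end

end Pool.Agent.HOG
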