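import Pool.Agent.HOG.Act

/-!
# HOG/FinA: homogeneous polynomials without common zero: the polynomial ring is integral over them

PLAN.  Let `p i`, `i ∈ ι`, be homogeneous of degree `k ≥ 1` in finitely many variables `σ` with only
common zero `0`.  By the Nullstellensatz (`MvPolynomial.vanishingIdeal_zeroLocus_eq_radical`) each
variable `X s` has a power `X s ^ D` in the ideal generated by the `p i`; so there is `N` such that
every homogeneous polynomial of degree `≥ N` is in that ideal.  Taking homogeneous components, a
homogeneous polynomial `q` of degree `d ≥ N`, `d ≥ k`, is `Σ a_i p_i` with `a_i` homogeneous of degree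
`d - k`.  By induction on the degree, the polynomial ring is spanned as a module over the subring
`ℂ[p_i]` by the monomials of degree `< N`, a finite set: so it is a finite module, hence integral
(`RingHom.Finite.to_isIntegral`, `Algebra.IsIntegral.of_finite`).
-/

open scoped BigOperators Topology
open Filter Set

namespace Pool.Agent.HOG

noncomputable section

private theorem exists_pow_mem {σ ι : Type} [Finite σ] (p : ι → MvPolynomial σ ℂ)
    (h0 : ∀ x : σ → ℂ, (∀ i, MvPolynomial.eval x (p i) = 0) → x = 0) (s : σ) :
    ∃ n : ℕ, (MvPolynomial.X s : MvPolynomial σ ℂ) ^ n ∈ Ideal.span (Set.range p) := by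
  have h1 : (MvPolynomial.X s : MvPolynomial σ ℂ) ∈ MvPolynomial.vanishingIdeal ℂ
      (MvPolynomial.zeroLocus ℂ (Ideal.span (Set.range p))) := by
    rw [MvPolynomial.mem_vanishingIdeal_iff]
    intro x hx
    have hx0 : x = 0 := by
      refine h0 x fun i => ?_
      have := hx (p i) (Ideal.subset_span ⟨i, rfl⟩)
      rwa [MvPolynomial.aeval_eq_eval] at this
    rw [hx0]
    simp
  rw [MvPolynomial.vanishingIdeal_zeroLocus_eq_radical] at h1
  exact Ideal.mem_radical_iff.1 h1

theorem isIntegral_of_no_zero {σ ι : Type} [Finite σ] [Finite ι] {k : ℕ} (hk : 1 ≤ k)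
    (p : ι → MvPolynomial σ ℂ) (hp : ∀ i, (p i).IsHomogeneous k)
    (h0 : ∀ x : σ → ℂ, (∀ i, MvPolynomial.eval x (p i) = 0) → x = 0) :
    (MvPolynomial.aeval p : MvPolynomial ι ℂ →ₐ[ℂ] MvPolynomial σ ℂ).toRingHom.IsIntegral := by
  classical
  have _ : Fintype ι := Fintype.ofFinite ι
  choose n hn using exists_pow_mem p h0
  set c : σ →₀ ℕ := Finsupp.equivFunOnFinite.symm n with hc
  have hcs : ∀ s, c s = n s := fun s => rfl
  refine RingHom.Finite.to_isIntegral ?_
  letI alg : Algebra (MvPolynomial ι ℂ) (MvPolynomial σ ℂ) :=
    (MvPolynomial.aeval p : MvPolynomial ι ℂ →ₐ[ℂ] MvPolynomial σ ℂ).toRingHom.toAlgebra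
  show Module.Finite (MvPolynomial ι ℂ) (MvPolynomial σ ℂ)
  have hsmul : ∀ (a : MvPolynomial ι ℂ) (b : MvPolynomial σ ℂ), a • b = MvPolynomial.aeval p a * b :=
    fun a b => rfl
  set S : Set (MvPolynomial σ ℂ) := (fun m => MvPolynomial.monomial m (1 : ℂ)) '' (Set.Icc (0 : σ →₀ ℕ) c)
    with hS
  have hSfin : S.Finite := (Set.finite_Icc _ _).image _
  -- homogeneous polynomials
  have hhom : ∀ (j : ℕ) (b : MvPolynomial σ ℂ), b.IsHomogeneous j →
      (∀ m : σ →₀ ℕ, m.degree = j → MvPolynomial.monomial m (1 : ℂ) ∈
        Submodule.span (MvPolynomial ι ℂ) S) → b ∈ Submodule.span (MvPolynomial ι ℂ) S := by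
    intro j b hb h
    rw [← MvPolynomial.support_sum_monomial_coeff b]
    refine Submodule.sum_mem _ fun m hm => ?_
    have hdeg : m.degree = j := by
      by_contra hne
      exact (MvPolynomial.mem_support_iff.1 hm) (hb.coeff_eq_zero hne)
    have e : MvPolynomial.monomial m (MvPolynomial.coeff m b) =
        (MvPolynomial.C (MvPolynomial.coeff m b) : MvPolynomial ι ℂ) • MvPolynomial.monomial m (1 : ℂ) := by
      rw [hsmul, MvPolynomial.algHom_C, MvPolynomial.algebraMap_eq, MvPolynomial.C_mul_monomial, mul_one]
    rw [e]
    exact Submodule.smul_mem _ _ (h m hdeg)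
  have main : ∀ (d : ℕ) (m : σ →₀ ℕ), m.degree = d → MvPolynomial.monomial m (1 : ℂ) ∈
      Submodule.span (MvPolynomial ι ℂ) S := by
    intro d
    induction d using Nat.strong_induction_on with
    | _ d ih =>
      intro m hm
      by_cases hmc : m ≤ c
      · exact Submodule.subset_span ⟨m, ⟨zero_le, hmc⟩, rfl⟩
      · obtain ⟨s, hs⟩ : ∃ s, ¬ m s ≤ c s := by
          by_contra hcon
          push Not at hcon
          exact hmc fun s => hcon s
        rw [hcs, not_le] at hs
        have hI : MvPolynomial.monomial m (1 : ℂ) ∈ Ideal.span (Set.range p) := by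
          have e : MvPolynomial.monomial m (1 : ℂ) =
              MvPolynomial.monomial (m - Finsupp.single s (n s)) 1 * MvPolynomial.X s ^ n s := by
            rw [MvPolynomial.X_pow_eq_monomial, MvPolynomial.monomial_mul, mul_one]
            congr 1
            rw [tsub_add_cancel_of_le]
            rw [Finsupp.single_le_iff]
            exact hs.le
          rw [e]
          exact Ideal.mul_mem_left _ _ (hn s)
        obtain ⟨a, ha⟩ := Ideal.mem_span_range_iff_exists_fun.1 hI
        have hmh : (MvPolynomial.monomial m (1 : ℂ)).IsHomogeneous d :=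
          MvPolynomial.isHomogeneous_monomial 1 hm
        have e1 : MvPolynomial.monomial m (1 : ℂ) =
            ∑ i, MvPolynomial.homogeneousComponent d (a i * p i) := by
          rw [← map_sum, ha, MvPolynomial.homogeneousComponent_eq_self hmh]
        rw [e1]
        refine Submodule.sum_mem _ fun i _ => ?_
        have e2 : MvPolynomial.homogeneousComponent d (a i * p i) =
            ∑ j ∈ Finset.range ((a i).totalDegree + 1),
              MvPolynomial.homogeneousComponent d (MvPolynomial.homogeneousComponent j (a i) * p i) := by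
          rw [← map_sum, ← Finset.sum_mul, MvPolynomial.sum_homogeneousComponent]
        rw [e2]
        refine Submodule.sum_mem _ fun j _ => ?_
        have hjk : (MvPolynomial.homogeneousComponent j (a i) * p i).IsHomogeneous (j + k) :=
          (MvPolynomial.homogeneousComponent_isHomogeneous j (a i)).mul (hp i)
        rw [MvPolynomial.homogeneousComponent_of_mem hjk]
        split_ifs with hd
        · have e3 : MvPolynomial.homogeneousComponent j (a i) * p i =
              (MvPolynomial.X i : MvPolynomial ι ℂ) • MvPolynomial.homogeneousComponent j (a i) := by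
            rw [hsmul, MvPolynomial.aeval_X, mul_comm]
          rw [e3]
          refine Submodule.smul_mem _ _ (hhom j _ (MvPolynomial.homogeneousComponent_isHomogeneous j (a i))
            (ih j (by omega)))
        · exact Submodule.zero_mem _
  refine ⟨⟨hSfin.toFinset, ?_⟩⟩
  rw [Set.Finite.coe_toFinset, eq_top_iff]
  intro b _
  rw [← MvPolynomial.sum_homogeneousComponent b]
  exact Submodule.sum_mem _ fun j _ => hhom j _ (MvPolynomial.homogeneousComponent_isHomogeneous j b) (main j)

end

end Pool.Agent.HOG
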