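import Pool.Agent.HOG.TAlg
import Pool.Agent.HOA.FD
import Pool.Agent.HOA.Loc
import Pool.Agent.HOA.LBd
import Pool.Agent.HOA.Cov

/-!
# HOG/HTf: the space of holomorphic covariant tensors is finite dimensional; pull-back
-/

open scoped Manifold ContDiff Topology BigOperators
open Set Metric Filter

namespace Pool.Agent.HOG

open Pool.Agent.HOA

noncomputable section

variable {E : Type} [NormedAddCommGroup E] [NormedSpace ℂ E] [FiniteDimensional ℂ E]
variable {M : Type} [TopologicalSpace M] [T2Space M] [CompactSpace M] [ChartedSpace E M]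
  [IsManifold 𝓘(ℂ, E) ω M]

omit [FiniteDimensional ℂ E] [T2Space M] [CompactSpace M] [IsManifold 𝓘(ℂ, E) ω M] in
private theorem ilc_add' (e : OpenPartialHomeomorph M E) (z v w : E) :
    ilc e z (v + w) = ilc e z v + ilc e z w :=
  map_add (mfderiv 𝓘(ℂ, E) 𝓘(ℂ, E) e.symm z) _ _

omit [FiniteDimensional ℂ E] [T2Space M] [CompactSpace M] [IsManifold 𝓘(ℂ, E) ω M] in
private theorem ilc_smul' (e : OpenPartialHomeomorph M E) (z : E) (a : ℂ) (w : E) :
    ilc e z (a • w) = a • ilc e z w :=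
  map_smul (mfderiv 𝓘(ℂ, E) 𝓘(ℂ, E) e.symm z) _ _

/-- `ilc` as a linear map -/
private def ilcL (e : OpenPartialHomeomorph M E) (z : E) :
    E →ₗ[ℂ] TangentSpace 𝓘(ℂ, E) (e.symm z) where
  toFun := ilc e z
  map_add' := ilc_add' e z
  map_smul' := ilc_smul' e z

/-- the local expression of a tensor at a point -/
private def lM {k : ℕ} (τ : (x : M) → MultilinearMap ℂ (fun _ : Fin k => TangentSpace 𝓘(ℂ, E) x) ℂ)
    (e : OpenPartialHomeomorph M E) (z : E) : MultilinearMap ℂ (fun _ : Fin k => E) ℂ :=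
  (τ (e.symm z)).compLinearMap (fun _ => ilcL e z)

omit [FiniteDimensional ℂ E] [T2Space M] [CompactSpace M] [IsManifold 𝓘(ℂ, E) ω M] in
private theorem lM_apply {k : ℕ}
    (τ : (x : M) → MultilinearMap ℂ (fun _ : Fin k => TangentSpace 𝓘(ℂ, E) x) ℂ)
    (e : OpenPartialHomeomorph M E) (z : E) (w : Fin k → E) :
    lM τ e z w = τ (e.symm z) (fun a => ilc e z (w a)) := rfl

private theorem ten_eq {k : ℕ}
    (τ : (x : M) → MultilinearMap ℂ (fun _ : Fin k => TangentSpace 𝓘(ℂ, E) x) ℂ)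
    {e : OpenPartialHomeomorph M E} (he : e ∈ atlas E M) {y : M} (hy : y ∈ e.source)
    (ξ : Fin k → TangentSpace 𝓘(ℂ, E) y) : τ y ξ = lM τ e (e y) (fun a => lc e y (ξ a)) := by
  have key : ∀ (z : E) (_ : z ∈ e.target) (y : M) (_ : e.symm z = y)
      (ξ : Fin k → TangentSpace 𝓘(ℂ, E) y),
      τ y ξ = τ (e.symm z) (fun a => ilc e z (lc e y (ξ a))) := by
    intro z hz y h ξ
    subst h
    refine congrArg (τ (e.symm z)) ?_
    funext a
    exact (ilc_lc he hz _).symm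
  exact key (e y) (e.map_source hy) y (e.left_inv hy) ξ

private theorem pull_eq {k : ℕ}
    (τ : (x : M) → MultilinearMap ℂ (fun _ : Fin k => TangentSpace 𝓘(ℂ, E) x) ℂ)
    {g : M → M} (hg : ContMDiff 𝓘(ℂ, E) 𝓘(ℂ, E) ω g)
    {e e' : OpenPartialHomeomorph M E} (he : e ∈ atlas E M) (he' : e' ∈ atlas E M)
    {z : E} (hz : z ∈ e.target) (hz' : g (e.symm z) ∈ e'.source) (w : Fin k → E) :
    τ (g (e.symm z)) (fun a => mfderiv 𝓘(ℂ, E) 𝓘(ℂ, E) g (e.symm z) (ilc e z (w a))) =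
      lM τ e' (lmap e g e' z) (fun a => fderiv ℂ (lmap e g e') z (w a)) := by
  rw [ten_eq τ he' hz']
  show lM τ e' (lmap e g e' z) _ = _
  refine congrArg (lM τ e' (lmap e g e' z)) ?_
  funext a
  have h1 := lc_mfderiv hg he he' (e.map_target hz) hz' (ilc e z (w a))
  rw [lc_ilc he hz, e.right_inv hz] at h1
  exact h1

private theorem change_eq {k : ℕ}
    (τ : (x : M) → MultilinearMap ℂ (fun _ : Fin k => TangentSpace 𝓘(ℂ, E) x) ℂ)
    {e e' : OpenPartialHomeomorph M E} (he : e ∈ atlas E M) (he' : e' ∈ atlas E M)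
    {z : E} (hz : z ∈ e.target) (hz' : e.symm z ∈ e'.source) (w : Fin k → E) :
    lM τ e z w = lM τ e' (e' (e.symm z)) (fun a => fderiv ℂ (lmap e id e') z (w a)) := by
  have h := pull_eq τ (g := (id : M → M)) contMDiff_id he he' hz hz' w
  have h1 : ∀ v : TangentSpace 𝓘(ℂ, E) (e.symm z),
      mfderiv 𝓘(ℂ, E) 𝓘(ℂ, E) (id : M → M) (e.symm z) v = v := by
    intro v
    rw [mfderiv_id]
    rfl
  have h2 : (fun a => mfderiv 𝓘(ℂ, E) 𝓘(ℂ, E) (id : M → M) (e.symm z) (ilc e z (w a))) =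
      fun a => ilc e z (w a) := by
    funext a
    exact h1 _
  rw [h2] at h
  exact h

omit [FiniteDimensional ℂ E] in
/-- expansion of a multilinear map in a basis -/
private theorem expand {k n : ℕ} (T : MultilinearMap ℂ (fun _ : Fin k => E) ℂ)
    (β : Module.Basis (Fin n) ℂ E) (w : Fin k → E) :
    T w = ∑ r : Fin k → Fin n, (∏ a, β.repr (w a) (r a)) * T (fun a => β (r a)) := by
  classical
  have h1 : w = fun a => ∑ b, β.repr (w a) b • β b := by
    funext a
    exact (β.sum_repr (w a)).symm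
  conv_lhs => rw [h1]
  rw [MultilinearMap.map_sum]
  refine Finset.sum_congr rfl fun r _ => ?_
  rw [MultilinearMap.map_smul_univ, smul_eq_mul]

/-- the local expressions as linear maps -/
private def gt {ι : Type} (G : GCover ι E M) (k : ℕ) {n : ℕ} (β : Module.Basis (Fin n) ℂ E) (i : ι) :
    HT E M k →ₗ[ℂ] (E → ((Fin k → Fin n) → ℂ)) where
  toFun τ := fun z j => lM τ.1 (G.e i) z (fun a => β (j a))
  map_add' τ τ' := by
    funext z j
    rfl
  map_smul' a τ := by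
    funext z j
    rfl

private theorem coord_bound {n : ℕ} (β : Module.Basis (Fin n) ℂ E) :
    ∃ K : ℝ, 0 ≤ K ∧ ∀ (v : E) (b : Fin n), ‖β.repr v b‖ ≤ K * ‖v‖ := by
  refine ⟨∑ b, ‖LinearMap.toContinuousLinearMap (β.coord b)‖,
    Finset.sum_nonneg fun _ _ => norm_nonneg _, fun v b => ?_⟩
  have h1 := (LinearMap.toContinuousLinearMap (β.coord b)).le_opNorm v
  have h2 : ‖LinearMap.toContinuousLinearMap (β.coord b)‖ ≤
      ∑ b, ‖LinearMap.toContinuousLinearMap (β.coord b)‖ :=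
    Finset.single_le_sum (f := fun b => ‖LinearMap.toContinuousLinearMap (β.coord b)‖)
      (fun _ _ => norm_nonneg _) (Finset.mem_univ b)
  exact h1.trans (mul_le_mul_of_nonneg_right h2 (norm_nonneg _))

variable (E M) in
theorem ht_finite (k : ℕ) : FiniteDimensional ℂ (HT E M k) := by
  obtain ⟨ι, hι, ⟨G⟩⟩ := exists_cover E M
  obtain ⟨C, hC, hb⟩ := lmap_bounds (Diffeomorph.refl 𝓘(ℂ, E) M ω) G
  have hsub : ∀ i, closedBall (G.c i) (2 * G.r i) ⊆ (G.e i).target := fun i =>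
    (closedBall_subset_closedBall (by nlinarith [G.pos i])).trans (G.sub i)
  obtain ⟨n, hn⟩ : ∃ n, n = Module.finrank ℂ E := ⟨_, rfl⟩
  subst hn
  obtain ⟨β, _⟩ : ∃ β : Module.Basis (Fin (Module.finrank ℂ E)) ℂ E, β = Module.finBasis ℂ E :=
    ⟨_, rfl⟩
  obtain ⟨K, hK, hKb⟩ := coord_bound β
  set B : ℝ := K * (C * ∑ b, ‖β b‖) with hB
  have hB0 : 0 ≤ B := mul_nonneg hK (mul_nonneg hC.le (Finset.sum_nonneg fun _ _ => norm_nonneg _))
  refine fd_abstract G.c G.r G.pos (gt G k β) ?_ ?_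
    ((Fintype.card (Fin k → Fin (Module.finrank ℂ E)) : ℝ) * B ^ k) ?_
  · intro i τ
    refine AnalyticOnNhd.pi fun j => ?_
    exact (τ.2 (G.e i) (G.mem i) (fun a => β (j a))).mono (hsub i)
  · intro τ hτ
    apply Subtype.ext
    funext x
    obtain ⟨i, hi, hi'⟩ := G.cov x
    have h1 : gt G k β i τ (G.e i x) = 0 := hτ i (G.e i x) (ball_subset_closedBall hi')
    have h2 : lM τ.1 (G.e i) (G.e i x) = 0 := by
      refine Module.Basis.ext_multilinear (fun _ => β) fun v => ?_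
      exact congrFun h1 v
    apply MultilinearMap.ext
    intro ξ
    rw [ten_eq τ.1 (G.mem i) hi, h2]
    rfl
  · intro i τ z hz
    have hz' := hsub i hz
    obtain ⟨x, hx⟩ : ∃ x, x = (G.e i).symm z := ⟨_, rfl⟩
    have hxi : x ∈ (G.e i).source := by
      rw [hx]
      exact (G.e i).map_target hz'
    have hxz : G.e i x = z := by
      rw [hx]
      exact (G.e i).right_inv hz'
    obtain ⟨j, hj, hj'⟩ := G.cov x
    refine ⟨j, G.e j x, ball_subset_closedBall hj', ?_⟩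
    have hj2 := hj
    rw [hx] at hj2
    obtain ⟨h4, _, _, _⟩ := hb i j x ⟨hxi, by
        show G.e i x ∈ closedBall (G.c i) (2 * G.r i)
        rw [hxz]
        exact hz⟩ ⟨hj, closedBall_subset_closedBall (by nlinarith [G.pos j])
      (ball_subset_closedBall hj')⟩
    rw [hxz] at h4
    have h5 : ∀ (b b' : Fin (Module.finrank ℂ E)),
        ‖β.repr (fderiv ℂ (lmap (G.e i) id (G.e j)) z (β b)) b'‖ ≤ B := by
      intro b b'
      refine (hKb _ _).trans ?_
      rw [hB]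
      refine mul_le_mul_of_nonneg_left ?_ hK
      refine (h4 (β b)).trans ?_
      refine mul_le_mul_of_nonneg_left ?_ hC.le
      exact Finset.single_le_sum (f := fun b => ‖β b‖) (fun _ _ => norm_nonneg _) (Finset.mem_univ b)
    refine (pi_norm_le_iff_of_nonneg (by positivity)).2 fun r => ?_
    show ‖lM τ.1 (G.e i) z (fun a => β (r a))‖ ≤ _
    rw [change_eq τ.1 (G.mem i) (G.mem j) hz' hj2, ← hx, expand _ β]
    refine (norm_sum_le _ _).trans ?_
    have h6 : ∀ s ∈ (Finset.univ : Finset (Fin k → Fin (Module.finrank ℂ E))),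
        ‖(∏ a, β.repr (fderiv ℂ (lmap (G.e i) id (G.e j)) z (β (r a))) (s a)) *
          lM τ.1 (G.e j) (G.e j x) (fun a => β (s a))‖ ≤ B ^ k * ‖gt G k β j τ (G.e j x)‖ := by
      intro s _
      rw [norm_mul]
      refine mul_le_mul ?_ ?_ (norm_nonneg _) (pow_nonneg hB0 k)
      · rw [norm_prod]
        calc ∏ a, ‖β.repr (fderiv ℂ (lmap (G.e i) id (G.e j)) z (β (r a))) (s a)‖
            ≤ ∏ _a : Fin k, B := Finset.prod_le_prod (fun _ _ => norm_nonneg _) fun a _ => h5 _ _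
          _ = B ^ k := by rw [Finset.prod_const, Finset.card_univ, Fintype.card_fin]
      · exact norm_le_pi_norm (gt G k β j τ (G.e j x)) s
    refine (Finset.sum_le_sum h6).trans ?_
    rw [Finset.sum_const, Finset.card_univ, nsmul_eq_mul, mul_assoc]

theorem pull_mem (f : Diffeomorph 𝓘(ℂ, E) 𝓘(ℂ, E) M M ω) {k : ℕ} (τ : HT E M k) :
    ∃ τ' : HT E M k, ∀ (x : M) (w : Fin k → TangentSpace 𝓘(ℂ, E) x),
      τ'.1 x w = τ.1 (f x) (fun a => mfderiv 𝓘(ℂ, E) 𝓘(ℂ, E) f x (w a)) := by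
  have hf : ContMDiff 𝓘(ℂ, E) 𝓘(ℂ, E) ω f := f.contMDiff
  refine ⟨⟨fun x => (τ.1 (f x)).compLinearMap
    (fun _ => (mfderiv 𝓘(ℂ, E) 𝓘(ℂ, E) f x : TangentSpace 𝓘(ℂ, E) x →L[ℂ]
      TangentSpace 𝓘(ℂ, E) (f x)).toLinearMap), ?_⟩, fun x w => rfl⟩
  intro e he w z₀ hz₀
  have : CompleteSpace E := FiniteDimensional.complete ℂ E
  set e' := chartAt E (f (e.symm z₀)) with he'
  have hm : e' ∈ atlas E M := chart_mem_atlas E _
  have hz' : f (e.symm z₀) ∈ e'.source := mem_chart_source E _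
  have h1 : AnalyticAt ℂ (lmap e f e') z₀ := lmap_analytic hf he hm hz₀ hz'
  have hev : ∀ᶠ z in 𝓝 z₀, z ∈ e.target ∧ f (e.symm z) ∈ e'.source := by
    have hc : ContinuousAt (fun y => f (e.symm y)) z₀ :=
      f.continuous.continuousAt.comp (e.continuousAt_symm hz₀)
    exact (e.open_target.eventually_mem hz₀).and (hc.eventually (e'.open_source.mem_nhds hz'))
  obtain ⟨β, _⟩ : ∃ β : Module.Basis (Fin (Module.finrank ℂ E)) ℂ E, β = Module.finBasis ℂ E :=
    ⟨_, rfl⟩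
  have h2 : AnalyticAt ℂ (fun z => ∑ r : Fin k → Fin (Module.finrank ℂ E),
      (∏ a, β.repr (fderiv ℂ (lmap e f e') z (w a)) (r a)) *
        lM τ.1 e' (lmap e f e' z) (fun a => β (r a))) z₀ := by
    refine Finset.analyticAt_fun_sum _ fun r _ => ?_
    refine AnalyticAt.mul ?_ ?_
    · refine Finset.analyticAt_fun_prod _ fun a _ => ?_
      have h3 : AnalyticAt ℂ (fun z => fderiv ℂ (lmap e f e') z) z₀ := h1.fderiv
      have h4 := ((LinearMap.toContinuousLinearMap (β.coord (r a))).comp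
        (ContinuousLinearMap.apply ℂ E (w a))).analyticAt (fderiv ℂ (lmap e f e') z₀)
      exact h4.fun_comp h3
    · have h3 := τ.2 e' hm (fun a => β (r a)) (lmap e f e' z₀) (e'.map_source hz')
      exact h3.fun_comp h1
  refine h2.congr ?_
  filter_upwards [hev] with z hz
  have h5 := pull_eq τ.1 hf he hm hz.1 hz.2 w
  rw [expand _ β] at h5
  exact h5.symm

theorem exists_pull_matrix (f : Diffeomorph 𝓘(ℂ, E) 𝓘(ℂ, E) M M ω) {k L : ℕ}
    (τ : Module.Basis (Fin L) ℂ (HT E M k)) :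
    ∃ A : Matrix (Fin L) (Fin L) ℂ, A.det ≠ 0 ∧
      ∀ (l : Fin L) (x : M) (w : Fin k → TangentSpace 𝓘(ℂ, E) x),
        (τ l).1 (f x) (fun a => mfderiv 𝓘(ℂ, E) 𝓘(ℂ, E) f x (w a)) =
          ∑ l', A l l' * (τ l').1 x w := by
  have hcomp : ∀ (g : M → M) (_ : g = id) (l : Fin L) (x : M) (w : Fin k → TangentSpace 𝓘(ℂ, E) x),
      (τ l).1 (g x) (fun a => mfderiv 𝓘(ℂ, E) 𝓘(ℂ, E) g x (w a)) = (τ l).1 x w := by
    intro g hg l x w
    subst hg
    have h2 : (fun a => mfderiv 𝓘(ℂ, E) 𝓘(ℂ, E) (id : M → M) x (w a)) = w := by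
      funext a
      rw [mfderiv_id]
      rfl
    rw [h2]
    rfl
  have hmat : ∀ g : Diffeomorph 𝓘(ℂ, E) 𝓘(ℂ, E) M M ω, ∃ A : Matrix (Fin L) (Fin L) ℂ,
      ∀ (l : Fin L) (x : M) (w : Fin k → TangentSpace 𝓘(ℂ, E) x),
        (τ l).1 (g x) (fun a => mfderiv 𝓘(ℂ, E) 𝓘(ℂ, E) g x (w a)) =
          ∑ l', A l l' * (τ l').1 x w := by
    intro g
    choose T hT using fun l => pull_mem g (τ l)
    refine ⟨fun l l' => τ.repr (T l) l', fun l x w => ?_⟩
    rw [← hT l x w]
    have h1 := τ.sum_repr (T l)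
    have h2 : (T l).1 x w = (∑ l', τ.repr (T l) l' • τ l' : HT E M k).1 x w := by rw [h1]
    rw [h2, Submodule.coe_sum, Finset.sum_apply, sum_apply]
    rfl
  obtain ⟨A, hA⟩ := hmat f
  obtain ⟨B, hB⟩ := hmat f.symm
  refine ⟨A, ?_, hA⟩
  have hBA : B * A = 1 := by
    have h1 : ∀ l, ∑ l', (B * A) l l' • τ l' = τ l := by
      intro l
      apply Subtype.ext
      funext x
      apply MultilinearMap.ext
      intro w
      have h2 := hcomp (f.symm ∘ f) (funext fun y => f.symm_apply_apply y) l x w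
      have h3 : mfderiv 𝓘(ℂ, E) 𝓘(ℂ, E) (f.symm ∘ f) x =
          (mfderiv 𝓘(ℂ, E) 𝓘(ℂ, E) f.symm (f x)).comp (mfderiv 𝓘(ℂ, E) 𝓘(ℂ, E) f x) :=
        mfderiv_comp x ((f.symm.contMDiff.contMDiffAt (x := f x)).mdifferentiableAt (by simp))
          ((f.contMDiff.contMDiffAt (x := x)).mdifferentiableAt (by simp))
      rw [h3] at h2
      have h4 := hB l (f x) (fun a => mfderiv 𝓘(ℂ, E) 𝓘(ℂ, E) f x (w a))
      have h5 : (τ l).1 x w = ∑ l', B l l' * ∑ l'', A l' l'' * (τ l'').1 x w := by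
        rw [← h2]
        refine Eq.trans h4 ?_
        refine Finset.sum_congr rfl fun l' _ => ?_
        rw [hA l' x w]
      rw [h5, Submodule.coe_sum, Finset.sum_apply, sum_apply]
      have h6 : ∀ l'', ((((B * A) l l'' • τ l'' : HT E M k) : (x : M) →
          MultilinearMap ℂ (fun _ : Fin k => TangentSpace 𝓘(ℂ, E) x) ℂ) x) w =
          ∑ l', B l l' * (A l' l'' * (τ l'').1 x w) := by
        intro l''
        show (B * A) l l'' * (τ l'').1 x w = _
        rw [Matrix.mul_apply, Finset.sum_mul]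
        refine Finset.sum_congr rfl fun l' _ => ?_
        ring
      rw [Finset.sum_congr rfl fun l'' _ => h6 l'', Finset.sum_comm]
      refine Finset.sum_congr rfl fun l' _ => ?_
      rw [Finset.mul_sum]
    ext l l'
    have h7 := congrArg (fun v => τ.repr v l') (h1 l)
    beta_reduce at h7
    rw [τ.repr_sum_self, τ.repr_self] at h7
    rw [h7, Matrix.one_apply, Finsupp.single_apply]
  intro h0
  have h8 := congrArg Matrix.det hBA
  rw [Matrix.det_mul, h0, mul_zero, Matrix.det_one] at h8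
  exact zero_ne_one h8

end

end Pool.Agent.HOG
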