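import Pool.Agent.HOG.LocFr
import Pool.Agent.HOG.Orb
import Pool.Agent.HOA.Ang
import Pool.Agent.HOA.HSym

/-!
# HOG/HypM: the matrix of the diffeomorphism is hyperbolic

A uniform bound for the norms of frames with prescribed tensor coordinates, the vectors with
bounded forward orbit, and hyperbolicity of the matrix.
-/

open scoped Manifold ContDiff Topology BigOperators
open Set Metric Filter

namespace Pool.Agent.HOG

open Pool.Agent.HOA

noncomputable section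

variable {E : Type} [NormedAddCommGroup E] [NormedSpace ℂ E] [FiniteDimensional ℂ E]
variable {M : Type} [TopologicalSpace M] [T2Space M] [CompactSpace M] [ChartedSpace E M]
  [IsManifold 𝓘(ℂ, E) ω M]
variable {f : Diffeomorph 𝓘(ℂ, E) 𝓘(ℂ, E) M M ω} {N : (x : M) → TangentSpace 𝓘(ℂ, E) x → ℝ}
  {Es Eu : (x : M) → Submodule ℝ (TangentSpace 𝓘(ℂ, E) x)} {C ν : ℝ}

omit [FiniteDimensional ℂ E] [T2Space M] [CompactSpace M] in
private theorem hm_zero {f : M → M} (h : Hyp f N Es Eu C ν) (x : M) : N x 0 = 0 := by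
  have h1 := h.smul x 0 0
  rw [zero_smul, abs_zero, zero_mul] at h1
  exact h1

omit [FiniteDimensional ℂ E] [T2Space M] [CompactSpace M] in
private theorem hm_nn {f : M → M} (h : Hyp f N Es Eu C ν) (x : M)
    (v : TangentSpace 𝓘(ℂ, E) x) : 0 ≤ N x v := by
  by_cases hv : v = 0
  · rw [hv, hm_zero h]
  · exact (h.pos x v hv).le

omit [FiniteDimensional ℂ E] [T2Space M] [CompactSpace M] in
private theorem hm_csmul {f : M → M} (h : Hyp f N Es Eu C ν) (x : M) (c : ℂ)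
    (v : TangentSpace 𝓘(ℂ, E) x) : N x (c • v) ≤ ‖c‖ * (N x v + N x (Complex.I • v)) := by
  have h1 : c • v = (c.re : ℝ) • v + (c.im : ℝ) • (Complex.I • v) := by
    change c • v = ((c.re : ℝ) : ℂ) • v + ((c.im : ℝ) : ℂ) • (Complex.I • v)
    rw [smul_smul, ← add_smul, Complex.re_add_im]
  rw [h1]
  refine (h.add x _ _).trans ?_
  rw [h.smul, h.smul]
  have h2 := mul_le_mul_of_nonneg_right (Complex.abs_re_le_norm c) (hm_nn h x v)
  have h3 := mul_le_mul_of_nonneg_right (Complex.abs_im_le_norm c) (hm_nn h x (Complex.I • v))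
  linarith

omit [FiniteDimensional ℂ E] [T2Space M] [CompactSpace M] in
private theorem hm_sum {f : M → M} (h : Hyp f N Es Eu C ν) (x : M) {n : ℕ} (t : Fin n → ℂ)
    (v : Fin n → TangentSpace 𝓘(ℂ, E) x) :
    N x (∑ i, t i • v i) ≤ ‖t‖ * ∑ i, (N x (v i) + N x (Complex.I • v i)) := by
  classical
  have h1 : ∀ s : Finset (Fin n), N x (∑ i ∈ s, t i • v i) ≤
      ∑ i ∈ s, ‖t‖ * (N x (v i) + N x (Complex.I • v i)) := by
    intro s
    induction s using Finset.induction_on with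
    | empty => rw [Finset.sum_empty, Finset.sum_empty, hm_zero h]
    | insert a s ha ih =>
      rw [Finset.sum_insert ha, Finset.sum_insert ha]
      refine (h.add x _ _).trans (add_le_add ?_ ih)
      refine (hm_csmul h x _ _).trans ?_
      exact mul_le_mul_of_nonneg_right (norm_le_pi_norm t a)
        (add_nonneg (hm_nn h x _) (hm_nn h x _))
  rw [Finset.mul_sum]
  exact h1 Finset.univ

private theorem hm_fmul {n : ℕ} {V : Type} [AddCommGroup V] [Module ℂ V] (v : Fin n → V)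
    (g : Matrix (Fin n) (Fin n) ℂ) (t : Fin n → ℂ) :
    ∑ i, t i • fmul v g i = ∑ j, (g.mulVec t) j • v j := by
  simp only [fmul, Finset.smul_sum, Matrix.mulVec, dotProduct, Finset.sum_smul, smul_smul]
  rw [Finset.sum_comm]
  refine Finset.sum_congr rfl fun j _ => Finset.sum_congr rfl fun i _ => ?_
  rw [mul_comm]

private theorem hm_mulVec {n : ℕ} {S : Set (Matrix (Fin n) (Fin n) ℂ)} (hS : S.Finite) :
    ∃ G : ℝ, 0 ≤ G ∧ ∀ g ∈ S, ∀ t : Fin n → ℂ, ‖g.mulVec t‖ ≤ G * ‖t‖ := by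
  have h1 : ∃ G : ℝ, ∀ g ∈ S, ∑ j, ∑ i, ‖g j i‖ ≤ G := by
    obtain ⟨G, hG⟩ := (hS.image fun g => ∑ j, ∑ i, ‖g j i‖).bddAbove
    exact ⟨G, fun g hg => hG ⟨g, hg, rfl⟩⟩
  obtain ⟨G, hG⟩ := h1
  refine ⟨max G 0, le_max_right _ _, fun g hg t => ?_⟩
  rw [pi_norm_le_iff_of_nonneg (mul_nonneg (le_max_right _ _) (norm_nonneg _))]
  intro j
  have h2 : ‖(g.mulVec t) j‖ ≤ ∑ i, ‖g j i‖ * ‖t‖ := by
    rw [Matrix.mulVec, dotProduct]
    refine (norm_sum_le _ _).trans (Finset.sum_le_sum fun i _ => ?_)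
    rw [norm_mul]
    exact mul_le_mul_of_nonneg_left (norm_le_pi_norm t i) (norm_nonneg _)
  have h3 : ∑ i, ‖g j i‖ ≤ ∑ j, ∑ i, ‖g j i‖ :=
    Finset.single_le_sum (f := fun j => ∑ i, ‖g j i‖)
      (fun j _ => Finset.sum_nonneg fun i _ => norm_nonneg _) (Finset.mem_univ j)
  rw [← Finset.sum_mul] at h2
  refine h2.trans (mul_le_mul_of_nonneg_right ?_ (norm_nonneg _))
  exact (h3.trans (hG g hg)).trans (le_max_left _ _)

theorem frame_norm_bound (h : Hyp f N Es Eu C ν) {n k L : ℕ} (hk : 1 ≤ k)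
    (hn : Module.finrank ℂ E = n) {τ : Fin L → HT E M k} {F : Ix n k L → ℂ} (hF : Reg F)
    (hall : ∀ x : M, ∃ v : Fin n → TangentSpace 𝓘(ℂ, E) x, tup τ x v = F) :
    ∃ B : ℝ, ∀ (x : M) (v : Fin n → TangentSpace 𝓘(ℂ, E) x), tup τ x v = F →
      ∀ t : Fin n → ℂ, N x (∑ i, t i • v i) ≤ B * ‖t‖ := by
  obtain ⟨G, hG0, hG⟩ := hm_mulVec (finite_solutions hk hF F)
  have hloc : ∀ x₀ : M, ∃ U ∈ 𝓝 x₀, ∃ B : ℝ, 0 ≤ B ∧ ∀ x ∈ U,
      ∀ v : Fin n → TangentSpace 𝓘(ℂ, E) x, tup τ x v = F →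
      ∀ t : Fin n → ℂ, N x (∑ i, t i • v i) ≤ B * ‖t‖ := by
    intro x₀
    obtain ⟨v₀, hv₀⟩ := hall x₀
    obtain ⟨X, hX0, hX⟩ := local_frame hk hn τ hF hall x₀ v₀ hv₀
    have hXx := hX.self_of_nhds
    have hc1 : ∀ i, ContinuousAt (fun x => N x (X i x)) x₀ := by
      intro i
      have h1 : ContinuousAt (fun y => (⟨y, X i y⟩ : TangentBundle 𝓘(ℂ, E) M)) x₀ :=
        (hXx.1 i).continuousAt
      exact ContinuousAt.comp (f := fun y => (⟨y, X i y⟩ : TangentBundle 𝓘(ℂ, E) M))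
        (g := fun v : TangentBundle 𝓘(ℂ, E) M => N v.proj v.snd) h.cont.continuousAt h1
    have hc2 : ∀ i, ContinuousAt (fun x => N x (Complex.I • X i x)) x₀ := by
      intro i
      have h0 : ContMDiffAt 𝓘(ℂ, E) (𝓘(ℂ, E)).tangent ω
          (fun y => (⟨y, (Complex.I • X i) y⟩ : TangentBundle 𝓘(ℂ, E) M)) x₀ :=
        ContMDiffAt.const_smul_section (hXx.1 i)
      have h1 : ContinuousAt (fun y => (⟨y, (Complex.I • X i) y⟩ : TangentBundle 𝓘(ℂ, E) M)) x₀ :=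
        h0.continuousAt
      exact ContinuousAt.comp (f := fun y => (⟨y, (Complex.I • X i) y⟩ : TangentBundle 𝓘(ℂ, E) M))
        (g := fun v : TangentBundle 𝓘(ℂ, E) M => N v.proj v.snd) h.cont.continuousAt h1
    let b : M → ℝ := fun x => ∑ i, (N x (X i x) + N x (Complex.I • X i x))
    have hb : ContinuousAt b x₀ := by
      refine tendsto_finsetSum _ fun i _ => ?_
      exact (hc1 i).add (hc2 i)
    have hb1 : ∀ᶠ x in 𝓝 x₀, b x < b x₀ + 1 := hb.eventually (gt_mem_nhds (lt_add_one _))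
    have hb0 : ∀ x, 0 ≤ b x := fun x =>
      Finset.sum_nonneg fun i _ => add_nonneg (hm_nn h x _) (hm_nn h x _)
    refine ⟨_, hb1.and hX, G * (b x₀ + 1), mul_nonneg hG0 (by linarith [hb0 x₀]), ?_⟩
    rintro x ⟨hx1, hx2⟩ v hv t
    have hind : LinearIndependent ℂ (fun i => X i x) := by
      refine tup_indep hk (τ := τ) ?_
      rw [hx2.2]
      exact hF
    obtain ⟨g, hg, _⟩ := exists_fmul hn hind v
    have hgF : act g F = F := by
      have h1 := tup_fmul τ x (fun i => X i x) g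
      rw [hx2.2, ← hg, hv] at h1
      exact h1.symm
    have h2 : ∑ i, t i • v i = ∑ j, (g.mulVec t) j • X j x := by
      rw [hg]
      exact hm_fmul _ _ _
    rw [h2]
    refine (hm_sum h x _ _).trans ?_
    have h3 : ‖g.mulVec t‖ ≤ G * ‖t‖ := hG g hgF t
    calc ‖g.mulVec t‖ * b x ≤ (G * ‖t‖) * (b x₀ + 1) :=
          mul_le_mul h3 hx1.le (hb0 x) (mul_nonneg hG0 (norm_nonneg _))
      _ = G * (b x₀ + 1) * ‖t‖ := by ring
  have hcomp := isCompact_univ.induction_on (X := M)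
    (p := fun s => ∃ B : ℝ, 0 ≤ B ∧ ∀ x ∈ s,
      ∀ v : Fin n → TangentSpace 𝓘(ℂ, E) x, tup τ x v = F →
      ∀ t : Fin n → ℂ, N x (∑ i, t i • v i) ≤ B * ‖t‖)
    ⟨0, le_rfl, fun x hx => absurd hx (Set.notMem_empty x)⟩
    (by
      rintro s s' hss ⟨B, hB0, hB⟩
      exact ⟨B, hB0, fun x hx => hB x (hss hx)⟩)
    (by
      rintro s s' ⟨B, hB0, hB⟩ ⟨B', hB0', hB'⟩
      refine ⟨max B B', hB0.trans (le_max_left _ _), ?_⟩
      rintro x (hx | hx) v hv t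
      · exact (hB x hx v hv t).trans
          (mul_le_mul_of_nonneg_right (le_max_left _ _) (norm_nonneg _))
      · exact (hB' x hx v hv t).trans
          (mul_le_mul_of_nonneg_right (le_max_right _ _) (norm_nonneg _)))
    (by
      intro x₀ _
      obtain ⟨U, hU, B, hB0, hB⟩ := hloc x₀
      exact ⟨U, by rwa [nhdsWithin_univ], B, hB0, hB⟩)
  obtain ⟨B, _, hB⟩ := hcomp
  exact ⟨B, fun x v hv t => hB x (Set.mem_univ x) v hv t⟩

/-- the action of a matrix on the last index -/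
private def la {n k L : ℕ} (A : Matrix (Fin L) (Fin L) ℂ) (F : Ix n k L → ℂ) : Ix n k L → ℂ :=
  fun p => ∑ l', A p.2 l' * F (p.1, l')

private theorem act_la {n k L : ℕ} (g : Matrix (Fin n) (Fin n) ℂ) (A : Matrix (Fin L) (Fin L) ℂ)
    (F : Ix n k L → ℂ) : act g (la A F) = la A (act g F) := by
  funext p
  simp only [act, la, Finset.mul_sum]
  rw [Finset.sum_comm]
  refine Finset.sum_congr rfl fun l _ => Finset.sum_congr rfl fun j _ => ?_
  ring

private theorem act_la_iter {n k L : ℕ} (g : Matrix (Fin n) (Fin n) ℂ)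
    (A : Matrix (Fin L) (Fin L) ℂ) (m : ℕ) : ∀ F : Ix n k L → ℂ,
    act g ((la A)^[m] F) = (la A)^[m] (act g F) := by
  induction m with
  | zero => intro F; rfl
  | succ m ih =>
    intro F
    rw [Function.iterate_succ_apply, Function.iterate_succ_apply, ih, act_la]

private theorem act_pow {n k L : ℕ} {a : Matrix (Fin n) (Fin n) ℂ} {A : Matrix (Fin L) (Fin L) ℂ}
    {F : Ix n k L → ℂ} (ha : act a F = la A F) (m : ℕ) : act (a ^ m) F = (la A)^[m] F := by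
  induction m with
  | zero => rw [pow_zero, act_one, Function.iterate_zero_apply]
  | succ m ih =>
    rw [pow_succ, act_mul, ih, act_la_iter, ha, Function.iterate_succ_apply]

omit [FiniteDimensional ℂ E] [T2Space M] [CompactSpace M] [IsManifold 𝓘(ℂ, E) ω M] in
private theorem hm_md (f : Diffeomorph 𝓘(ℂ, E) 𝓘(ℂ, E) M M ω) (k : ℕ) :
    MDifferentiable 𝓘(ℂ, E) 𝓘(ℂ, E) (f^[k]) :=
  (f.contMDiff.iterate k).mdifferentiable (by simp)

omit [FiniteDimensional ℂ E] [T2Space M] [CompactSpace M] [IsManifold 𝓘(ℂ, E) ω M] in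
private theorem tup_iter {n k L : ℕ} {τ : Fin L → HT E M k} {A : Matrix (Fin L) (Fin L) ℂ}
    (hA : ∀ (l : Fin L) (x : M) (w : Fin k → TangentSpace 𝓘(ℂ, E) x),
      (τ l).1 (f x) (fun a => mfderiv 𝓘(ℂ, E) 𝓘(ℂ, E) f x (w a)) = ∑ l', A l l' * (τ l').1 x w)
    (m : ℕ) : ∀ (x : M) (v : Fin n → TangentSpace 𝓘(ℂ, E) x),
      tup τ (f^[m] x) (fun i => mfderiv 𝓘(ℂ, E) 𝓘(ℂ, E) (f^[m]) x (v i)) =
        (la A)^[m] (tup τ x v) := by
  induction m with
  | zero =>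
    intro x v
    have h3 : ∀ g : M → M, g = id →
        (mfderiv 𝓘(ℂ, E) 𝓘(ℂ, E) g x : E →L[ℂ] E) = ContinuousLinearMap.id ℂ E := by
      rintro _ rfl
      exact mfderiv_id
    have h4 : (mfderiv 𝓘(ℂ, E) 𝓘(ℂ, E) (f^[0]) x : E →L[ℂ] E) = ContinuousLinearMap.id ℂ E :=
      h3 _ rfl
    have h5 : (fun i => mfderiv 𝓘(ℂ, E) 𝓘(ℂ, E) (f^[0]) x (v i)) =
        (v : Fin n → TangentSpace 𝓘(ℂ, E) x) := by
      funext i
      have h6 : (mfderiv 𝓘(ℂ, E) 𝓘(ℂ, E) (f^[0]) x : E →L[ℂ] E) (v i) = v i := by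
        rw [h4]
        rfl
      exact h6
    change tup τ x (fun i => mfderiv 𝓘(ℂ, E) 𝓘(ℂ, E) (f^[0]) x (v i)) = tup τ x v
    exact congrArg (tup τ x) h5
  | succ m ih =>
    intro x v
    have h1 := ih (f x) (fun i => mfderiv 𝓘(ℂ, E) 𝓘(ℂ, E) f x (v i))
    have h2 : tup τ (f x) (fun i => mfderiv 𝓘(ℂ, E) 𝓘(ℂ, E) f x (v i)) = la A (tup τ x v) := by
      funext p
      exact hA p.2 x (fun a => v (p.1 a))
    rw [h2] at h1
    have h3 : mfderiv 𝓘(ℂ, E) 𝓘(ℂ, E) (f^[m] ∘ f) x =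
        (mfderiv 𝓘(ℂ, E) 𝓘(ℂ, E) (f^[m]) (f x)).comp (mfderiv 𝓘(ℂ, E) 𝓘(ℂ, E) f x) :=
      mfderiv_comp x (hm_md f m (f x)) (hm_md f 1 x)
    have h4 : (fun i => mfderiv 𝓘(ℂ, E) 𝓘(ℂ, E) (f^[m] ∘ f) x (v i)) =
        fun i => mfderiv 𝓘(ℂ, E) 𝓘(ℂ, E) (f^[m]) (f x) (mfderiv 𝓘(ℂ, E) 𝓘(ℂ, E) f x (v i)) := by
      funext i
      rw [h3]
      rfl
    change tup τ (f^[m] (f x)) (fun i => mfderiv 𝓘(ℂ, E) 𝓘(ℂ, E) (f^[m] ∘ f) x (v i)) =
      (la A)^[m] (la A (tup τ x v))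
    rw [h4]
    exact h1

theorem mem_Es_of_matrix (h : Hyp f N Es Eu C ν) {n k L : ℕ} (hk : 1 ≤ k)
    (hn : Module.finrank ℂ E = n) {τ : Fin L → HT E M k} {F : Ix n k L → ℂ} (hF : Reg F)
    (hall : ∀ x : M, ∃ v : Fin n → TangentSpace 𝓘(ℂ, E) x, tup τ x v = F)
    {A : Matrix (Fin L) (Fin L) ℂ}
    (hA : ∀ (l : Fin L) (x : M) (w : Fin k → TangentSpace 𝓘(ℂ, E) x),
      (τ l).1 (f x) (fun a => mfderiv 𝓘(ℂ, E) 𝓘(ℂ, E) f x (w a)) = ∑ l', A l l' * (τ l').1 x w)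
    {a : Matrix (Fin n) (Fin n) ℂ} (hdet : a.det ≠ 0)
    (ha : act a F = (fun p => ∑ l', A p.2 l' * F (p.1, l')))
    {t : Fin n → ℂ} {K : ℝ} (hK : ∀ m : ℕ, ‖(a ^ m).mulVec t‖ ≤ K) (x : M)
    {v : Fin n → TangentSpace 𝓘(ℂ, E) x} (hv : tup τ x v = F) : (∑ i, t i • v i) ∈ Es x := by
  obtain ⟨G, hG0, hG⟩ := hm_mulVec (finite_solutions hk hF F)
  obtain ⟨B, hB⟩ := frame_norm_bound h hk hn hF hall
  have hK0 : 0 ≤ K := (norm_nonneg _).trans (hK 0)
  refine mem_Es_of_bdd h (K := |B| * (G * K)) fun m => ?_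
  obtain ⟨vm, hvm⟩ := hall (f^[m] x)
  have hind : LinearIndependent ℂ vm := by
    refine tup_indep hk (τ := τ) ?_
    rw [hvm]
    exact hF
  obtain ⟨b, hb, _⟩ := exists_fmul hn hind
    (fun i => mfderiv 𝓘(ℂ, E) 𝓘(ℂ, E) (f^[m]) x (v i))
  have hbF : act b F = act (a ^ m) F := by
    have h1 := tup_iter (A := A) hA m x v
    rw [hb, tup_fmul, hvm, hv] at h1
    rw [h1, act_pow ha]
  have hdm : (a ^ m).det ≠ 0 := by
    rw [Matrix.det_pow]
    exact pow_ne_zero m hdet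
  have hunit : IsUnit (a ^ m).det := isUnit_iff_ne_zero.2 hdm
  have hh : act (b * (a ^ m)⁻¹) F = F := by
    rw [act_mul, hbF, ← act_mul, Matrix.mul_nonsing_inv _ hunit, act_one]
  have hb2 : b.mulVec t = (b * (a ^ m)⁻¹).mulVec ((a ^ m).mulVec t) := by
    rw [Matrix.mulVec_mulVec, Matrix.mul_assoc, Matrix.nonsing_inv_mul _ hunit, Matrix.mul_one]
  have h2 : mfderiv 𝓘(ℂ, E) 𝓘(ℂ, E) (f^[m]) x (∑ i, t i • v i) =
      ∑ j, (b.mulVec t) j • vm j := by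
    rw [map_sum, ← hm_fmul, ← hb]
    refine Finset.sum_congr rfl fun i _ => ?_
    rw [map_smul]
  rw [h2]
  refine (hB _ vm hvm _).trans ?_
  have h3 : ‖b.mulVec t‖ ≤ G * K := by
    rw [hb2]
    exact (hG _ hh _).trans (mul_le_mul_of_nonneg_left (hK m) hG0)
  calc B * ‖b.mulVec t‖ ≤ |B| * ‖b.mulVec t‖ :=
        mul_le_mul_of_nonneg_right (le_abs_self B) (norm_nonneg _)
    _ ≤ |B| * (G * K) := mul_le_mul_of_nonneg_left h3 (abs_nonneg B)

private theorem hm_pow {n : ℕ} {a : Matrix (Fin n) (Fin n) ℂ} {l : ℂ} {t : Fin n → ℂ}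
    (ht : a.mulVec t = l • t) (hl : ‖l‖ = 1) (m : ℕ) : ‖(a ^ m).mulVec t‖ ≤ ‖t‖ := by
  have h1 : (a ^ m).mulVec t = l ^ m • t := by
    induction m with
    | zero => rw [pow_zero, pow_zero, Matrix.one_mulVec, one_smul]
    | succ m ih =>
      rw [pow_succ, ← Matrix.mulVec_mulVec, ht, Matrix.mulVec_smul, ih, smul_smul, pow_succ,
        mul_comm]
  rw [h1, norm_smul, norm_pow, hl, one_pow, one_mul]

private theorem la_la {n k L : ℕ} (A B : Matrix (Fin L) (Fin L) ℂ) (F : Ix n k L → ℂ) :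
    la A (la B F) = la (A * B) F := by
  funext p
  simp only [la, Matrix.mul_apply, Finset.mul_sum, Finset.sum_mul]
  rw [Finset.sum_comm]
  refine Finset.sum_congr rfl fun l _ => Finset.sum_congr rfl fun j _ => ?_
  ring

private theorem la_one {n k L : ℕ} (F : Ix n k L → ℂ) : la 1 F = F := by
  funext p
  simp only [la, Matrix.one_apply]
  rw [Finset.sum_eq_single p.2]
  · rw [if_pos rfl, one_mul]
  · intro j _ hj
    rw [if_neg (fun h => hj h.symm), zero_mul]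
  · intro hp
    exact absurd (Finset.mem_univ _) hp

omit [FiniteDimensional ℂ E] [T2Space M] [CompactSpace M] [IsManifold 𝓘(ℂ, E) ω M] in
private theorem tau_cast {k L : ℕ} {τ : Fin L → HT E M k} {a b : M} (h : a = b) (l : Fin L)
    {u : Fin k → TangentSpace 𝓘(ℂ, E) a} {v : Fin k → TangentSpace 𝓘(ℂ, E) b}
    (huv : ∀ i, (u i : E) = (v i : E)) : (τ l).1 a u = (τ l).1 b v := by
  subst h
  have h1 : u = v := funext huv
  rw [h1]

omit [FiniteDimensional ℂ E] [T2Space M] [CompactSpace M] [IsManifold 𝓘(ℂ, E) ω M] in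
private theorem hm_right (f : Diffeomorph 𝓘(ℂ, E) 𝓘(ℂ, E) M M ω) (y : M)
    (v : TangentSpace 𝓘(ℂ, E) y) :
    (mfderiv 𝓘(ℂ, E) 𝓘(ℂ, E) f (f.symm y)
      (mfderiv 𝓘(ℂ, E) 𝓘(ℂ, E) f.symm y v) : E) = (v : E) := by
  have h1 : (f : M → M) ∘ f.symm = id := by
    funext z
    exact f.apply_symm_apply z
  have h2 := mfderiv_comp y (hm_md f 1 (f.symm y)) (hm_md f.symm 1 y)
  have h3 : ∀ g : M → M, g = id →
      (mfderiv 𝓘(ℂ, E) 𝓘(ℂ, E) g y : E →L[ℂ] E) = ContinuousLinearMap.id ℂ E := by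
    rintro _ rfl
    exact mfderiv_id
  have h4 := h3 _ h1
  have h5 : (mfderiv 𝓘(ℂ, E) 𝓘(ℂ, E) ((f : M → M) ∘ f.symm) y : E →L[ℂ] E) (v : E) =
      (v : E) := by
    rw [h4]
    rfl
  have h6 : (mfderiv 𝓘(ℂ, E) 𝓘(ℂ, E) ((f : M → M) ∘ f.symm) y : E →L[ℂ] E) (v : E) =
      (mfderiv 𝓘(ℂ, E) 𝓘(ℂ, E) f (f.symm y)
        (mfderiv 𝓘(ℂ, E) 𝓘(ℂ, E) f.symm y v) : E) := by
    have h7 : (mfderiv 𝓘(ℂ, E) 𝓘(ℂ, E) ((f : M → M) ∘ f.symm) y : E →L[ℂ] E) =
        (mfderiv 𝓘(ℂ, E) 𝓘(ℂ, E) f (f.symm y) : E →L[ℂ] E).comp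
          (mfderiv 𝓘(ℂ, E) 𝓘(ℂ, E) f.symm y : E →L[ℂ] E) := h2
    rw [h7]
    rfl
  rw [← h6, h5]

theorem hyp_matrix [Nonempty M] (h : Hyp f N Es Eu C ν) {n k L : ℕ} (hk : 1 ≤ k)
    (hn : Module.finrank ℂ E = n) {τ : Fin L → HT E M k} {F : Ix n k L → ℂ} (hF : Reg F)
    (hall : ∀ x : M, ∃ v : Fin n → TangentSpace 𝓘(ℂ, E) x, tup τ x v = F)
    {A : Matrix (Fin L) (Fin L) ℂ} (hAdet : A.det ≠ 0)
    (hA : ∀ (l : Fin L) (x : M) (w : Fin k → TangentSpace 𝓘(ℂ, E) x),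
      (τ l).1 (f x) (fun a => mfderiv 𝓘(ℂ, E) 𝓘(ℂ, E) f x (w a)) = ∑ l', A l l' * (τ l').1 x w)
    {a : Matrix (Fin n) (Fin n) ℂ} (ha : act a F = (fun p => ∑ l', A p.2 l' * F (p.1, l')))
    {l : ℂ} (hl : ‖l‖ = 1) {t : Fin n → ℂ} (ht : a.mulVec t = l • t) : t = 0 := by
  have hAu : IsUnit A.det := isUnit_iff_ne_zero.2 hAdet
  have ha' : act a F = la A F := ha
  have hreg : Reg (act a F) := by
    intro v hv
    apply hF v
    have h1 : diag (act a F) v = A.mulVec (diag F v) := by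
      rw [ha']
      funext l
      simp only [diag, la, Matrix.mulVec, dotProduct, Finset.mul_sum]
      rw [Finset.sum_comm]
      refine Finset.sum_congr rfl fun j _ => Finset.sum_congr rfl fun i _ => ?_
      ring
    rw [h1] at hv
    have h2 : A⁻¹.mulVec (A.mulVec (diag F v)) = 0 := by rw [hv, Matrix.mulVec_zero]
    rwa [Matrix.mulVec_mulVec, Matrix.nonsing_inv_mul _ hAu, Matrix.one_mulVec] at h2
  have hdet : a.det ≠ 0 := det_ne_zero_of_act hk hF hreg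
  have hau : IsUnit a.det := isUnit_iff_ne_zero.2 hdet
  have hl0 : l ≠ 0 := by
    intro h0
    rw [h0, norm_zero] at hl
    exact zero_ne_one hl
  obtain ⟨x⟩ := (inferInstance : Nonempty M)
  obtain ⟨v, hv⟩ := hall x
  have hEs := mem_Es_of_matrix h hk hn hF hall hA hdet ha (hm_pow ht hl) x hv
  -- the inverse
  have hA2 : ∀ (l : Fin L) (y : M) (w : Fin k → TangentSpace 𝓘(ℂ, E) y),
      (τ l).1 (f.symm y) (fun a => mfderiv 𝓘(ℂ, E) 𝓘(ℂ, E) f.symm y (w a)) =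
        ∑ l', A⁻¹ l l' * (τ l').1 y w := by
    intro l y w
    have h1 : ∀ l, (τ l).1 y w = ∑ l', A l l' * (τ l').1 (f.symm y)
        (fun a => mfderiv 𝓘(ℂ, E) 𝓘(ℂ, E) f.symm y (w a)) := by
      intro l
      rw [← hA l (f.symm y) (fun a => mfderiv 𝓘(ℂ, E) 𝓘(ℂ, E) f.symm y (w a))]
      refine tau_cast (f.apply_symm_apply y).symm l fun i => ?_
      exact (hm_right f y (w i)).symm
    have h2 : (fun l => (τ l).1 y w) = A.mulVec (fun l => (τ l).1 (f.symm y)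
        (fun a => mfderiv 𝓘(ℂ, E) 𝓘(ℂ, E) f.symm y (w a))) := funext h1
    have h3 := congrArg (A⁻¹.mulVec) h2
    rw [Matrix.mulVec_mulVec, Matrix.nonsing_inv_mul _ hAu, Matrix.one_mulVec] at h3
    exact (congrFun h3 l).symm
  have ha2 : act a⁻¹ F = (fun p => ∑ l', A⁻¹ p.2 l' * F (p.1, l')) := by
    have h1 : act a⁻¹ (act a F) = F := by
      rw [← act_mul, Matrix.mul_nonsing_inv _ hau, act_one]
    rw [ha', act_la] at h1
    have h2 := congrArg (la A⁻¹) h1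
    rw [la_la, Matrix.nonsing_inv_mul _ hAu, la_one] at h2
    exact h2
  have hdet2 : (a⁻¹).det ≠ 0 := by
    have := Matrix.isUnit_nonsing_inv_det a hau
    exact this.ne_zero
  have ht2 : a⁻¹.mulVec t = l⁻¹ • t := by
    have h1 := congrArg (a⁻¹.mulVec) ht
    rw [Matrix.mulVec_mulVec, Matrix.nonsing_inv_mul _ hau, Matrix.one_mulVec,
      Matrix.mulVec_smul] at h1
    rw [h1, smul_smul, inv_mul_cancel₀ hl0, one_smul, ← h1]
  have hl2 : ‖l⁻¹‖ = 1 := by rw [norm_inv, hl, inv_one]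
  have hEu := mem_Es_of_matrix (hyp_symm h) hk hn hF hall hA2 hdet2 ha2 (hm_pow ht2 hl2) x hv
  have h0 : (∑ i, t i • v i) = 0 := by
    have h1 := Submodule.mem_inf.2 ⟨hEs, hEu⟩
    rw [(h.compl x).inf_eq_bot] at h1
    exact (Submodule.mem_bot ℝ).1 h1
  have hind : LinearIndependent ℂ v := by
    refine tup_indep hk (τ := τ) ?_
    rw [hv]
    exact hF
  funext i
  exact Fintype.linearIndependent_iff.1 hind t h0 i

end

end Pool.Agent.HOG
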