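import Pool.Agent.HOG.ScA

/-!
# HOG/JacC: the constants of a local frame are those of a Lie algebra

PLAN.  Near `x₀`, `[X i, X j] = Σ_l c i j l • X l` with constant `c = sc X x₀` (`sc_spec`, `hc`).
Antisymmetry: `VectorField.mlieBracket_swap`, independence of the `X l x₀` (`tup_indep`).  Jacobi:
`VectorField.leibniz_identity_mlieBracket` (Within version on `univ`, or the global one) at `x₀` for
`X i, X j, X l`; the inner brackets may be replaced near `x₀` by constant combinations
(`Filter.EventuallyEq.mlieBracket_vectorField_eq`, bilinearity `mlieBracket_add_right`,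
`mlieBracket_const_smul_right`, ...); compare coordinates.  Then extend bilinearly from the standard
basis (`brc` on `Pi.single`) to all vectors.
-/

open scoped Manifold ContDiff Topology BigOperators
open Set Metric Filter

namespace Pool.Agent.HOG

open Pool.Agent.HOA

noncomputable section

variable {E : Type} [NormedAddCommGroup E] [NormedSpace ℂ E] [FiniteDimensional ℂ E]
variable {M : Type} [TopologicalSpace M] [T2Space M] [CompactSpace M] [ChartedSpace E M]
  [IsManifold 𝓘(ℂ, E) ω M]

section Loc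

omit [T2Space M] [CompactSpace M] [FiniteDimensional ℂ E] in
private theorem mdiff_at {X : (x : M) → TangentSpace 𝓘(ℂ, E) x} {x : M} (h : HolAt X x) :
    MDifferentiableAt 𝓘(ℂ, E) (𝓘(ℂ, E)).tangent
      (fun x => (⟨x, X x⟩ : TangentBundle 𝓘(ℂ, E) M)) x :=
  ContMDiffAt.mdifferentiableAt h (by simp)

omit [T2Space M] [CompactSpace M] [FiniteDimensional ℂ E] in
private theorem mdiff_sum {ι : Type} (s : Finset ι) (a : ι → ℂ)
    {W : ι → (x : M) → TangentSpace 𝓘(ℂ, E) x} {x : M} (h : ∀ m, HolAt (W m) x) :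
    MDifferentiableAt 𝓘(ℂ, E) (𝓘(ℂ, E)).tangent
      (fun y => (⟨y, (∑ m ∈ s, a m • W m) y⟩ : TangentBundle 𝓘(ℂ, E) M)) x := by
  have : IsManifold 𝓘(ℂ, E) 2 M := IsManifold.of_le (n := ω) le_top
  classical
  induction s using Finset.induction_on with
  | empty =>
    simp only [Finset.sum_empty]
    exact Bundle.mdifferentiableAt_zeroSection ..
  | insert m s hm ih =>
    rw [Finset.sum_insert hm]
    exact mdifferentiableAt_add_section ((mdiff_at (h m)).smul_const_section) ih

omit [T2Space M] [CompactSpace M] in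
private theorem br_sum {ι : Type} (s : Finset ι) (a : ι → ℂ)
    {V : (x : M) → TangentSpace 𝓘(ℂ, E) x}
    {W : ι → (x : M) → TangentSpace 𝓘(ℂ, E) x} {x : M} (h : ∀ m, HolAt (W m) x) :
    VectorField.mlieBracket 𝓘(ℂ, E) V (∑ m ∈ s, a m • W m) x =
      ∑ m ∈ s, a m • VectorField.mlieBracket 𝓘(ℂ, E) V (W m) x := by
  have : CompleteSpace E := FiniteDimensional.complete ℂ E
  have : IsManifold 𝓘(ℂ, E) 2 M := IsManifold.of_le (n := ω) le_top
  classical
  induction s using Finset.induction_on with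
  | empty =>
    simp only [Finset.sum_empty]
    rw [VectorField.mlieBracket_zero_right]
    rfl
  | insert m s hm ih =>
    rw [Finset.sum_insert hm, Finset.sum_insert hm,
      VectorField.mlieBracket_add_right
        ((mdiff_at (h m)).smul_const_section) (mdiff_sum s a h), ih,
      VectorField.mlieBracket_const_smul_right (mdiff_at (h m))]

omit [T2Space M] [CompactSpace M] in
private theorem br_sum_left {ι : Type} (s : Finset ι) (a : ι → ℂ)
    {V : (x : M) → TangentSpace 𝓘(ℂ, E) x}
    {W : ι → (x : M) → TangentSpace 𝓘(ℂ, E) x} {x : M} (h : ∀ m, HolAt (W m) x) :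
    VectorField.mlieBracket 𝓘(ℂ, E) (∑ m ∈ s, a m • W m) V x =
      ∑ m ∈ s, a m • VectorField.mlieBracket 𝓘(ℂ, E) (W m) V x := by
  rw [VectorField.mlieBracket_swap_apply, br_sum s a h, ← Finset.sum_neg_distrib]
  refine Finset.sum_congr rfl fun m _ => ?_
  rw [VectorField.mlieBracket_swap_apply (V := W m), smul_neg]

end Loc

private theorem brc_self {n : ℕ} {c : Fin n → Fin n → Fin n → ℂ}
    (h : ∀ i j l, c i j l = -c j i l) (u : Fin n → ℂ) : brc c u u = 0 := by
  funext l
  have h1 : (∑ i, ∑ j, u i * u j * c i j l) = -∑ i, ∑ j, u i * u j * c i j l := by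
    conv_rhs => rw [Finset.sum_comm]
    rw [← Finset.sum_neg_distrib]
    refine Finset.sum_congr rfl fun i _ => ?_
    rw [← Finset.sum_neg_distrib]
    refine Finset.sum_congr rfl fun j _ => ?_
    rw [h i j l]
    ring
  show (∑ i, ∑ j, u i * u j * c i j l) = 0
  have h2 : (2 : ℂ) * (∑ i, ∑ j, u i * u j * c i j l) = 0 := by
    rw [two_mul]
    nth_rewrite 1 [h1]
    simp
  exact (mul_eq_zero.1 h2).resolve_left two_ne_zero

private theorem brc_jac {n : ℕ} {c : Fin n → Fin n → Fin n → ℂ}
    (h : ∀ i j l p, (∑ m, c j l m * c i m p) =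
      (∑ m, c i j m * c m l p) + ∑ m, c i l m * c j m p) (u v w : Fin n → ℂ) :
    brc c u (brc c v w) = brc c (brc c u v) w + brc c v (brc c u w) := by
  funext p
  have e1 : brc c u (brc c v w) p = ∑ i, ∑ j, ∑ l, u i * v j * w l * ∑ m, c j l m * c i m p := by
    show (∑ i, ∑ m, u i * (∑ j, ∑ l, v j * w l * c j l m) * c i m p) = _
    refine Finset.sum_congr rfl fun i _ => ?_
    simp only [Finset.mul_sum, Finset.sum_mul]
    rw [Finset.sum_comm]
    refine Finset.sum_congr rfl fun j _ => ?_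
    rw [Finset.sum_comm]
    refine Finset.sum_congr rfl fun l _ => ?_
    refine Finset.sum_congr rfl fun m _ => ?_
    ring
  have e2 : brc c (brc c u v) w p = ∑ i, ∑ j, ∑ l, u i * v j * w l * ∑ m, c i j m * c m l p := by
    show (∑ m, ∑ l, (∑ i, ∑ j, u i * v j * c i j m) * w l * c m l p) = _
    simp only [Finset.mul_sum, Finset.sum_mul]
    calc (∑ m, ∑ l, ∑ i, ∑ j, u i * v j * c i j m * w l * c m l p)
        = ∑ m, ∑ i, ∑ j, ∑ l, u i * v j * c i j m * w l * c m l p := by
          refine Finset.sum_congr rfl fun m _ => ?_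
          rw [Finset.sum_comm]
          refine Finset.sum_congr rfl fun i _ => ?_
          rw [Finset.sum_comm]
      _ = ∑ i, ∑ m, ∑ j, ∑ l, u i * v j * c i j m * w l * c m l p := Finset.sum_comm
      _ = ∑ i, ∑ j, ∑ m, ∑ l, u i * v j * c i j m * w l * c m l p :=
          Finset.sum_congr rfl fun i _ => Finset.sum_comm
      _ = _ := by
          refine Finset.sum_congr rfl fun i _ => ?_
          refine Finset.sum_congr rfl fun j _ => ?_
          rw [Finset.sum_comm]
          refine Finset.sum_congr rfl fun l _ => ?_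
          refine Finset.sum_congr rfl fun m _ => ?_
          ring
  have e3 : brc c v (brc c u w) p = ∑ i, ∑ j, ∑ l, u i * v j * w l * ∑ m, c i l m * c j m p := by
    show (∑ j, ∑ m, v j * (∑ i, ∑ l, u i * w l * c i l m) * c j m p) = _
    rw [Finset.sum_comm (γ := Fin n)]
    simp only [Finset.mul_sum, Finset.sum_mul]
    calc (∑ m, ∑ j, ∑ i, ∑ l, v j * (u i * w l * c i l m) * c j m p)
        = ∑ m, ∑ i, ∑ j, ∑ l, v j * (u i * w l * c i l m) * c j m p :=
          Finset.sum_congr rfl fun m _ => Finset.sum_comm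
      _ = ∑ i, ∑ m, ∑ j, ∑ l, v j * (u i * w l * c i l m) * c j m p := Finset.sum_comm
      _ = ∑ i, ∑ j, ∑ m, ∑ l, v j * (u i * w l * c i l m) * c j m p :=
          Finset.sum_congr rfl fun i _ => Finset.sum_comm
      _ = _ := by
          refine Finset.sum_congr rfl fun i _ => ?_
          refine Finset.sum_congr rfl fun j _ => ?_
          rw [Finset.sum_comm]
          refine Finset.sum_congr rfl fun l _ => ?_
          refine Finset.sum_congr rfl fun m _ => ?_
          ring
  rw [Pi.add_apply, e1, e2, e3, ← Finset.sum_add_distrib]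
  refine Finset.sum_congr rfl fun i _ => ?_
  rw [← Finset.sum_add_distrib]
  refine Finset.sum_congr rfl fun j _ => ?_
  rw [← Finset.sum_add_distrib]
  refine Finset.sum_congr rfl fun l _ => ?_
  rw [h i j l p]
  ring

private theorem lin_cmp {n : ℕ} {V : Type} [AddCommGroup V] [Module ℂ V] {v : Fin n → V}
    (hv : LinearIndependent ℂ v) {a b : Fin n → ℂ} (h : (∑ i, a i • v i) = ∑ i, b i • v i) :
    a = b := by
  rw [← coord_eq hv a, ← coord_eq hv b, h]

theorem brc_lie {n k L : ℕ} (hk : 1 ≤ k) (hn : Module.finrank ℂ E = n)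
    {τ : Fin L → HT E M k} {F : Ix n k L → ℂ} (hF : Reg F) {x₀ : M}
    {X : Fin n → (x : M) → TangentSpace 𝓘(ℂ, E) x} (hX : IsLF τ F X x₀)
    (hc : ∀ᶠ x in 𝓝 x₀, sc X x = sc X x₀) :
    (∀ u : Fin n → ℂ, brc (sc X x₀) u u = 0) ∧
    ∀ u v w : Fin n → ℂ, brc (sc X x₀) u (brc (sc X x₀) v w) =
      brc (sc X x₀) (brc (sc X x₀) u v) w + brc (sc X x₀) v (brc (sc X x₀) u w) := by
  have : CompleteSpace E := FiniteDimensional.complete ℂ E
  have : IsManifold 𝓘(ℂ, E) (minSmoothness ℂ 3) M := IsManifold.of_le (n := ω) le_top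
  have hol : ∀ i, HolAt (X i) x₀ := hX.self_of_nhds.1
  have hind : LinearIndependent ℂ (fun l => X l x₀) := by
    refine tup_indep hk (τ := τ) ?_
    rw [hX.self_of_nhds.2]
    exact hF
  have hbr : ∀ i j, ∀ᶠ x in 𝓝 x₀, VectorField.mlieBracket 𝓘(ℂ, E) (X i) (X j) x =
      (∑ l, sc X x₀ i j l • X l) x := by
    intro i j
    filter_upwards [sc_spec hk hn hF hX, hc] with x hx hx'
    rw [hx i j, hx']
    rw [Finset.sum_apply]
    rfl
  generalize sc X x₀ = c at hbr ⊢
  have hbr0 : ∀ i j, VectorField.mlieBracket 𝓘(ℂ, E) (X i) (X j) x₀ =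
      ∑ l, c i j l • X l x₀ := by
    intro i j
    rw [(hbr i j).self_of_nhds, Finset.sum_apply]
    rfl
  have hanti : ∀ i j l, c i j l = -c j i l := by
    intro i j l
    have h1 : (∑ l, c i j l • X l x₀) = ∑ l, (-c j i l) • X l x₀ := by
      rw [← hbr0 i j, VectorField.mlieBracket_swap_apply, hbr0 j i, ← Finset.sum_neg_distrib]
      exact Finset.sum_congr rfl fun l _ => (neg_smul _ _).symm
    exact congrFun (lin_cmp hind h1) l
  refine ⟨brc_self hanti, brc_jac fun i j l p => ?_⟩
  have h2 : ∀ i, ContMDiffAt 𝓘(ℂ, E) (𝓘(ℂ, E)).tangent (minSmoothness ℂ 2)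
      (fun x => (⟨x, X i x⟩ : TangentBundle 𝓘(ℂ, E) M)) x₀ := fun i =>
    ContMDiffAt.of_le (hol i) le_top
  have hL := VectorField.leibniz_identity_mlieBracket_apply (h2 i) (h2 j) (h2 l)
  have r1 : ∀ i j l, VectorField.mlieBracket 𝓘(ℂ, E) (X i)
      (VectorField.mlieBracket 𝓘(ℂ, E) (X j) (X l)) x₀ =
      ∑ p, (∑ m, c j l m * c i m p) • X p x₀ := by
    intro i j l
    rw [Filter.EventuallyEq.mlieBracket_vectorField_eq (Filter.EventuallyEq.refl _ (X i))
      (hbr j l), br_sum _ _ hol]
    simp only [hbr0, Finset.smul_sum, Finset.sum_smul, smul_smul]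
    exact Finset.sum_comm
  have r2 : VectorField.mlieBracket 𝓘(ℂ, E)
      (VectorField.mlieBracket 𝓘(ℂ, E) (X i) (X j)) (X l) x₀ =
      ∑ p, (∑ m, c i j m * c m l p) • X p x₀ := by
    rw [Filter.EventuallyEq.mlieBracket_vectorField_eq (hbr i j)
      (Filter.EventuallyEq.refl _ (X l)), br_sum_left _ _ hol]
    simp only [hbr0, Finset.smul_sum, Finset.sum_smul, smul_smul]
    exact Finset.sum_comm
  rw [r1, r1, r2, ← Finset.sum_add_distrib] at hL
  simp only [← add_smul] at hL
  exact congrFun (lin_cmp hind hL) p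

end

end Pool.Agent.HOG
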