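import Pool.Agent.HOG.TDefs
import Pool.Agent.HOA.Hom
import Pool.Agent.HOA.Engel
import Pool.Agent.HOA.Flag

/-!
# HOG/NilM: a Lie algebra with a hyperbolic automorphism is nilpotent

PLAN.  `V = Fin n → ℂ`, `br u v = brc c u v` as a bilinear map, `T` the linear equivalence of the
invertible matrix `a` (`Matrix.toLin'`, `a.det ≠ 0`), `T (br u v) = br (T u) (T v)` by `Intw a c c`.
`graded_engel` with `S = {u | Homog T u}` (`homog_span`, `homog_br`, `homog_nil`; the latter uses
`hhyp`), then `flag_exists`.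
-/

open scoped Manifold ContDiff Topology BigOperators
open Set Metric Filter

namespace Pool.Agent.HOG

open Pool.Agent.HOA

noncomputable section


theorem exists_flag_brc {n : ℕ} {c : Fin n → Fin n → Fin n → ℂ}
    (halt : ∀ u : Fin n → ℂ, brc c u u = 0)
    (hjac : ∀ u v w : Fin n → ℂ,
      brc c u (brc c v w) = brc c (brc c u v) w + brc c v (brc c u w))
    {a : Matrix (Fin n) (Fin n) ℂ} (hdet : a.det ≠ 0) (ha : Intw a c c)
    (hhyp : ∀ (l : ℂ) (t : Fin n → ℂ), ‖l‖ = 1 → a.mulVec t = l • t → t = 0) :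
    ∃ b : Module.Basis (Fin n) ℂ (Fin n → ℂ), ∀ (v : Fin n → ℂ) (i : Fin n),
      brc c v (b i) ∈ Submodule.span ℂ (b '' {j | j < i}) := by
  have hadd1 : ∀ u u' v : Fin n → ℂ, brc c (u + u') v = brc c u v + brc c u' v := by
    intro u u' v
    funext k
    simp only [brc, Pi.add_apply, add_mul, Finset.sum_add_distrib]
  have hsm1 : ∀ (r : ℂ) (u v : Fin n → ℂ), brc c (r • u) v = r • brc c u v := by
    intro r u v
    funext k
    simp only [brc, Pi.smul_apply, smul_eq_mul, Finset.mul_sum]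
    refine Finset.sum_congr rfl fun i _ => Finset.sum_congr rfl fun j _ => ?_
    ring
  have hadd2 : ∀ u v v' : Fin n → ℂ, brc c u (v + v') = brc c u v + brc c u v' := by
    intro u v v'
    funext k
    simp only [brc, Pi.add_apply, mul_add, add_mul, Finset.sum_add_distrib]
  have hsm2 : ∀ (r : ℂ) (u v : Fin n → ℂ), brc c u (r • v) = r • brc c u v := by
    intro r u v
    funext k
    simp only [brc, Pi.smul_apply, smul_eq_mul, Finset.mul_sum]
    refine Finset.sum_congr rfl fun i _ => Finset.sum_congr rfl fun j _ => ?_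
    ring
  have hinv : Invertible a := a.invertibleOfIsUnitDet (IsUnit.mk0 _ hdet)
  obtain ⟨br, hbr⟩ : ∃ br : (Fin n → ℂ) →ₗ[ℂ] (Fin n → ℂ) →ₗ[ℂ] (Fin n → ℂ), ∀ u v, br u v = brc c u v :=
    ⟨LinearMap.mk₂ ℂ (brc c) hadd1 hsm1 hadd2 hsm2, fun _ _ => rfl⟩
  obtain ⟨T, hT⟩ : ∃ T : (Fin n → ℂ) ≃ₗ[ℂ] (Fin n → ℂ), ∀ u, T u = a.mulVec u :=
    ⟨Matrix.toLinearEquiv' a hinv, fun _ => rfl⟩
  have hTbr : ∀ u v, T (br u v) = br (T u) (T v) := by
    intro u v
    rw [hbr, hbr, hT, hT, hT]
    exact ha u v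
  have hW := graded_engel br (fun u => by rw [hbr]; exact halt u)
    (fun u v w => by simp only [hbr]; exact hjac u v w)
    {u | Homog T u} (homog_span T) (fun u hu v hv => homog_br T br hTbr hu hv)
    (fun u hu => homog_nil T (fun v l hl hv => hhyp l v hl (by rw [← hT]; exact hv)) br hTbr hu)
  obtain ⟨m, b, hb, _⟩ := flag_exists br T hTbr hW
  have hm : m = n := by
    have h1 := Module.finrank_eq_card_basis b
    rw [Module.finrank_fintype_fun_eq_card, Fintype.card_fin, Fintype.card_fin] at h1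
    exact h1.symm
  subst hm
  refine ⟨b, fun v i => ?_⟩
  rw [← hbr]
  exact hb v i

end

end Pool.Agent.HOG
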