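import Pool.Agent.HOG.Act

/-!
# HOG/RegO: regular tensors form an open set for the Zariski topology
-/

open scoped BigOperators Topology
open Filter Set

namespace Pool.Agent.HOG

noncomputable section

open MvPolynomial in
/-- the diagonal forms as polynomials -/
private def ff {n k L : ℕ} (T : Ix n k L → ℂ) (l : Fin L) : MvPolynomial (Fin n) ℂ :=
  ∑ j : Fin k → Fin n, C (T (j, l)) * ∏ a, X (j a)

open MvPolynomial in
private theorem eval_ff {n k L : ℕ} (T : Ix n k L → ℂ) (l : Fin L) (v : Fin n → ℂ) :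
    eval v (ff T l) = diag T v l := by
  simp only [ff, diag, map_sum, map_mul, eval_C, map_prod, eval_X]
  exact Finset.sum_congr rfl fun j _ => mul_comm _ _

open MvPolynomial in
private theorem ff_hom {n k L : ℕ} (T : Ix n k L → ℂ) (l : Fin L) : (ff T l).IsHomogeneous k := by
  refine IsHomogeneous.sum _ _ _ fun j _ => ?_
  have h1 : (∏ a : Fin k, X (R := ℂ) (j a)).IsHomogeneous (∑ _a : Fin k, 1) :=
    IsHomogeneous.prod _ _ _ fun a _ => isHomogeneous_X _ _
  have h2 := (isHomogeneous_C (Fin n) (T (j, l))).mul h1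
  simpa using h2

attribute [local instance] MvPolynomial.gradedAlgebra in
open MvPolynomial in
private theorem hc_mul {n k D : ℕ} (hD : k ≤ D) (p q : MvPolynomial (Fin n) ℂ)
    (hq : q.IsHomogeneous k) :
    homogeneousComponent D (p * q) = homogeneousComponent (D - k) p * q := by
  have h := DirectSum.coe_decompose_mul_of_right_mem_of_le (homogeneousSubmodule (Fin n) ℂ)
    (a := p) (b := q) (i := k) (n := D) hq hD
  have e : ∀ (φ : MvPolynomial (Fin n) ℂ) (i : ℕ),
      ((DirectSum.decompose (homogeneousSubmodule (Fin n) ℂ) φ i :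
        homogeneousSubmodule (Fin n) ℂ i) : MvPolynomial (Fin n) ℂ) = homogeneousComponent i φ :=
    fun φ i => decomposition.decompose'_apply φ i
  rw [e, e] at h
  exact h

open MvPolynomial in
private theorem eval_hom {n N : ℕ} (p : MvPolynomial (Fin n) ℂ) (hp : p.IsHomogeneous N)
    (v : Fin n → ℂ) : eval v p =
      ∑ β : {x // x ∈ Finset.finsuppAntidiag (Finset.univ : Finset (Fin n)) N},
        coeff β.1 p * ∏ i, v i ^ β.1 i := by
  have h1 : p.support ⊆ Finset.finsuppAntidiag (Finset.univ : Finset (Fin n)) N := by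
    intro d hd
    rw [Finset.mem_finsuppAntidiag]
    refine ⟨?_, Finset.subset_univ _⟩
    by_contra hne
    refine (mem_support_iff.1 hd) (hp.coeff_eq_zero ?_)
    rw [Finsupp.degree_eq_sum]
    exact hne
  rw [eval_eq', Finset.sum_subset h1 fun d _ hd => by rw [notMem_support_iff.1 hd, zero_mul]]
  exact (Finset.sum_coe_sort _ fun d => coeff d p * ∏ i, v i ^ d i).symm

open MvPolynomial in
private theorem exists_a {n k L : ℕ} {F : Ix n k L → ℂ} (hF : Reg F) :
    ∃ (D : ℕ) (a : Fin n → Fin L → MvPolynomial (Fin n) ℂ), k ≤ D ∧ 1 ≤ D ∧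
      (∀ s l, (a s l).IsHomogeneous (D - k)) ∧ ∀ s, ∑ l, a s l * ff F l = X s ^ D := by
  have h1 : ∀ s : Fin n, ∃ d : ℕ, X s ^ d ∈ Ideal.span (Set.range (ff F)) := by
    intro s
    have h2 : (X s : MvPolynomial (Fin n) ℂ) ∈
        vanishingIdeal ℂ (zeroLocus ℂ (Ideal.span (Set.range (ff F)))) := by
      rw [mem_vanishingIdeal_iff]
      intro x hx
      have h3 : x = 0 := by
        refine hF x (funext fun l => ?_)
        have h4 : eval x (ff F l) = 0 := hx (ff F l) (Ideal.subset_span ⟨l, rfl⟩)
        rw [eval_ff] at h4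
        exact h4
      rw [h3, aeval_X]
      rfl
    rw [vanishingIdeal_zeroLocus_eq_radical] at h2
    obtain ⟨d, hd⟩ := h2
    exact ⟨d, hd⟩
  choose d hd using h1
  have h2 : ∀ s : Fin n, X s ^ (∑ s, d s + k + 1) ∈ Ideal.span (Set.range (ff F)) := by
    intro s
    have h3 : d s ≤ ∑ s, d s + k + 1 := by
      have := Finset.single_le_sum (f := d) (fun _ _ => Nat.zero_le _) (Finset.mem_univ s)
      omega
    obtain ⟨c, hc⟩ := Nat.exists_eq_add_of_le h3
    rw [hc, pow_add]
    exact Ideal.mul_mem_right _ _ (hd s)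
  have h3 : ∀ s : Fin n, ∃ c : Fin L → MvPolynomial (Fin n) ℂ,
      ∑ l, c l * ff F l = X s ^ (∑ s, d s + k + 1) := fun s =>
    Ideal.mem_span_range_iff_exists_fun.1 (h2 s)
  choose c hc using h3
  refine ⟨∑ s, d s + k + 1, fun s l => homogeneousComponent (∑ s, d s + k + 1 - k) (c s l),
    by omega, by omega, fun s l => homogeneousComponent_isHomogeneous _ _, fun s => ?_⟩
  have h4 := congrArg (homogeneousComponent (∑ s, d s + k + 1)) (hc s)
  rw [map_sum] at h4
  have h5 : homogeneousComponent (∑ s, d s + k + 1)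
      (X s ^ (∑ s, d s + k + 1) : MvPolynomial (Fin n) ℂ) = X s ^ (∑ s, d s + k + 1) :=
    homogeneousComponent_eq_self (isHomogeneous_X_pow s _)
  rw [h5] at h4
  rw [← h4]
  exact Finset.sum_congr rfl fun l _ => (hc_mul (by omega) _ _ (ff_hom F l)).symm

open MvPolynomial in
theorem exists_reg_poly {n k L : ℕ} (hk : 1 ≤ k) {F : Ix n k L → ℂ} (hF : Reg F) :
    ∃ m : MvPolynomial (Ix n k L) ℂ, MvPolynomial.eval F m ≠ 0 ∧
      ∀ T : Ix n k L → ℂ, MvPolynomial.eval T m ≠ 0 → Reg T := by
  classical
  obtain ⟨D, a, hkD, hD, ha, haF⟩ := exists_a hF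
  obtain ⟨N, hN⟩ : ∃ N, N = n * (D - 1) + 1 := ⟨_, rfl⟩
  have hsum : ∀ α : {x // x ∈ Finset.finsuppAntidiag (Finset.univ : Finset (Fin n)) N},
      ∑ i, α.1 i = N := fun α => (Finset.mem_finsuppAntidiag.1 α.2).1
  have hsel : ∀ α : {x // x ∈ Finset.finsuppAntidiag (Finset.univ : Finset (Fin n)) N},
      ∃ s, D ≤ α.1 s := by
    intro α
    have h1 : ∑ _i : Fin n, (D - 1) < ∑ i, α.1 i := by
      rw [hsum α, hN]
      simp
    obtain ⟨s, -, hs⟩ := Finset.exists_lt_of_sum_lt h1
    exact ⟨s, by omega⟩
  choose sel hsel using hsel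
  -- the polynomials of degree `N`
  obtain ⟨h, hh⟩ : ∃ h : {x // x ∈ Finset.finsuppAntidiag (Finset.univ : Finset (Fin n)) N} →
      (Ix n k L → ℂ) → MvPolynomial (Fin n) ℂ, h = fun α T =>
        monomial (α.1 - Finsupp.single (sel α) D) 1 * ∑ l, a (sel α) l * ff T l := ⟨_, rfl⟩
  have hhom : ∀ α T, (h α T).IsHomogeneous N := by
    intro α T
    have h1 : (Finsupp.degree (α.1 - Finsupp.single (sel α) D)) + D = N := by
      have h2 : Finsupp.single (sel α) D ≤ α.1 := by
        rw [Finsupp.single_le_iff]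
        exact hsel α
      have h3 : α.1 - Finsupp.single (sel α) D + Finsupp.single (sel α) D = α.1 :=
        tsub_add_cancel_of_le h2
      have h4 := congrArg Finsupp.degree h3
      rw [map_add, Finsupp.degree_single, Finsupp.degree_eq_sum α.1, hsum α] at h4
      exact h4
    have h5 : (∑ l, a (sel α) l * ff T l).IsHomogeneous D := by
      refine IsHomogeneous.sum _ _ _ fun l _ => ?_
      have := (ha (sel α) l).mul (ff_hom T l)
      rwa [Nat.sub_add_cancel hkD] at this
    have h6 := (isHomogeneous_monomial (d := α.1 - Finsupp.single (sel α) D) (1 : ℂ) rfl).mul h5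
    rw [h1] at h6
    rw [hh]
    exact h6
  -- the matrix
  obtain ⟨M, hM⟩ : ∃ M : Matrix {x // x ∈ Finset.finsuppAntidiag (Finset.univ : Finset (Fin n)) N}
      {x // x ∈ Finset.finsuppAntidiag (Finset.univ : Finset (Fin n)) N}
      (MvPolynomial (Ix n k L) ℂ), M = Matrix.of fun α β => ∑ p : Ix n k L, X p *
        C (coeff β.1 (monomial (α.1 - Finsupp.single (sel α) D) 1 *
          (a (sel α) p.2 * ∏ i, X (p.1 i)))) := ⟨_, rfl⟩
  have hev : ∀ (T : Ix n k L → ℂ) α β, eval T (M α β) = coeff β.1 (h α T) := by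
    intro T α β
    have h1 : h α T = ∑ p : Ix n k L, C (T p) * (monomial (α.1 - Finsupp.single (sel α) D) 1 *
        (a (sel α) p.2 * ∏ i, X (p.1 i))) := by
      rw [hh, Fintype.sum_prod_type_right]
      show monomial (α.1 - Finsupp.single (sel α) D) 1 * ∑ l, a (sel α) l * ff T l = _
      rw [Finset.mul_sum]
      refine Finset.sum_congr rfl fun l _ => ?_
      unfold ff
      rw [Finset.mul_sum, Finset.mul_sum]
      refine Finset.sum_congr rfl fun j _ => ?_
      ring
    rw [h1, coeff_sum, hM, Matrix.of_apply, map_sum]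
    refine Finset.sum_congr rfl fun p _ => ?_
    rw [map_mul, eval_X, eval_C, coeff_C_mul]
  have hdet : ∀ T : Ix n k L → ℂ, eval T M.det =
      (Matrix.of fun α β => coeff β.1 (h α T) :
        Matrix {x // x ∈ Finset.finsuppAntidiag (Finset.univ : Finset (Fin n)) N}
          {x // x ∈ Finset.finsuppAntidiag (Finset.univ : Finset (Fin n)) N} ℂ).det := by
    intro T
    rw [RingHom.map_det]
    apply congrArg
    ext α β
    rw [RingHom.mapMatrix_apply, Matrix.map_apply, Matrix.of_apply]
    exact hev T α β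
  refine ⟨M.det, ?_, fun T hT v hv => ?_⟩
  · rw [hdet F]
    have h1 : (Matrix.of fun α β => coeff β.1 (h α F) :
        Matrix {x // x ∈ Finset.finsuppAntidiag (Finset.univ : Finset (Fin n)) N}
          {x // x ∈ Finset.finsuppAntidiag (Finset.univ : Finset (Fin n)) N} ℂ) = 1 := by
      ext α β
      have h2 : h α F = monomial α.1 1 := by
        rw [hh]
        have h3 := haF (sel α)
        have h4 : Finsupp.single (sel α) D ≤ α.1 := by
          rw [Finsupp.single_le_iff]
          exact hsel α
        show monomial (α.1 - Finsupp.single (sel α) D) 1 * ∑ l, a (sel α) l * ff F l = _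
        rw [h3, X_pow_eq_monomial, monomial_mul, one_mul, tsub_add_cancel_of_le h4]
      rw [Matrix.of_apply, h2, coeff_monomial, Matrix.one_apply]
      by_cases hab : α = β
      · rw [if_pos hab, if_pos (congrArg Subtype.val hab)]
      · rw [if_neg hab, if_neg fun h => hab (Subtype.ext h)]
    rw [h1, Matrix.det_one]
    exact one_ne_zero
  · rw [hdet T] at hT
    have h1 : (Matrix.of fun α β => coeff β.1 (h α T) :
        Matrix {x // x ∈ Finset.finsuppAntidiag (Finset.univ : Finset (Fin n)) N}
          {x // x ∈ Finset.finsuppAntidiag (Finset.univ : Finset (Fin n)) N} ℂ).mulVec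
            (fun β => ∏ i, v i ^ β.1 i) = 0 := by
      funext α
      have h2 := eval_hom (h α T) (hhom α T) v
      have h3 : eval v (h α T) = 0 := by
        rw [hh]
        show eval v (monomial (α.1 - Finsupp.single (sel α) D) 1 *
          ∑ l, a (sel α) l * ff T l) = 0
        rw [map_mul, map_sum, Finset.sum_eq_zero, mul_zero]
        intro l _
        rw [map_mul, eval_ff, hv, Pi.zero_apply, mul_zero]
      rw [h3] at h2
      exact h2.symm
    have h2 := Matrix.eq_zero_of_mulVec_eq_zero hT h1
    funext s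
    have h3 : Finsupp.single s N ∈ Finset.finsuppAntidiag (Finset.univ : Finset (Fin n)) N := by
      rw [Finset.mem_finsuppAntidiag]
      refine ⟨?_, Finset.subset_univ _⟩
      rw [Finset.sum_eq_single s]
      · exact Finsupp.single_eq_same
      · intro b _ hb
        exact Finsupp.single_eq_of_ne hb
      · intro hs
        exact absurd (Finset.mem_univ s) hs
    have h4 := congrFun h2 ⟨Finsupp.single s N, h3⟩
    have h5 : ∏ i, v i ^ (Finsupp.single s N) i = v s ^ N := by
      rw [Finset.prod_eq_single s]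
      · rw [Finsupp.single_eq_same]
      · intro b _ hb
        rw [Finsupp.single_eq_of_ne hb, pow_zero]
      · intro hs
        exact absurd (Finset.mem_univ s) hs
    have h6 : v s ^ N = 0 := by
      rw [← h5]
      exact h4
    exact pow_eq_zero_iff (by omega) |>.1 h6

end

end Pool.Agent.HOG
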