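import Pool.Agent.HOG.Act

/-!
# HOG/Uni: from unitary invariance to invariance

`g = A * diagonal σ * V` with `A`, `V` unitary and `σ > 0`; `P (act (A * diagonal (exp (s log σ)) * V) T)`
is an entire function of `s`, constant on the imaginary axis.
-/

open scoped BigOperators Topology ComplexOrder
open Filter Set

namespace Pool.Agent.HOG

noncomputable section

private theorem spec {n : ℕ} (g : Matrix (Fin n) (Fin n) ℂ) (hg : g.det ≠ 0) :
    ∃ (U : Matrix (Fin n) (Fin n) ℂ) (μ : Fin n → ℝ), U ∈ Matrix.unitaryGroup (Fin n) ℂ ∧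
      (∀ i, 0 < μ i) ∧
      g.conjTranspose * g = U * Matrix.diagonal (fun i => (μ i : ℂ)) * star U := by
  have hinj : Function.Injective g.mulVec :=
    Matrix.mulVec_injective_iff_isUnit.2 ((Matrix.isUnit_iff_isUnit_det g).2 (Ne.isUnit hg))
  have hpd : (g.conjTranspose * g).PosDef := Matrix.PosDef.conjTranspose_mul_self g hinj
  have h := hpd.1.spectral_theorem
  rw [Unitary.conjStarAlgAut_apply] at h
  exact ⟨hpd.1.eigenvectorUnitary, hpd.1.eigenvalues, hpd.1.eigenvectorUnitary.2,
    fun i => hpd.eigenvalues_pos i, h⟩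

private theorem svd {n : ℕ} (g : Matrix (Fin n) (Fin n) ℂ) (hg : g.det ≠ 0) :
    ∃ (A V : Matrix (Fin n) (Fin n) ℂ) (σ : Fin n → ℝ), A ∈ Matrix.unitaryGroup (Fin n) ℂ ∧
      V ∈ Matrix.unitaryGroup (Fin n) ℂ ∧ (∀ i, 0 < σ i) ∧
      g = A * Matrix.diagonal (fun i => (σ i : ℂ)) * V := by
  obtain ⟨U, μ, hUmem, hμ, hspec⟩ := spec g hg
  have hU1 : star U * U = 1 := Matrix.mem_unitaryGroup_iff'.1 hUmem
  have hU2 : U * star U = 1 := Matrix.mem_unitaryGroup_iff.1 hUmem
  set σ : Fin n → ℝ := fun i => Real.sqrt (μ i) with hσ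
  have hpos : ∀ i, 0 < σ i := fun i => Real.sqrt_pos.2 (hμ i)
  have hne : ∀ i, (σ i : ℂ) ≠ 0 := fun i => by exact_mod_cast (hpos i).ne'
  have hsq : ∀ i, (μ i : ℂ) = (σ i : ℂ) * (σ i : ℂ) := by
    intro i
    rw [← Complex.ofReal_mul, Real.mul_self_sqrt (hμ i).le]
  refine ⟨g * U * Matrix.diagonal (fun i => ((σ i : ℂ))⁻¹), star U, σ, ?_, ?_, hpos, ?_⟩
  · rw [Matrix.mem_unitaryGroup_iff']
    have h1 : star (g * U * Matrix.diagonal (fun i => ((σ i : ℂ))⁻¹)) =
        Matrix.diagonal (fun i => ((σ i : ℂ))⁻¹) * (star U * g.conjTranspose) := by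
      rw [star_mul, star_mul]
      congr 1
      rw [Matrix.star_eq_conjTranspose, Matrix.diagonal_conjTranspose]
      congr 1
      funext i
      simp
    rw [h1]
    calc Matrix.diagonal (fun i => ((σ i : ℂ))⁻¹) * (star U * g.conjTranspose) *
          (g * U * Matrix.diagonal (fun i => ((σ i : ℂ))⁻¹))
        = Matrix.diagonal (fun i => ((σ i : ℂ))⁻¹) * star U * (g.conjTranspose * g) * U *
          Matrix.diagonal (fun i => ((σ i : ℂ))⁻¹) := by simp only [Matrix.mul_assoc]
      _ = Matrix.diagonal (fun i => ((σ i : ℂ))⁻¹) * (star U * U) *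
          Matrix.diagonal (fun i => (μ i : ℂ)) * (star U * U) *
          Matrix.diagonal (fun i => ((σ i : ℂ))⁻¹) := by
          rw [hspec]
          simp only [Matrix.mul_assoc]
      _ = 1 := by
          rw [hU1, Matrix.mul_one, Matrix.mul_one, Matrix.diagonal_mul_diagonal,
            Matrix.diagonal_mul_diagonal, ← Matrix.diagonal_one]
          congr 1
          funext i
          rw [hsq]
          field_simp [hne i]
  · exact Unitary.star_mem hUmem
  · rw [Matrix.mul_assoc (g * U), Matrix.diagonal_mul_diagonal]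
    have h2 : (Matrix.diagonal fun i => ((σ i : ℂ))⁻¹ * (σ i : ℂ)) =
        (1 : Matrix (Fin n) (Fin n) ℂ) := by
      rw [← Matrix.diagonal_one]
      congr 1
      funext i
      exact inv_mul_cancel₀ (hne i)
    rw [h2, Matrix.mul_one, Matrix.mul_assoc, hU2, Matrix.mul_one]

private theorem eval_diff {ι : Type} (x : ℂ → ι → ℂ) (hx : ∀ i, Differentiable ℂ fun s => x s i)
    (P : MvPolynomial ι ℂ) : Differentiable ℂ fun s => MvPolynomial.eval (x s) P := by
  induction P using MvPolynomial.induction_on with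
  | C a =>
    simp only [MvPolynomial.eval_C]
    exact differentiable_const a
  | add p q hp hq =>
    simp only [map_add]
    exact hp.add hq
  | mul_X p i hp =>
    simp only [map_mul, MvPolynomial.eval_X]
    exact hp.mul (hx i)

private theorem entire_const (f : ℂ → ℂ) (hf : Differentiable ℂ f) (c : ℂ)
    (h : ∀ r : ℝ, f (r * Complex.I) = c) (s : ℂ) : f s = c := by
  have h1 : AnalyticOnNhd ℂ f univ := hf.differentiableOn.analyticOnNhd isOpen_univ
  have h2 : AnalyticOnNhd ℂ (fun _ : ℂ => c) univ := analyticOnNhd_const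
  have h3 : ∃ᶠ z in 𝓝[≠] (0 : ℂ), f z = (fun _ : ℂ => c) z := by
    have h4 : Tendsto (fun k : ℕ => (((1 / ((k : ℝ) + 1) : ℝ)) : ℂ) * Complex.I) atTop
        (𝓝[≠] (0 : ℂ)) := by
      rw [tendsto_nhdsWithin_iff]
      constructor
      · have h5 : Tendsto (fun k : ℕ => (((1 / ((k : ℝ) + 1) : ℝ)) : ℂ)) atTop (𝓝 ((0 : ℝ) : ℂ)) :=
          (Complex.continuous_ofReal.tendsto 0).comp tendsto_one_div_add_atTop_nhds_zero_nat
        have h6 := h5.mul_const Complex.I
        rw [Complex.ofReal_zero, zero_mul] at h6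
        exact h6
      · refine Eventually.of_forall fun k => ?_
        show _ ≠ (0 : ℂ)
        refine mul_ne_zero ?_ Complex.I_ne_zero
        have : (1 / ((k : ℝ) + 1) : ℝ) ≠ 0 := by positivity
        exact_mod_cast this
    exact h4.frequently (Frequently.of_forall fun k => h _)
  have h7 := h1.eq_of_frequently_eq h2 h3
  exact congrFun h7 s

theorem invariant_of_unitary {n k L : ℕ} {c : ℕ} (hc : 1 ≤ c) (P : MvPolynomial (Ix n k L) ℂ)
    (hP : ∀ u ∈ Matrix.unitaryGroup (Fin n) ℂ, u.det ^ c = 1 → ∀ T : Ix n k L → ℂ,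
      MvPolynomial.eval (act u T) P = MvPolynomial.eval T P)
    (g : Matrix (Fin n) (Fin n) ℂ) (hg : g.det ^ c = 1) (T : Ix n k L → ℂ) :
    MvPolynomial.eval (act g T) P = MvPolynomial.eval T P := by
  have hc0 : c ≠ 0 := by omega
  have hdet : g.det ≠ 0 := by
    intro h0
    rw [h0, zero_pow hc0] at hg
    exact zero_ne_one hg
  obtain ⟨A, V, σ, hA, hV, hσ, hgf⟩ := svd g hdet
  have hnorm : ‖g.det‖ = 1 := by
    have h1 : ‖g.det‖ ^ c = 1 := by rw [← norm_pow, hg, norm_one]
    exact (pow_eq_one_iff_of_nonneg (norm_nonneg _) hc0).1 h1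
  have hAn : ‖A.det‖ = 1 := CStarRing.norm_of_mem_unitary (Matrix.det_of_mem_unitary hA)
  have hVn : ‖V.det‖ = 1 := CStarRing.norm_of_mem_unitary (Matrix.det_of_mem_unitary hV)
  have hgdet : g.det = A.det * (∏ i, (σ i : ℂ)) * V.det := by
    rw [hgf, Matrix.det_mul, Matrix.det_mul, Matrix.det_diagonal]
  have hprod : ∏ i, σ i = 1 := by
    have h1 := hnorm
    rw [hgdet, norm_mul, norm_mul, hAn, hVn, one_mul, mul_one, ← Complex.ofReal_prod,
      Complex.norm_real, Real.norm_eq_abs,
      abs_of_pos (Finset.prod_pos fun i _ => hσ i)] at h1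
    exact h1
  have hsum : ∑ i, Real.log (σ i) = 0 := by
    rw [← Real.log_prod (fun i _ => (hσ i).ne'), hprod, Real.log_one]
  have hgdet' : g.det = A.det * V.det := by
    rw [hgdet, ← Complex.ofReal_prod, hprod, Complex.ofReal_one, mul_one]
  set d : ℂ → Fin n → ℂ := fun s i => Complex.exp (s * (Real.log (σ i) : ℂ)) with hd
  set f : ℂ → ℂ := fun s => MvPolynomial.eval (act (A * Matrix.diagonal (d s) * V) T) P with hf
  have hfd : Differentiable ℂ f := by
    refine eval_diff (fun s => act (A * Matrix.diagonal (d s) * V) T) (fun p => ?_) P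
    unfold act
    refine Differentiable.fun_sum fun j _ => ?_
    refine Differentiable.mul ?_ (differentiable_const _)
    refine Differentiable.fun_finsetProd fun a _ => ?_
    have hent : (fun s => (A * Matrix.diagonal (d s) * V) (j a) (p.1 a)) =
        fun s => ∑ l, A (j a) l * d s l * V l (p.1 a) := by
      funext s
      rw [Matrix.mul_apply]
      refine Finset.sum_congr rfl fun l _ => ?_
      rw [Matrix.mul_diagonal]
    rw [hent]
    refine Differentiable.fun_sum fun l _ => ?_
    refine Differentiable.mul (Differentiable.mul (differentiable_const _) ?_)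
      (differentiable_const _)
    exact (differentiable_id.mul (differentiable_const _)).cexp
  have hconst : ∀ r : ℝ, f (r * Complex.I) = MvPolynomial.eval T P := by
    intro r
    refine hP _ ?_ ?_ T
    · refine mul_mem (mul_mem hA ?_) hV
      rw [Matrix.mem_unitaryGroup_iff', Matrix.star_eq_conjTranspose,
        Matrix.diagonal_conjTranspose, Matrix.diagonal_mul_diagonal, ← Matrix.diagonal_one]
      congr 1
      funext i
      show (starRingEnd ℂ) (d (r * Complex.I) i) * d (r * Complex.I) i = 1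
      rw [hd]
      simp only
      rw [← Complex.exp_conj, ← Complex.exp_add, map_mul, map_mul, Complex.conj_ofReal,
        Complex.conj_I, Complex.conj_ofReal]
      have : (r : ℂ) * -Complex.I * (Real.log (σ i) : ℂ) +
          (r : ℂ) * Complex.I * (Real.log (σ i) : ℂ) = 0 := by ring
      rw [this, Complex.exp_zero]
    · have h1 : ∏ i, d (r * Complex.I) i = 1 := by
        rw [hd]
        simp only
        rw [← Complex.exp_sum, ← Finset.mul_sum, ← Complex.ofReal_sum, hsum, Complex.ofReal_zero,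
          mul_zero, Complex.exp_zero]
      rw [Matrix.det_mul, Matrix.det_mul, Matrix.det_diagonal, h1, mul_one, ← hgdet', hg]
  have h1 := entire_const f hfd _ hconst 1
  have h2 : d 1 = fun i => (σ i : ℂ) := by
    funext i
    rw [hd]
    simp only
    rw [one_mul, ← Complex.ofReal_exp, Real.exp_log (hσ i)]
  rw [hf] at h1
  simp only at h1
  rw [h2, ← hgf] at h1
  exact h1

end

end Pool.Agent.HOG
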