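import Pool.Agent.HOG.Orb
import Pool.Agent.HOG.RegO
import Pool.Agent.HOG.Avg
import Pool.Agent.HOG.Uni
import Pool.Agent.HOG.Dec

/-!
# HOG/Sep: semi-invariants separate regular tensors

PLAN.  `exists_weight`: if `n = 0` take `P = 1`, `c = 1`.  Otherwise `0 : Ix n k L → ℂ` is not
`act g F` with `g.det ^ 1 = 1` (otherwise `diag F (g.mulVec v) = 0` for all `v`, so `g = 0`), so
`closed_orbit` with `c = 1` gives `m` vanishing at all `act g F`, `g.det = 1`, with `m (0) ≠ 0`;
`h = 1 - C (m(0))⁻¹ * m` is `1` on the orbit of `F` and `0` at `0`.  `exists_average` (with `c = 1`)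
and `invariant_of_unitary`: `P` invariant, `P(F) = 1`, `P(0) = 0` (`act u 0 = 0`).
`exists_weights`: `P = Σ_j Q j`, some `Q j` has `Q j (F) ≠ Q j (0)`; `j ≥ 1`: for `j = 0`, weight `0`,
`Q 0 (t ^ k F) = Q 0 (F)` for all `t ≠ 0` (`act_smul`), so by continuity at `t = 0`,
`Q 0 (F) = Q 0 (0)`; and for `j ≥ 1`, `Q j (0) = 0` by the same argument (`t ^ (n j) Q j (0) = Q j (0)`
for all `t ≠ 0`, as `act (t • 1) 0 = 0`, `n ≥ 1`).
`separation`: suppose `Φ` is not `act g F` with `g.det ^ c = 1`.  `J_T` = the ideal of the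
polynomials vanishing at all `act g T`, `g.det ^ c = 1`.  Case A: all `m ∈ J_Φ` vanish at `F`.  By
`exists_reg_poly` there is `m` with `m(F) ≠ 0` and `m(T) ≠ 0 → Reg T`; `m ∉ J_Φ`, so
`m (act g Φ) ≠ 0` for some `g` with `g.det ^ c = 1`, `act g Φ` is regular, so is `Φ` (`diag_act`, `g`
invertible), and `closed_orbit` for `Φ` gives `F = act g Φ`, `g.det ^ c = 1`; then
`Φ = act g⁻¹ F` (`act_mul`, `act_one`): contradiction.  Case B: some `h₀ ∈ J_Φ` has `h₀(F) ≠ 0`.  The
ideal `J_Φ + J_F` is the whole ring: otherwise it is in a maximal ideal, the vanishing ideal of a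
point `Ψ` (`MvPolynomial.isMaximal_iff_eq_vanishingIdeal_singleton`); `J_F` vanishes at `Ψ`, so
`Ψ = act g F`, `g.det ^ c = 1` (`closed_orbit`); the polynomial `h_g (T) = h₀ (act g⁻¹ T)` (substitute
linear forms: `MvPolynomial.bind₁`/`aeval`) is in `J_Φ` and `h_g (Ψ) = h₀(F) ≠ 0`: contradiction.
So `1 = h₁ + h₂`, `h₁ ∈ J_Φ`, `h₂ ∈ J_F`: `h₁` is `0` on the orbit of `Φ` and `1` on that of `F`.
`exists_average` (with `c`), `invariant_of_unitary`: `P` invariant, `P(Φ) = 0`, `P(F) = 1`;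
`exists_weights` and the hypothesis `h` for each `Q j` give `P(Φ) = P(F)`: contradiction.
-/

open scoped BigOperators Topology
open Filter Set

namespace Pool.Agent.HOG

noncomputable section

private theorem aev {σ : Type} (x : σ → ℂ) (m : MvPolynomial σ ℂ) :
    MvPolynomial.aeval x m = MvPolynomial.eval x m := rfl

private theorem act_zero {n k L : ℕ} (g : Matrix (Fin n) (Fin n) ℂ) :
    act g (0 : Ix n k L → ℂ) = 0 := by
  funext p
  simp [act]

private theorem eval_bind {n k L : ℕ} (g : Matrix (Fin n) (Fin n) ℂ) (h : MvPolynomial (Ix n k L) ℂ) :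
    ∃ h' : MvPolynomial (Ix n k L) ℂ, ∀ T : Ix n k L → ℂ,
      MvPolynomial.eval T h' = MvPolynomial.eval (act g T) h := by
  refine ⟨MvPolynomial.bind₁ (fun p : Ix n k L => ∑ j : Fin k → Fin n,
    MvPolynomial.C (∏ a, g (j a) (p.1 a)) * MvPolynomial.X (j, p.2)) h, fun T => ?_⟩
  have h1 := MvPolynomial.aeval_bind₁ (R := ℂ) T (fun p : Ix n k L => ∑ j : Fin k → Fin n,
    MvPolynomial.C (∏ a, g (j a) (p.1 a)) * MvPolynomial.X (j, p.2)) h
  have h2 : (fun i : Ix n k L => (MvPolynomial.aeval T : MvPolynomial (Ix n k L) ℂ →ₐ[ℂ] ℂ)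
      (∑ j : Fin k → Fin n, MvPolynomial.C (∏ a, g (j a) (i.1 a)) * MvPolynomial.X (j, i.2))) =
      act g T := by
    funext i
    simp [act]
  rw [h2, aev, aev] at h1
  exact h1

private theorem inv_det {n : ℕ} {c : ℕ} (hc : 1 ≤ c) {g : Matrix (Fin n) (Fin n) ℂ}
    (hg : g.det ^ c = 1) : g * g⁻¹ = 1 ∧ g⁻¹ * g = 1 ∧ (g⁻¹).det ^ c = 1 := by
  have h0 : g.det ≠ 0 := by
    intro h
    rw [h, zero_pow (by omega)] at hg
    exact zero_ne_one hg
  have hu : IsUnit g.det := isUnit_iff_ne_zero.mpr h0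
  refine ⟨Matrix.mul_nonsing_inv g hu, Matrix.nonsing_inv_mul g hu, ?_⟩
  rw [Matrix.det_nonsing_inv, Ring.inverse_eq_inv', inv_pow, hg, inv_one]

private theorem inv_act {n k L : ℕ} {c : ℕ} (hc : 1 ≤ c) {g : Matrix (Fin n) (Fin n) ℂ}
    (hg : g.det ^ c = 1) (T : Ix n k L → ℂ) : act g⁻¹ (act g T) = T := by
  rw [← act_mul, (inv_det hc hg).1, act_one]

theorem exists_weight {n k L : ℕ} (hk : 1 ≤ k) {F : Ix n k L → ℂ} (hF : Reg F) :
    ∃ c : ℕ, 1 ≤ c ∧ ∃ P : MvPolynomial (Ix n k L) ℂ, Wt c P ∧ MvPolynomial.eval F P ≠ 0 := by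
  rcases Nat.eq_zero_or_pos n with hn | hn
  · subst hn
    refine ⟨1, le_rfl, 1, ?_, ?_⟩
    · intro g _ T
      rw [map_one, map_one, Matrix.det_isEmpty, one_pow, one_mul]
    · rw [map_one]
      exact one_ne_zero
  · have hno : ¬ ∃ g : Matrix (Fin n) (Fin n) ℂ, g.det ^ 1 = 1 ∧ (0 : Ix n k L → ℂ) = act g F := by
      rintro ⟨g, hg, h0⟩
      have h2 : ∀ v, g.mulVec v = 0 := fun v => hF _ (by
        rw [← diag_act, ← h0]
        funext l
        simp [diag])
      have h3 : g = 0 := by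
        ext a b
        have h4 := congrFun (h2 (Pi.single b 1)) a
        simpa using h4
      have : Nonempty (Fin n) := ⟨⟨0, hn⟩⟩
      rw [h3, Matrix.det_zero, pow_one] at hg
      exact zero_ne_one hg
    have hm : ∃ m : MvPolynomial (Ix n k L) ℂ, (∀ g : Matrix (Fin n) (Fin n) ℂ, g.det ^ 1 = 1 →
        MvPolynomial.eval (act g F) m = 0) ∧ MvPolynomial.eval 0 m ≠ 0 := by
      by_contra hcon
      push Not at hcon
      exact hno (closed_orbit hk hF le_rfl hcon)
    obtain ⟨m, hm1, hm2⟩ := hm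
    obtain ⟨P, hP1, hP2⟩ := exists_average (n := n) (k := k) (L := L) 1
      (1 - MvPolynomial.C (MvPolynomial.eval 0 m)⁻¹ * m)
    have hPF : MvPolynomial.eval F P = 1 := by
      refine hP2 F 1 fun u _ hu => ?_
      rw [map_sub, map_one, map_mul, hm1 u hu, mul_zero, sub_zero]
    have hP0 : MvPolynomial.eval 0 P = 0 := by
      refine hP2 0 0 fun u _ _ => ?_
      rw [act_zero, map_sub, map_one, map_mul, MvPolynomial.eval_C, inv_mul_cancel₀ hm2, sub_self]
    obtain ⟨J, Q, hQ, hW⟩ := exists_weights le_rfl P (invariant_of_unitary le_rfl P hP1)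
    have hj : ∃ j ∈ Finset.range J, MvPolynomial.eval F (Q j) ≠ MvPolynomial.eval 0 (Q j) := by
      by_contra hcon
      push Not at hcon
      have h1 : MvPolynomial.eval F P = MvPolynomial.eval 0 P := by
        rw [hQ, map_sum, map_sum]
        exact Finset.sum_congr rfl hcon
      rw [hPF, hP0] at h1
      exact one_ne_zero h1
    obtain ⟨j, -, hj⟩ := hj
    have hWj : Wt j (Q j) := by
      have := hW j
      rwa [one_mul] at this
    have hdet : ∀ t : ℂ, (t • (1 : Matrix (Fin n) (Fin n) ℂ)).det = t ^ n := by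
      intro t
      rw [Matrix.det_smul, Matrix.det_one, mul_one, Fintype.card_fin]
    rcases Nat.eq_zero_or_pos j with hj0 | hj0
    · exfalso
      subst hj0
      refine hj ?_
      have hcont : Continuous fun t : ℂ => MvPolynomial.eval (t ^ k • F) (Q 0) :=
        (MvPolynomial.continuous_eval (Q 0)).comp ((continuous_pow k).smul continuous_const)
      have heq : (fun t : ℂ => MvPolynomial.eval (t ^ k • F) (Q 0)) =
          fun _ => MvPolynomial.eval F (Q 0) := by
        refine Continuous.ext_on (dense_compl_singleton (0 : ℂ)) hcont continuous_const ?_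
        intro t ht
        have ht0 : t ≠ 0 := ht
        have h1 := hWj (t • 1) (by rw [hdet]; exact pow_ne_zero _ ht0) F
        rw [act_smul, pow_zero, one_mul] at h1
        exact h1
      have h2 := congrFun heq 0
      simp only [zero_pow (show k ≠ 0 by omega), zero_smul] at h2
      exact h2.symm
    · refine ⟨j, hj0, Q j, hWj, ?_⟩
      have h0 : MvPolynomial.eval 0 (Q j) = 0 := by
        have h1 := hWj ((2 : ℂ) • 1) (by rw [hdet]; exact pow_ne_zero _ two_ne_zero) 0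
        rw [act_zero, hdet, ← pow_mul] at h1
        have h2 : ((2 : ℂ) ^ (n * j) - 1) * MvPolynomial.eval 0 (Q j) = 0 := by
          rw [sub_mul, one_mul, ← h1, sub_self]
        rcases mul_eq_zero.mp h2 with h3 | h3
        · exfalso
          have h4 : ((2 : ℂ)) ^ (n * j) = 1 := sub_eq_zero.mp h3
          have h5 : (2 : ℕ) ^ (n * j) = 1 := by exact_mod_cast h4
          have h6 : 1 < (2 : ℕ) ^ (n * j) := Nat.one_lt_two_pow (Nat.mul_ne_zero (by omega) (by omega))
          omega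
        · exact h3
      rw [h0] at hj
      exact hj

theorem separation {n k L : ℕ} (hk : 1 ≤ k) {F Φ : Ix n k L → ℂ} (hF : Reg F) {c : ℕ}
    (hc : 1 ≤ c) (h : ∀ (j : ℕ) (P : MvPolynomial (Ix n k L) ℂ), Wt (c * j) P →
      MvPolynomial.eval Φ P = MvPolynomial.eval F P) :
    ∃ g : Matrix (Fin n) (Fin n) ℂ, g.det ^ c = 1 ∧ Φ = act g F := by
  by_contra hno
  obtain ⟨J, hJ⟩ : ∃ J : (Ix n k L → ℂ) → Ideal (MvPolynomial (Ix n k L) ℂ), ∀ T m, m ∈ J T ↔
      ∀ g : Matrix (Fin n) (Fin n) ℂ, g.det ^ c = 1 → MvPolynomial.eval (act g T) m = 0 := by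
    refine ⟨fun T => MvPolynomial.vanishingIdeal ℂ
      {x | ∃ g : Matrix (Fin n) (Fin n) ℂ, g.det ^ c = 1 ∧ x = act g T}, fun T m => ?_⟩
    rw [MvPolynomial.mem_vanishingIdeal_iff]
    constructor
    · intro hm g hg
      have := hm (act g T) ⟨g, hg, rfl⟩
      rwa [aev] at this
    · rintro hm x ⟨g, hg, rfl⟩
      rw [aev]
      exact hm g hg
  by_cases hA : ∀ m ∈ J Φ, MvPolynomial.eval F m = 0
  · obtain ⟨m, hm1, hm2⟩ := exists_reg_poly hk hF
    have hm3 : m ∉ J Φ := fun hm => hm1 (hA m hm)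
    rw [hJ] at hm3
    push Not at hm3
    obtain ⟨g, hg, hg2⟩ := hm3
    have hreg := hm2 _ hg2
    have hΦ : Reg Φ := by
      intro v hv
      have h1 : g.mulVec (g⁻¹.mulVec v) = v := by
        rw [Matrix.mulVec_mulVec, (inv_det hc hg).1, Matrix.one_mulVec]
      have h2 : g⁻¹.mulVec v = 0 := hreg _ (by rw [diag_act, h1]; exact hv)
      rw [← h1, h2, Matrix.mulVec_zero]
    obtain ⟨g', hg', hFg⟩ := closed_orbit hk hΦ hc (Ψ := F) (fun m hm => hA m ((hJ Φ m).mpr hm))
    refine hno ⟨g'⁻¹, (inv_det hc hg').2.2, ?_⟩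
    rw [hFg, inv_act hc hg']
  · push Not at hA
    obtain ⟨h₀, hh0, hh1⟩ := hA
    have htop : J Φ ⊔ J F = ⊤ := by
      by_contra htop
      obtain ⟨M, hM, hle⟩ := Ideal.exists_le_maximal _ htop
      obtain ⟨Ψ, hΨ⟩ := MvPolynomial.isMaximal_iff_eq_vanishingIdeal_singleton.mp hM
      have hev : ∀ m ∈ M, MvPolynomial.eval Ψ m = 0 := by
        intro m hm
        rw [hΨ, MvPolynomial.mem_vanishingIdeal_singleton_iff, aev] at hm
        exact hm
      obtain ⟨g, hg, hgF⟩ := closed_orbit hk hF hc (Ψ := Ψ)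
        (fun m hm => hev m (hle (Ideal.mem_sup_right ((hJ F m).mpr hm))))
      obtain ⟨hg1, hg2, hg3⟩ := inv_det hc hg
      obtain ⟨h', hh'⟩ := eval_bind (g⁻¹) h₀
      have h1 : h' ∈ J Φ := by
        rw [hJ]
        intro g' hg'
        rw [hh', ← act_mul]
        refine (hJ Φ h₀).mp hh0 (g' * g⁻¹) ?_
        rw [Matrix.det_mul, mul_pow, hg', hg3, one_mul]
      have h2 := hev h' (hle (Ideal.mem_sup_left h1))
      rw [hh', hgF, inv_act hc hg] at h2
      exact hh1 h2
    have h1 : (1 : MvPolynomial (Ix n k L) ℂ) ∈ J Φ ⊔ J F := by rw [htop]; trivial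
    obtain ⟨h₁, hh1, h₂, hh2, h12⟩ := Submodule.mem_sup.mp h1
    obtain ⟨P, hP1, hP2⟩ := exists_average (n := n) (k := k) (L := L) c h₁
    have hPΦ : MvPolynomial.eval Φ P = 0 := hP2 Φ 0 fun u _ hu => (hJ Φ h₁).mp hh1 u hu
    have hPF : MvPolynomial.eval F P = 1 := by
      refine hP2 F 1 fun u _ hu => ?_
      have h3 := congrArg (MvPolynomial.eval (act u F)) h12
      rw [map_add, (hJ F h₂).mp hh2 u hu, add_zero, map_one] at h3
      exact h3
    obtain ⟨K, Q, hQ, hW⟩ := exists_weights hc P (invariant_of_unitary hc P hP1)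
    have h4 : MvPolynomial.eval Φ P = MvPolynomial.eval F P := by
      rw [hQ, map_sum, map_sum]
      exact Finset.sum_congr rfl fun j _ => h j (Q j) (hW j)
    rw [hPΦ, hPF] at h4
    exact zero_ne_one h4

end

end Pool.Agent.HOG
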