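import Pool.Agent.HOG.SPm
import Pool.Agent.HOG.Sep
import Pool.Agent.HOA.KMain

/-!
# HOG/PtC: the tensors have the same type at all points

Semi-invariants of the tensors are constant multiples of powers of one section without zeros; `separation`.
-/

open scoped Manifold ContDiff Topology BigOperators
open Set Metric Filter

namespace Pool.Agent.HOG

open Pool.Agent.HOA

noncomputable section

variable {E : Type} [NormedAddCommGroup E] [NormedSpace ℂ E] [FiniteDimensional ℂ E]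
variable {M : Type} [TopologicalSpace M] [T2Space M] [CompactSpace M] [ChartedSpace E M]
  [IsManifold 𝓘(ℂ, E) ω M]
variable {f : Diffeomorph 𝓘(ℂ, E) 𝓘(ℂ, E) M M ω} {N : (x : M) → TangentSpace 𝓘(ℂ, E) x → ℝ}
  {Es Eu : (x : M) → Submodule ℝ (TangentSpace 𝓘(ℂ, E) x)} {C ν : ℝ}

private theorem pt_inv {n : ℕ} {g : Matrix (Fin n) (Fin n) ℂ} (hg : g.det ≠ 0) : g * g⁻¹ = 1 :=
  Matrix.mul_nonsing_inv g (isUnit_iff_ne_zero.mpr hg)

private theorem pt_reg {n k L : ℕ} {g : Matrix (Fin n) (Fin n) ℂ} (hg : g.det ≠ 0)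
    {F : Ix n k L → ℂ} (h : Reg (act g F)) : Reg F := by
  intro v hv
  have h1 : g.mulVec (g⁻¹.mulVec v) = v := by
    rw [Matrix.mulVec_mulVec, pt_inv hg, Matrix.one_mulVec]
  have h2 : g⁻¹.mulVec v = 0 := h _ (by rw [diag_act, h1]; exact hv)
  rw [← h1, h2, Matrix.mulVec_zero]

private theorem pt_det {n : ℕ} (hn : 0 < n) (s : ℂ) :
    ∃ g : Matrix (Fin n) (Fin n) ℂ, g.det = s := by
  refine ⟨Matrix.diagonal (Function.update (fun _ => 1) ⟨0, hn⟩ s), ?_⟩
  rw [Matrix.det_diagonal, Finset.prod_update_of_mem (Finset.mem_univ _), Finset.prod_const_one, mul_one]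

private theorem pt_pow {n k L : ℕ} {c : ℕ} {P : MvPolynomial (Ix n k L) ℂ} (hP : Wt c P) (j : ℕ) :
    Wt (c * j) (P ^ j) := by
  intro g hg T
  rw [map_pow, map_pow, hP g hg T, mul_pow, pow_mul]

theorem exists_frame [ConnectedSpace M] (h : Hyp f N Es Eu C ν) {n k L : ℕ} (hk : 1 ≤ k)
    (hn : Module.finrank ℂ E = n) (τ : Fin L → HT E M k) {x₁ : M}
    {v₁ : Fin n → TangentSpace 𝓘(ℂ, E) x₁} (hreg : Reg (tup τ x₁ v₁)) (x : M) :
    ∃ v : Fin n → TangentSpace 𝓘(ℂ, E) x, tup τ x v = tup τ x₁ v₁ := by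
  rcases Nat.eq_zero_or_pos n with hn0 | hn0
  · subst hn0
    refine ⟨fun i => i.elim0, ?_⟩
    funext p
    exact (p.1 ⟨0, hk⟩).elim0
  · obtain ⟨β⟩ : Nonempty (Module.Basis (Fin n) ℂ E) := ⟨Module.finBasisOfFinrankEq ℂ E hn⟩
    obtain ⟨T, hT⟩ : ∃ T : M → Ix n k L → ℂ, ∀ y, T y = tup τ y (fun i => β i) := ⟨_, fun _ => rfl⟩
    obtain ⟨Bf, hBT, hBL⟩ : ∃ Bf : (y : M) → Fin n → TangentSpace 𝓘(ℂ, E) y,
        (∀ y, T y = tup τ y (Bf y)) ∧ ∀ y, LinearIndependent ℂ (Bf y) :=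
      ⟨fun _ i => β i, fun y => hT y, fun _ => β.linearIndependent⟩
    obtain ⟨g₁, hg₁, hg₁'⟩ := exists_fmul hn (hBL x₁) v₁
    have hdet₁ := hg₁' (tup_indep hk hreg)
    have hF : tup τ x₁ v₁ = act g₁ (T x₁) := by
      rw [hg₁, tup_fmul, hBT]
    have hR : Reg (T x₁) := by
      rw [hF] at hreg
      exact pt_reg hdet₁ hreg
    obtain ⟨c, hc, P₀, hP₀, hne⟩ := exists_weight hk hR
    have hks : ∀ (m : ℕ) (P : MvPolynomial (Ix n k L) ℂ), Wt m P →
        (fun y : M => MvPolynomial.eval (T y) P) ∈ (KS E (m : ℤ) : Submodule ℂ (M → ℂ)) := by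
      intro m P hP
      have h1 := eval_mem_ks (M := M) β τ hP
      have h2 : (fun y : M => MvPolynomial.eval (T y) P) =
          fun y : M => MvPolynomial.eval (tup τ y (fun i => β i)) P := by
        funext y
        rw [hT]
      rw [h2]
      exact h1
    have hS₀ := (canonical_main h (m := (c : ℤ)) (by exact_mod_cast hc) (hks c P₀ hP₀)
      (fun h0 => hne (congrFun h0 x₁))).1
    have hx := hS₀ x
    obtain ⟨s, hs⟩ := IsAlgClosed.exists_pow_nat_eq
      (MvPolynomial.eval (T x₁) P₀ / MvPolynomial.eval (T x) P₀) (Nat.lt_of_lt_of_le Nat.zero_lt_one hc)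
    have hs0 : s ≠ 0 := by
      rintro rfl
      rw [zero_pow (by omega)] at hs
      exact div_ne_zero hne hx hs.symm
    obtain ⟨g, hg⟩ := pt_det hn0 s
    have hgd : g.det ≠ 0 := by rw [hg]; exact hs0
    have hgc : g.det ^ c * MvPolynomial.eval (T x) P₀ = MvPolynomial.eval (T x₁) P₀ := by
      rw [hg, hs, div_mul_cancel₀ _ hx]
    obtain ⟨g', hg', hΦ⟩ := separation (Φ := act g (T x)) hk hR hc (by
      intro j P hP
      have h3 := hks (c * j) (P₀ ^ j) (pt_pow hP₀ j)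
      have h4 := hks (c * j) P hP
      obtain ⟨a, ha⟩ := ks_unique h3 (fun y => by
        show MvPolynomial.eval (T y) (P₀ ^ j) ≠ 0
        rw [map_pow]
        exact pow_ne_zero _ (hS₀ y)) h4
      have ha' : ∀ y : M, MvPolynomial.eval (T y) P = a * MvPolynomial.eval (T y) P₀ ^ j := by
        intro y
        have h5 := congrFun ha y
        rw [Pi.smul_apply, smul_eq_mul, map_pow] at h5
        exact h5
      rw [hP g hgd, ha' x, ha' x₁, ← hgc, mul_pow, ← pow_mul]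
      ring)
    have hg'0 : g'.det ≠ 0 := by
      intro h0
      rw [h0, zero_pow (by omega)] at hg'
      exact zero_ne_one hg'
    refine ⟨fmul (fmul (Bf x) (g * g'⁻¹)) g₁, ?_⟩
    have h7 : act (g * g'⁻¹) (T x) = T x₁ := by
      rw [act_mul, hΦ, ← act_mul, pt_inv hg'0, act_one]
    rw [tup_fmul, tup_fmul, ← hBT, h7, hF]

end

end Pool.Agent.HOG
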