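import Pool.Agent.HOG.TDefs

/-!
# HOG/TAlg: algebra of frames and tuples of tensors

Multilinear expansions: how the coordinates of a tuple of tensors change with the frame.
-/

open scoped Manifold ContDiff Topology BigOperators
open Set Metric Filter

namespace Pool.Agent.HOG

open Pool.Agent.HOA

noncomputable section

variable {E : Type} [NormedAddCommGroup E] [NormedSpace ℂ E] [FiniteDimensional ℂ E]
variable {M : Type} [TopologicalSpace M] [T2Space M] [CompactSpace M] [ChartedSpace E M]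
  [IsManifold 𝓘(ℂ, E) ω M]

private theorem expand {k n : ℕ} {V : Type} [AddCommGroup V] [Module ℂ V]
    (f : MultilinearMap ℂ (fun _ : Fin k => V) ℂ) (v : Fin n → V) (g : Fin k → Fin n → ℂ) :
    f (fun a => ∑ j, g a j • v j) =
      ∑ j : Fin k → Fin n, (∏ a, g a (j a)) * f (fun a => v (j a)) := by
  rw [MultilinearMap.map_sum]
  refine Finset.sum_congr rfl fun j _ => ?_
  rw [MultilinearMap.map_smul_univ f (fun a => g a (j a)) (fun a => v (j a)), smul_eq_mul]

private theorem diag_zero' {n k L : ℕ} (hk : 1 ≤ k) (F : Ix n k L → ℂ) : diag F 0 = 0 := by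
  funext l
  unfold diag
  refine Finset.sum_eq_zero fun j _ => ?_
  rw [Finset.prod_eq_zero (Finset.mem_univ (⟨0, hk⟩ : Fin k)) rfl, zero_mul]

theorem tup_fmul {k L n : ℕ} (τ : Fin L → HT E M k) (x : M) (v : Fin n → TangentSpace 𝓘(ℂ, E) x)
    (g : Matrix (Fin n) (Fin n) ℂ) : tup τ x (fmul v g) = act g (tup τ x v) := by
  funext p
  exact expand ((τ p.2).1 x) v fun a j => g j (p.1 a)

theorem diag_tup {k L n : ℕ} (τ : Fin L → HT E M k) (x : M) (v : Fin n → TangentSpace 𝓘(ℂ, E) x)
    (t : Fin n → ℂ) (l : Fin L) :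
    diag (tup τ x v) t l = (τ l).1 x (fun _ => ∑ i, t i • v i) := by
  exact (expand ((τ l).1 x) v fun _ j => t j).symm

theorem tup_indep {k L n : ℕ} (hk : 1 ≤ k) {τ : Fin L → HT E M k} {x : M}
    {v : Fin n → TangentSpace 𝓘(ℂ, E) x} (h : Reg (tup τ x v)) : LinearIndependent ℂ v := by
  rw [Fintype.linearIndependent_iff]
  intro t ht
  have h1 : t = 0 := by
    refine h t (funext fun l => ?_)
    rw [diag_tup, ht]
    exact ((τ l).1 x).map_coord_zero (⟨0, hk⟩ : Fin k) rfl
  intro i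
  rw [h1]
  rfl

theorem fmul_mul {n : ℕ} {V : Type} [AddCommGroup V] [Module ℂ V] (v : Fin n → V)
    (g h : Matrix (Fin n) (Fin n) ℂ) : fmul (fmul v g) h = fmul v (g * h) := by
  funext i
  simp only [fmul, Finset.smul_sum, smul_smul, Matrix.mul_apply, Finset.sum_smul]
  rw [Finset.sum_comm]
  refine Finset.sum_congr rfl fun a _ => Finset.sum_congr rfl fun b _ => ?_
  rw [mul_comm]

theorem fmul_one {n : ℕ} {V : Type} [AddCommGroup V] [Module ℂ V] (v : Fin n → V) :
    fmul v (1 : Matrix (Fin n) (Fin n) ℂ) = v := by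
  funext i
  simp only [fmul, Matrix.one_apply, ite_smul, one_smul, zero_smul, Finset.sum_ite_eq',
    Finset.mem_univ, if_true]

theorem fmul_inj {n : ℕ} {V : Type} [AddCommGroup V] [Module ℂ V] {v : Fin n → V}
    (hv : LinearIndependent ℂ v) {g h : Matrix (Fin n) (Fin n) ℂ} (hgh : fmul v g = fmul v h) :
    g = h := by
  ext j i
  have h1 := congrFun hgh i
  have h2 : ∑ j, (g j i - h j i) • v j = 0 := by
    simp only [sub_smul, Finset.sum_sub_distrib]
    exact sub_eq_zero.2 h1
  exact sub_eq_zero.1 (Fintype.linearIndependent_iff.1 hv _ h2 j)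

private theorem exists_fmul' {n : ℕ} {V : Type} [AddCommGroup V] [Module ℂ V]
    [FiniteDimensional ℂ V] (hn : Module.finrank ℂ V = n) {v : Fin n → V}
    (hv : LinearIndependent ℂ v) (w : Fin n → V) :
    ∃ g : Matrix (Fin n) (Fin n) ℂ, w = fmul v g ∧ (LinearIndependent ℂ w → g.det ≠ 0) := by
  have hc : Fintype.card (Fin n) = Module.finrank ℂ V := by rw [Fintype.card_fin, hn]
  have hw : ∀ i, ∃ t : Fin n → ℂ, w i = ∑ j, t j • v j := by
    intro i
    refine ⟨fun j => (basisOfLinearIndependentOfCardEqFinrank' v hv hc).repr (w i) j, ?_⟩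
    have h1 := (basisOfLinearIndependentOfCardEqFinrank' v hv hc).sum_repr (w i)
    rw [coe_basisOfLinearIndependentOfCardEqFinrank'] at h1
    exact h1.symm
  choose t ht using hw
  refine ⟨Matrix.of fun j i => t i j, funext ht, fun hwi hd => ?_⟩
  obtain ⟨c, hc0, hc1⟩ := Matrix.exists_mulVec_eq_zero_iff.2 hd
  refine hc0 ?_
  have h2 : ∑ i, c i • w i = 0 := by
    have h3 : ∑ i, c i • w i = ∑ j, (∑ i, t i j * c i) • v j := by
      simp only [ht, Finset.smul_sum, smul_smul, Finset.sum_smul]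
      rw [Finset.sum_comm]
      refine Finset.sum_congr rfl fun a _ => Finset.sum_congr rfl fun b _ => ?_
      rw [mul_comm]
    rw [h3]
    refine Finset.sum_eq_zero fun j _ => ?_
    have h4 : ∑ i, t i j * c i = 0 := congrFun hc1 j
    rw [h4, zero_smul]
  exact funext fun i => Fintype.linearIndependent_iff.1 hwi c h2 i

theorem exists_fmul {n : ℕ} (hn : Module.finrank ℂ E = n) {x : M}
    {v : Fin n → TangentSpace 𝓘(ℂ, E) x} (hv : LinearIndependent ℂ v)
    (w : Fin n → TangentSpace 𝓘(ℂ, E) x) :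
    ∃ g : Matrix (Fin n) (Fin n) ℂ, w = fmul v g ∧ (LinearIndependent ℂ w → g.det ≠ 0) := by
  have : FiniteDimensional ℂ (TangentSpace 𝓘(ℂ, E) x) := inferInstanceAs (FiniteDimensional ℂ E)
  exact exists_fmul' hn hv w

theorem act_injective {n k L : ℕ} {g : Matrix (Fin n) (Fin n) ℂ} (hg : g.det ≠ 0) :
    Function.Injective (act g : (Ix n k L → ℂ) → Ix n k L → ℂ) := by
  intro T S h
  have hu : IsUnit g.det := isUnit_iff_ne_zero.2 hg
  have h1 : act g⁻¹ (act g T) = act g⁻¹ (act g S) := by rw [h]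
  rw [← act_mul, ← act_mul, Matrix.mul_nonsing_inv _ hu, act_one, act_one] at h1
  exact h1

theorem det_ne_zero_of_act {n k L : ℕ} (hk : 1 ≤ k) {F : Ix n k L → ℂ} (hF : Reg F)
    {g : Matrix (Fin n) (Fin n) ℂ} (hg : Reg (act g F)) : g.det ≠ 0 := by
  intro hd
  obtain ⟨c, hc0, hc1⟩ := Matrix.exists_mulVec_eq_zero_iff.2 hd
  refine hc0 (hg c ?_)
  rw [diag_act, hc1, diag_zero' hk]

end

end Pool.Agent.HOG
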