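import Pool.Agent.HOG.TDefs
import Pool.Agent.HOG.TAlg

/-!
# HOG/RedK: reduction to tensors of one degree (powers of tensors, compactness of the unit sphere)
-/

open scoped Manifold ContDiff Topology BigOperators
open Set Metric Filter

namespace Pool.Agent.HOG

open Pool.Agent.HOA

noncomputable section

section Alg

variable {V : Type} [AddCommGroup V] [Module ℂ V]

private theorem redk_upd {k m : ℕ} (ξ : Fin (k * m) → V) (q : Fin (k * m)) (x : V) (b : Fin m) :
    (fun a : Fin k => Function.update ξ q x (finProdFinEquiv (a, b))) =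
      if b = (finProdFinEquiv.symm q).2 then
        Function.update (fun a : Fin k => ξ (finProdFinEquiv (a, b))) (finProdFinEquiv.symm q).1 x
      else fun a : Fin k => ξ (finProdFinEquiv (a, b)) := by
  obtain ⟨⟨a0, b0⟩, rfl⟩ := finProdFinEquiv.surjective q
  rw [Equiv.symm_apply_apply]
  by_cases hb : b = b0
  · subst hb
    rw [if_pos rfl]
    funext a
    by_cases ha : a = a0
    · subst ha
      rw [Function.update_self, Function.update_self]
    · have hne : finProdFinEquiv (a, b) ≠ finProdFinEquiv (a0, b) := fun h =>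
        ha (congrArg Prod.fst (finProdFinEquiv.injective h))
      rw [Function.update_of_ne hne, Function.update_of_ne ha]
  · rw [if_neg hb]
    funext a
    have hne : finProdFinEquiv (a, b) ≠ finProdFinEquiv (a0, b0) := fun h =>
      hb (congrArg Prod.snd (finProdFinEquiv.injective h))
    rw [Function.update_of_ne hne]

/-- the `m`-th power of a multilinear form -/
private def redkPow {k : ℕ} (m : ℕ) (f : MultilinearMap ℂ (fun _ : Fin k => V) ℂ) :
    MultilinearMap ℂ (fun _ : Fin (k * m) => V) ℂ :=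
  MultilinearMap.mk' (fun ξ => ∏ b : Fin m, f (fun a => ξ (finProdFinEquiv (a, b))))
    (by
      intro ξ q x y
      have hpr : ∀ z : V, ∏ b : Fin m, f (fun a => Function.update ξ q z (finProdFinEquiv (a, b))) =
          f (Function.update (fun a : Fin k => ξ (finProdFinEquiv (a, (finProdFinEquiv.symm q).2)))
            (finProdFinEquiv.symm q).1 z) *
          ∏ b ∈ Finset.univ.erase (finProdFinEquiv.symm q).2, f (fun a => ξ (finProdFinEquiv (a, b))) := by
        intro z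
        rw [← Finset.mul_prod_erase Finset.univ _ (Finset.mem_univ (finProdFinEquiv.symm q).2)]
        congr 1
        · rw [redk_upd, if_pos rfl]
        · refine Finset.prod_congr rfl fun b hb => ?_
          rw [redk_upd, if_neg (Finset.ne_of_mem_erase hb)]
      rw [hpr, hpr, hpr, MultilinearMap.map_update_add, add_mul])
    (by
      intro ξ q c x
      have hpr : ∀ z : V, ∏ b : Fin m, f (fun a => Function.update ξ q z (finProdFinEquiv (a, b))) =
          f (Function.update (fun a : Fin k => ξ (finProdFinEquiv (a, (finProdFinEquiv.symm q).2)))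
            (finProdFinEquiv.symm q).1 z) *
          ∏ b ∈ Finset.univ.erase (finProdFinEquiv.symm q).2, f (fun a => ξ (finProdFinEquiv (a, b))) := by
        intro z
        rw [← Finset.mul_prod_erase Finset.univ _ (Finset.mem_univ (finProdFinEquiv.symm q).2)]
        congr 1
        · rw [redk_upd, if_pos rfl]
        · refine Finset.prod_congr rfl fun b hb => ?_
          rw [redk_upd, if_neg (Finset.ne_of_mem_erase hb)]
      rw [hpr, hpr, MultilinearMap.map_update_smul, smul_mul_assoc])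

private theorem redkPow_apply {k : ℕ} (m : ℕ) (f : MultilinearMap ℂ (fun _ : Fin k => V) ℂ)
    (ξ : Fin (k * m) → V) : redkPow m f ξ = ∏ b : Fin m, f (fun a => ξ (finProdFinEquiv (a, b))) := rfl

end Alg

variable {E : Type} [NormedAddCommGroup E] [NormedSpace ℂ E] [FiniteDimensional ℂ E]
variable {M : Type} [TopologicalSpace M] [T2Space M] [CompactSpace M] [ChartedSpace E M]
  [IsManifold 𝓘(ℂ, E) ω M]

private theorem redk_cont {k : ℕ} (f : MultilinearMap ℂ (fun _ : Fin k => E) ℂ) :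
    Continuous fun ξ : E => f (fun _ => ξ) := by
  classical
  let b := Module.finBasis ℂ E
  have h : ∀ ξ : E, f (fun _ => ξ) = ∑ j : Fin k → Fin (Module.finrank ℂ E),
      (∏ a, b.repr ξ (j a)) • f (fun a => b (j a)) := by
    intro ξ
    have h1 : (fun _ : Fin k => ξ) = fun _ : Fin k => ∑ i, b.repr ξ i • b i := by
      funext _
      exact (b.sum_repr ξ).symm
    rw [h1, MultilinearMap.map_sum]
    refine Finset.sum_congr rfl fun j _ => ?_
    exact f.map_smul_univ (fun a => b.repr ξ (j a)) (fun a => b (j a))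
  have h2 : (fun ξ : E => f (fun _ => ξ)) = fun ξ => ∑ j : Fin k → Fin (Module.finrank ℂ E),
      (∏ a, b.repr ξ (j a)) • f (fun a => b (j a)) := funext h
  rw [h2]
  refine continuous_finset_sum _ fun j _ => ?_
  have h3 : Continuous fun ξ : E => ∏ a, b.repr ξ (j a) :=
    continuous_finset_prod _ fun a _ => LinearMap.continuous_of_finiteDimensional (b.coord (j a))
  exact h3.mul continuous_const

omit [FiniteDimensional ℂ E] [T2Space M] [CompactSpace M] [IsManifold 𝓘(ℂ, E) ω M] in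
private theorem redk_pow {k m K : ℕ} (hK : K = k * m) (τ : HT E M k) :
    ∃ σ : HT E M K, ∀ (x : M) (ξ : TangentSpace 𝓘(ℂ, E) x),
      σ.1 x (fun _ => ξ) = (τ.1 x (fun _ => ξ)) ^ m := by
  subst hK
  refine ⟨⟨fun x => redkPow m (τ.1 x), ?_⟩, ?_⟩
  · intro e he w
    have h1 : (fun z => (redkPow m (τ.1 (e.symm z))) (fun a => ilc e z (w a))) =
        fun z => ∏ b : Fin m, (τ.1 (e.symm z)) (fun a => ilc e z (w (finProdFinEquiv (a, b)))) := by
      funext z
      rw [redkPow_apply]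
    rw [h1]
    exact Finset.analyticOnNhd_fun_prod _ fun b _ => τ.2 e he fun a => w (finProdFinEquiv (a, b))
  · intro x ξ
    show redkPow m (τ.1 x) (fun _ => ξ) = _
    rw [redkPow_apply, Finset.prod_const, Finset.card_univ, Fintype.card_fin]

private theorem redk_ex (T : (k : ℕ) → HT E M k → E → ℂ)
    (hT : ∀ k τ, Continuous (T k τ)) (hsm : ∀ k τ (c : ℂ) (ξ : E), T k τ (c • ξ) = c ^ k * T k τ ξ)
    (hpow : ∀ (k m K : ℕ), K = k * m → ∀ τ, ∃ σ, ∀ ξ, T K σ ξ = (T k τ ξ) ^ m)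
    (h : ∀ ξ : E, ξ ≠ 0 → ∃ k : ℕ, 1 ≤ k ∧ ∃ τ, T k τ ξ ≠ 0) :
    ∃ k : ℕ, 1 ≤ k ∧ ∀ ξ : E, ξ ≠ 0 → ∃ τ, T k τ ξ ≠ 0 := by
  classical
  have : ProperSpace E := FiniteDimensional.proper ℂ E
  have hS : IsCompact (sphere (0 : E) 1) := isCompact_sphere _ _
  have hS0 : ∀ ξ ∈ sphere (0 : E) 1, ξ ≠ 0 := by
    intro ξ hξ h0
    rw [mem_sphere_zero_iff_norm, h0, norm_zero] at hξ
    exact zero_ne_one hξ
  choose! kk hk1 tt htt using h
  obtain ⟨t, ht, hcov⟩ := hS.elim_nhds_subcover (fun ξ => {η | T (kk ξ) (tt ξ) η ≠ 0})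
    (fun ξ hξ => (isOpen_ne_fun (hT _ _) continuous_const).mem_nhds (htt ξ (hS0 ξ hξ)))
  have hpos : 0 < ∏ ξ ∈ t, kk ξ := Finset.prod_pos fun ξ hξ => hk1 ξ (hS0 ξ (ht ξ hξ))
  refine ⟨∏ ξ ∈ t, kk ξ, hpos, ?_⟩
  intro ξ hξ
  have hn : ‖ξ‖ ≠ 0 := norm_ne_zero_iff.2 hξ
  have hu : ((‖ξ‖ : ℂ)⁻¹ • ξ) ∈ sphere (0 : E) 1 := by
    rw [mem_sphere_zero_iff_norm, norm_smul, norm_inv, Complex.norm_real, norm_norm,
      inv_mul_cancel₀ hn]
  obtain ⟨s, hs, hsu⟩ := mem_iUnion₂.1 (hcov hu)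
  obtain ⟨m, hm⟩ := Finset.dvd_prod_of_mem kk hs
  obtain ⟨σ, hσ⟩ := hpow (kk s) m _ hm (tt s)
  refine ⟨σ, ?_⟩
  rw [hσ]
  refine pow_ne_zero _ ?_
  intro h0
  apply hsu
  rw [hsm, h0, mul_zero]

theorem exists_degree (x₁ : M)
    (h : ∀ ξ : TangentSpace 𝓘(ℂ, E) x₁, ξ ≠ 0 → ∃ k : ℕ, 1 ≤ k ∧ ∃ τ : HT E M k,
      τ.1 x₁ (fun _ => ξ) ≠ 0) :
    ∃ k : ℕ, 1 ≤ k ∧ ∀ ξ : TangentSpace 𝓘(ℂ, E) x₁, ξ ≠ 0 → ∃ τ : HT E M k,
      τ.1 x₁ (fun _ => ξ) ≠ 0 := by
  refine redk_ex (E := E) (M := M) (fun k τ ξ => τ.1 x₁ (fun _ => (ξ : E))) ?_ ?_ ?_ h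
  · intro k τ
    exact redk_cont (E := E) (τ.1 x₁)
  · intro k τ c ξ
    have h1 := (τ.1 x₁).map_smul_univ (fun _ => c) (fun _ => (ξ : TangentSpace 𝓘(ℂ, E) x₁))
    rw [Finset.prod_const, Finset.card_univ, Fintype.card_fin] at h1
    exact h1
  · intro k m K hK τ
    obtain ⟨σ, hσ⟩ := redk_pow hK τ
    exact ⟨σ, fun ξ => hσ x₁ ξ⟩

theorem reg_of_basis {k L n : ℕ} (τ : Module.Basis (Fin L) ℂ (HT E M k)) {x₁ : M}
    (h : ∀ ξ : TangentSpace 𝓘(ℂ, E) x₁, ξ ≠ 0 → ∃ τ : HT E M k, τ.1 x₁ (fun _ => ξ) ≠ 0)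
    {v₁ : Fin n → TangentSpace 𝓘(ℂ, E) x₁} (hv₁ : LinearIndependent ℂ v₁) :
    Reg (tup τ x₁ v₁) := by
  intro t ht
  have h1 : ∀ l, (τ l).1 x₁ (fun _ => ∑ i, t i • v₁ i) = 0 := by
    intro l
    rw [← diag_tup, ht]
    rfl
  have h2 : ∀ σ : HT E M k, σ.1 x₁ (fun _ => ∑ i, t i • v₁ i) = 0 := by
    intro σ
    rw [← τ.sum_repr σ]
    have h3 : ∀ (s : Finset (Fin L)) (c : Fin L → ℂ),
        (∑ l ∈ s, c l • τ l : HT E M k).1 x₁ (fun _ => ∑ i, t i • v₁ i) = 0 := by
      intro s c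
      classical
      induction s using Finset.induction_on with
      | empty =>
        rw [Finset.sum_empty]
        rfl
      | insert a s ha ih =>
        rw [Finset.sum_insert ha]
        show c a • (τ a).1 x₁ (fun _ => ∑ i, t i • v₁ i) +
          (∑ l ∈ s, c l • τ l : HT E M k).1 x₁ (fun _ => ∑ i, t i • v₁ i) = 0
        rw [h1, ih, smul_zero, add_zero]
    exact h3 Finset.univ _
  have h4 : ∑ i, t i • v₁ i = 0 := by
    by_contra hne
    obtain ⟨σ, hσ⟩ := h _ hne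
    exact hσ (h2 σ)
  exact funext fun i => Fintype.linearIndependent_iff.1 hv₁ t h4 i

end

end Pool.Agent.HOG
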