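import Pool.Agent.HOG.LocFr
import Pool.Agent.HOG.ScA
import Pool.Agent.HOG.Orb

/-!
# HOG/ScC: the structure functions are constant

The sum of the squares of the structure functions of the finitely many local frames with the given
tensor coordinates is a globally defined function; the maximum principle.
-/

open scoped Manifold ContDiff Topology BigOperators
open Set Metric Filter

namespace Pool.Agent.HOG

open Pool.Agent.HOA

noncomputable section

variable {E : Type} [NormedAddCommGroup E] [NormedSpace ℂ E] [FiniteDimensional ℂ E]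
variable {M : Type} [TopologicalSpace M] [T2Space M] [CompactSpace M] [ChartedSpace E M]
  [IsManifold 𝓘(ℂ, E) ω M]

/-- the frame `X` multiplied by a constant matrix -/
private def fr {n : ℕ} (X : Fin n → (x : M) → TangentSpace 𝓘(ℂ, E) x)
    (h : Matrix (Fin n) (Fin n) ℂ) : Fin n → (x : M) → TangentSpace 𝓘(ℂ, E) x :=
  fun i x => fmul (fun l => X l x) h i

private theorem fr_fr {n : ℕ} (X : Fin n → (x : M) → TangentSpace 𝓘(ℂ, E) x)
    (g h : Matrix (Fin n) (Fin n) ℂ) : fr (fr X g) h = fr X (g * h) := by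
  funext i x
  exact congrFun (fmul_mul (fun l => X l x) g h) i

private theorem fr_one {n : ℕ} (X : Fin n → (x : M) → TangentSpace 𝓘(ℂ, E) x) :
    fr X (1 : Matrix (Fin n) (Fin n) ℂ) = X := by
  funext i x
  exact congrFun (fmul_one (fun l => X l x)) i

private theorem fr_ev {n : ℕ} {X Z : Fin n → (x : M) → TangentSpace 𝓘(ℂ, E) x} {x : M}
    (hZ : ∀ᶠ y in 𝓝 x, ∀ i, Z i y = X i y) (h : Matrix (Fin n) (Fin n) ℂ) :
    ∀ᶠ y in 𝓝 x, ∀ i, fr Z h i y = fr X h i y := by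
  filter_upwards [hZ] with y hy i
  have : (fun l => Z l y) = fun l => X l y := funext hy
  simp only [fr, this]

private theorem rel {n k L : ℕ} (hk : 1 ≤ k) (hn : Module.finrank ℂ E = n)
    {τ : Fin L → HT E M k} {F : Ix n k L → ℂ} (hF : Reg F) {x : M}
    {X Z : Fin n → (x : M) → TangentSpace 𝓘(ℂ, E) x} (hX : IsLF τ F X x)
    (hZ : IsLF τ F Z x) :
    ∃ g : Matrix (Fin n) (Fin n) ℂ, act g F = F ∧ g.det ≠ 0 ∧
      ∀ᶠ y in 𝓝 x, ∀ i, Z i y = fr X g i y := by
  have hX0 : tup τ x (fun i => X i x) = F := hX.self_of_nhds.2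
  have hZ0 : tup τ x (fun i => Z i x) = F := hZ.self_of_nhds.2
  have hXi : LinearIndependent ℂ (fun i => X i x) := tup_indep hk (by rw [hX0]; exact hF)
  have hZi : LinearIndependent ℂ (fun i => Z i x) := tup_indep hk (by rw [hZ0]; exact hF)
  obtain ⟨g, hg, hgd⟩ := exists_fmul hn hXi (fun i => Z i x)
  have hgF : act g F = F := by
    rw [← hZ0]
    nth_rewrite 2 [hg]
    rw [tup_fmul, hX0, hZ0]
  refine ⟨g, hgF, hgd hZi, ?_⟩
  exact lf_unique hk hn hF hZ (lf_fmul hX hgF) fun i => congrFun hg i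

/-- the structure functions of all the frames `X h` -/
private def Gam {n : ℕ} (H : Finset (Matrix (Fin n) (Fin n) ℂ))
    (X : Fin n → (x : M) → TangentSpace 𝓘(ℂ, E) x) (x : M) :
    EuclideanSpace ℂ (H × (Fin n × Fin n × Fin n)) :=
  WithLp.toLp 2 (fun p => sc (fr X p.1.1) x p.2.1 p.2.2.1 p.2.2.2)

private theorem gam_norm {n k L : ℕ} (hk : 1 ≤ k) (hn : Module.finrank ℂ E = n)
    {τ : Fin L → HT E M k} {F : Ix n k L → ℂ} (hF : Reg F)
    {H : Finset (Matrix (Fin n) (Fin n) ℂ)} (hH : ∀ g, g ∈ H ↔ act g F = F) {x : M}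
    {X Z : Fin n → (x : M) → TangentSpace 𝓘(ℂ, E) x} (hX : IsLF τ F X x)
    (hZ : IsLF τ F Z x) : ‖Gam H Z x‖ = ‖Gam H X x‖ := by
  obtain ⟨g, hgF, hgd, hg⟩ := rel hk hn hF hX hZ
  have hmem : ∀ h : H, g * h.1 ∈ H := fun h => by
    rw [hH, act_mul, hgF]
    exact (hH _).1 h.2
  let σ : H → H := fun h => ⟨g * h.1, hmem h⟩
  have hinj : Function.Injective σ := by
    intro a b hab
    have h1 : g * a.1 = g * b.1 := congrArg Subtype.val hab
    have hu : IsUnit g := (Matrix.isUnit_iff_isUnit_det g).2 (isUnit_iff_ne_zero.2 hgd)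
    exact Subtype.ext (hu.mul_left_cancel h1)
  have hbij : Function.Bijective σ := Finite.injective_iff_bijective.1 hinj
  rw [EuclideanSpace.norm_eq, EuclideanSpace.norm_eq, Fintype.sum_prod_type,
    Fintype.sum_prod_type]
  congr 1
  refine Fintype.sum_bijective σ hbij _ _ fun h => ?_
  refine Finset.sum_congr rfl fun q _ => ?_
  have h2 : sc (fr Z h.1) x = sc (fr X (g * h.1)) x := by
    rw [← fr_fr]
    exact sc_congr (fr_ev hg h.1)
  simp only [Gam, σ, h2]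

private theorem gam_diff {n k L : ℕ} (hk : 1 ≤ k) (hn : Module.finrank ℂ E = n)
    {τ : Fin L → HT E M k} {F : Ix n k L → ℂ} (hF : Reg F)
    {H : Finset (Matrix (Fin n) (Fin n) ℂ)} (hH : ∀ g, g ∈ H ↔ act g F = F) {x₀ : M}
    {X : Fin n → (x : M) → TangentSpace 𝓘(ℂ, E) x} (hX : IsLF τ F X x₀)
    {e : OpenPartialHomeomorph M E} (he : e ∈ atlas E M) (hx : x₀ ∈ e.source) :
    ∀ᶠ z in 𝓝 (e x₀), DifferentiableAt ℂ (fun z => Gam H X (e.symm z)) z := by
  have h1 : ∀ p : H × (Fin n × Fin n × Fin n), ∀ᶠ z in 𝓝 (e x₀),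
      DifferentiableAt ℂ (fun z => sc (fr X p.1.1) (e.symm z) p.2.1 p.2.2.1 p.2.2.2) z := by
    intro p
    have h2 := sc_analytic hk hn hF (lf_fmul hX ((hH _).1 p.1.2)) he hx p.2.1 p.2.2.1 p.2.2.2
    exact h2.eventually_analyticAt.mono fun z hz => hz.differentiableAt
  filter_upwards [eventually_all.2 h1] with z hz
  exact differentiableAt_euclidean.2 hz

private theorem gam_cont {n k L : ℕ} (hk : 1 ≤ k) (hn : Module.finrank ℂ E = n)
    {τ : Fin L → HT E M k} {F : Ix n k L → ℂ} (hF : Reg F)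
    {H : Finset (Matrix (Fin n) (Fin n) ℂ)} (hH : ∀ g, g ∈ H ↔ act g F = F) {x₀ : M}
    {X : Fin n → (x : M) → TangentSpace 𝓘(ℂ, E) x} (hX : IsLF τ F X x₀) :
    ContinuousAt (Gam H X) x₀ := by
  have he := chart_mem_atlas E x₀
  have hx := mem_chart_source E x₀
  set e := chartAt E x₀ with hedef
  have h1 : ContinuousAt (fun z => Gam H X (e.symm z)) (e x₀) :=
    (gam_diff hk hn hF hH hX he hx).self_of_nhds.continuousAt
  have h2 : ContinuousAt (fun x => Gam H X (e.symm (e x))) x₀ :=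
    ContinuousAt.comp (f := e) h1 (e.continuousAt hx)
  refine h2.congr ?_
  filter_upwards [e.open_source.mem_nhds hx] with x hx'
  rw [e.left_inv hx']

/-- at a local maximum of the norm, `Gam` is locally constant -/
private theorem gam_max {n k L : ℕ} (hk : 1 ≤ k) (hn : Module.finrank ℂ E = n)
    {τ : Fin L → HT E M k} {F : Ix n k L → ℂ} (hF : Reg F)
    {H : Finset (Matrix (Fin n) (Fin n) ℂ)} (hH : ∀ g, g ∈ H ↔ act g F = F) {x₀ : M}
    {X : Fin n → (x : M) → TangentSpace 𝓘(ℂ, E) x} (hX : IsLF τ F X x₀)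
    (hm : ∀ᶠ x in 𝓝 x₀, ‖Gam H X x‖ ≤ ‖Gam H X x₀‖) :
    ∀ᶠ x in 𝓝 x₀, Gam H X x = Gam H X x₀ := by
  have he := chart_mem_atlas E x₀
  have hx := mem_chart_source E x₀
  set e := chartAt E x₀ with hedef
  have hc : Tendsto e.symm (𝓝 (e x₀)) (𝓝 x₀) := by
    have := e.continuousAt_symm (e.map_source hx)
    rw [ContinuousAt, e.left_inv hx] at this
    exact this
  have h1 : IsLocalMax (norm ∘ fun z => Gam H X (e.symm z)) (e x₀) := by
    have h2 := hc.eventually hm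
    filter_upwards [h2] with z hz
    simp only [Function.comp]
    rw [e.left_inv hx]
    exact hz
  have h3 := Complex.eventually_eq_of_isLocalMax_norm (gam_diff hk hn hF hH hX he hx) h1
  have h4 := (e.continuousAt hx).eventually h3
  filter_upwards [h4, e.open_source.mem_nhds hx] with x hx1 hx2
  rwa [e.left_inv hx2, e.left_inv hx] at hx1

theorem sc_locally_const [ConnectedSpace M] {n k L : ℕ} (hk : 1 ≤ k)
    (hn : Module.finrank ℂ E = n) {τ : Fin L → HT E M k} {F : Ix n k L → ℂ} (hF : Reg F)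
    (hall : ∀ x : M, ∃ v : Fin n → TangentSpace 𝓘(ℂ, E) x, tup τ x v = F) {x₀ : M}
    {X : Fin n → (x : M) → TangentSpace 𝓘(ℂ, E) x} (hX : IsLF τ F X x₀) :
    ∀ᶠ x in 𝓝 x₀, sc X x = sc X x₀ := by
  have hfin : {g : Matrix (Fin n) (Fin n) ℂ | act g F = F}.Finite := finite_solutions hk hF F
  set H : Finset (Matrix (Fin n) (Fin n) ℂ) := hfin.toFinset with hHdef
  have hH : ∀ g, g ∈ H ↔ act g F = F := fun g => by rw [hHdef, Set.Finite.mem_toFinset]; rfl
  have hloc : ∀ x : M, ∃ Y : Fin n → (x : M) → TangentSpace 𝓘(ℂ, E) x, IsLF τ F Y x := by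
    intro x
    obtain ⟨v, hv⟩ := hall x
    obtain ⟨Y, -, hY⟩ := local_frame hk hn τ hF hall x v hv
    exact ⟨Y, hY⟩
  choose Y hY using hloc
  set Θ : M → ℝ := fun x => ‖Gam H (Y x) x‖ with hΘ
  have hΘX : ∀ {x : M} {Z : Fin n → (x : M) → TangentSpace 𝓘(ℂ, E) x}, IsLF τ F Z x →
      Θ x = ‖Gam H Z x‖ := fun hZ => gam_norm hk hn hF hH hZ (hY _)
  have hΘev : ∀ {x : M} {Z : Fin n → (x : M) → TangentSpace 𝓘(ℂ, E) x}, IsLF τ F Z x →
      ∀ᶠ y in 𝓝 x, Θ y = ‖Gam H Z y‖ := fun hZ =>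
    (eventually_eventually_nhds.2 hZ).mono fun y hy => hΘX hy
  have hcont : Continuous Θ := by
    rw [continuous_iff_continuousAt]
    intro x
    have h1 := (gam_cont hk hn hF hH (hY x)).norm
    exact h1.congr ((hΘev (hY x)).mono fun y hy => hy.symm)
  obtain ⟨xm, -, hxm⟩ := isCompact_univ.exists_isMaxOn Set.univ_nonempty hcont.continuousOn
  have hmax : ∀ y, Θ y ≤ Θ xm := fun y => hxm (mem_univ y)
  have hkey : ∀ {x : M} {Z : Fin n → (x : M) → TangentSpace 𝓘(ℂ, E) x}, IsLF τ F Z x →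
      Θ x = Θ xm → ∀ᶠ y in 𝓝 x, Gam H Z y = Gam H Z x := by
    intro x Z hZ hx
    refine gam_max hk hn hF hH hZ ?_
    filter_upwards [hΘev hZ] with y hy
    rw [← hy, ← hΘX hZ, hx]
    exact hmax y
  have hS : {x | Θ x = Θ xm} = univ := by
    refine IsClopen.eq_univ ⟨isClosed_eq hcont continuous_const, ?_⟩ ⟨xm, rfl⟩
    rw [isOpen_iff_mem_nhds]
    intro x hx
    filter_upwards [hkey (hY x) hx, hΘev (hY x)] with y hy1 hy2
    show Θ y = Θ xm
    rw [hy2, hy1, ← hΘX (hY x)]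
    exact hx
  have h1 := hkey hX (Set.eq_univ_iff_forall.1 hS x₀)
  have h11 : (1 : Matrix (Fin n) (Fin n) ℂ) ∈ H := (hH 1).2 (act_one F)
  filter_upwards [h1] with x hx
  funext i j l
  have h2 := congrArg (fun w : EuclideanSpace ℂ (H × (Fin n × Fin n × Fin n)) =>
    w (⟨1, h11⟩, i, j, l)) hx
  simp only [Gam, fr_one] at h2
  exact h2

private theorem intw_comp {n : ℕ} {h g : Matrix (Fin n) (Fin n) ℂ}
    {c c' c'' : Fin n → Fin n → Fin n → ℂ} (h1 : Intw h c'' c') (h2 : Intw g c' c) :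
    Intw (g * h) c'' c := by
  intro u v
  rw [← Matrix.mulVec_mulVec, h1 u v, h2, Matrix.mulVec_mulVec, Matrix.mulVec_mulVec]

private theorem intw_rel {n k L : ℕ} (hk : 1 ≤ k) (hn : Module.finrank ℂ E = n)
    {τ : Fin L → HT E M k} {F : Ix n k L → ℂ} (hF : Reg F) {x : M}
    {X Z : Fin n → (x : M) → TangentSpace 𝓘(ℂ, E) x} (hX : IsLF τ F X x)
    (hZ : IsLF τ F Z x) :
    ∃ g : Matrix (Fin n) (Fin n) ℂ, act g F = F ∧ Intw g (sc Z x) (sc X x) := by
  obtain ⟨g, hgF, -, hg⟩ := rel hk hn hF hX hZ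
  refine ⟨g, hgF, ?_⟩
  rw [sc_congr hg]
  exact sc_fmul hk hn hF hX hgF

theorem sc_conj [ConnectedSpace M] {n k L : ℕ} (hk : 1 ≤ k)
    (hn : Module.finrank ℂ E = n) {τ : Fin L → HT E M k} {F : Ix n k L → ℂ} (hF : Reg F)
    (hall : ∀ x : M, ∃ v : Fin n → TangentSpace 𝓘(ℂ, E) x, tup τ x v = F) {x x' : M}
    {X X' : Fin n → (x : M) → TangentSpace 𝓘(ℂ, E) x} (hX : IsLF τ F X x)
    (hX' : IsLF τ F X' x') :
    ∃ h : Matrix (Fin n) (Fin n) ℂ, act h F = F ∧ Intw h (sc X x) (sc X' x') := by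
  have hloc : ∀ x : M, ∃ Y : Fin n → (x : M) → TangentSpace 𝓘(ℂ, E) x, IsLF τ F Y x := by
    intro x
    obtain ⟨v, hv⟩ := hall x
    obtain ⟨Y, -, hY⟩ := local_frame hk hn τ hF hall x v hv
    exact ⟨Y, hY⟩
  set S : Set M := {y | ∀ Z : Fin n → (x : M) → TangentSpace 𝓘(ℂ, E) x, IsLF τ F Z y →
    ∃ h : Matrix (Fin n) (Fin n) ℂ, act h F = F ∧ Intw h (sc Z y) (sc X' x')} with hSdef
  have hopen : IsOpen S := by
    rw [isOpen_iff_mem_nhds]
    intro y hy
    obtain ⟨Y, hY⟩ := hloc y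
    obtain ⟨h, hhF, hh⟩ := hy Y hY
    filter_upwards [sc_locally_const hk hn hF hall hY, eventually_eventually_nhds.2 hY] with z hz
      hzY Z hZ
    obtain ⟨g, hgF, hg⟩ := intw_rel hk hn hF hzY hZ
    refine ⟨h * g, by rw [act_mul, hhF, hgF], ?_⟩
    rw [hz] at hg
    exact intw_comp hg hh
  have hclosed : IsClosed S := by
    rw [← isOpen_compl_iff, isOpen_iff_mem_nhds]
    intro y hy
    have hy' : ¬ ∀ Z : Fin n → (x : M) → TangentSpace 𝓘(ℂ, E) x, IsLF τ F Z y →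
      ∃ h : Matrix (Fin n) (Fin n) ℂ, act h F = F ∧ Intw h (sc Z y) (sc X' x') := hy
    push Not at hy'
    obtain ⟨Y, hY, hno⟩ := hy'
    filter_upwards [sc_locally_const hk hn hF hall hY, eventually_eventually_nhds.2 hY] with z hz
      hzY hzS
    obtain ⟨h, hhF, hh⟩ := hzS Y hzY
    rw [hz] at hh
    exact hno h hhF hh
  have huniv : S = univ := IsClopen.eq_univ ⟨hclosed, hopen⟩ ⟨x', fun Z hZ =>
    intw_rel hk hn hF hX' hZ⟩
  exact Set.eq_univ_iff_forall.1 huniv x X hX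

end

end Pool.Agent.HOG
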