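import Pool.Agent.HOG.Infra
import Pool.Agent.HOG.PtC
import Pool.Agent.HOG.ScC
import Pool.Agent.HOG.FEq
import Pool.Agent.HOG.HypM
import Pool.Agent.HOG.NilM
import Pool.Agent.HOG.JacC
import Pool.Agent.HOG.RedK
import Pool.Agent.HOG.HTf

/-!
# Holomorphic covariant tensors without common isotropic vector at one point (assembly)
-/

open scoped Manifold ContDiff Topology
open Set Metric Filter

namespace Pool.Agent.HOG

open Pool.Agent.HOA

noncomputable section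

section Mat

variable {n : ℕ}

theorem Intw.comp {g h : Matrix (Fin n) (Fin n) ℂ} {c c' c'' : Fin n → Fin n → Fin n → ℂ}
    (hg : Intw g c' c) (hh : Intw h c'' c') : Intw (g * h) c'' c := by
  intro u v
  rw [← Matrix.mulVec_mulVec, hh u v, hg, Matrix.mulVec_mulVec, Matrix.mulVec_mulVec]

theorem Intw.symm {g g' : Matrix (Fin n) (Fin n) ℂ} {c c' : Fin n → Fin n → Fin n → ℂ}
    (hg : Intw g c' c) (h1 : g' * g = 1) (h2 : g * g' = 1) : Intw g' c c' := by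
  intro u v
  have h3 : ∀ w : Fin n → ℂ, g.mulVec (g'.mulVec w) = w := fun w => by
    rw [Matrix.mulVec_mulVec, h2, Matrix.one_mulVec]
  have h4 : ∀ w : Fin n → ℂ, g'.mulVec (g.mulVec w) = w := fun w => by
    rw [Matrix.mulVec_mulVec, h1, Matrix.one_mulVec]
  have h5 := hg (g'.mulVec u) (g'.mulVec v)
  rw [h3, h3] at h5
  rw [← h5, h4]

theorem Intw.eq_of_one {c c' : Fin n → Fin n → Fin n → ℂ}
    (h : Intw (1 : Matrix (Fin n) (Fin n) ℂ) c' c) : c' = c := by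
  funext i j l
  have h1 := congrFun (h (Pi.single i 1) (Pi.single j 1)) l
  rw [Matrix.one_mulVec, Matrix.one_mulVec, Matrix.one_mulVec] at h1
  simpa [brc, Pi.single_apply] using h1

theorem Intw.one (c : Fin n → Fin n → Fin n → ℂ) : Intw (1 : Matrix (Fin n) (Fin n) ℂ) c c := by
  intro u v
  simp [Matrix.one_mulVec]

end Mat

variable {E : Type} [NormedAddCommGroup E] [NormedSpace ℂ E] [FiniteDimensional ℂ E]
variable {M : Type} [TopologicalSpace M] [T2Space M] [CompactSpace M] [ChartedSpace E M]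
  [IsManifold 𝓘(ℂ, E) ω M]
variable {f : Diffeomorph 𝓘(ℂ, E) 𝓘(ℂ, E) M M ω} {N : (x : M) → TangentSpace 𝓘(ℂ, E) x → ℝ}
  {Es Eu : (x : M) → Submodule ℝ (TangentSpace 𝓘(ℂ, E) x)} {C ν : ℝ}

/-- the stabilizer of the tensors `F` and of the structure constants `c` -/
def stab {n k L : ℕ} (F : Ix n k L → ℂ) (c : Fin n → Fin n → Fin n → ℂ) :
    Subgroup (GL (Fin n) ℂ) where
  carrier := {g | act (g : Matrix (Fin n) (Fin n) ℂ) F = F ∧
    Intw (g : Matrix (Fin n) (Fin n) ℂ) c c}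
  mul_mem' := by
    rintro g h ⟨h1, h2⟩ ⟨h3, h4⟩
    refine ⟨?_, ?_⟩
    · rw [Units.val_mul, act_mul, h1, h3]
    · rw [Units.val_mul]
      exact h2.comp h4
  one_mem' := by
    refine ⟨?_, ?_⟩
    · rw [Units.val_one, act_one]
    · rw [Units.val_one]
      exact Intw.one c
  inv_mem' := by
    rintro g ⟨h1, h2⟩
    have e1 : ((g⁻¹ : GL (Fin n) ℂ) : Matrix (Fin n) (Fin n) ℂ) * (g : Matrix _ _ ℂ) = 1 :=
      g.inv_mul
    have e2 : (g : Matrix _ _ ℂ) * ((g⁻¹ : GL (Fin n) ℂ) : Matrix (Fin n) (Fin n) ℂ) = 1 :=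
      g.mul_inv
    refine ⟨?_, ?_⟩
    · conv_lhs => rw [← h1]
      rw [← act_mul, e2, act_one]
    · exact h2.symm e1 e2

theorem stab_finite {n k L : ℕ} (hk : 1 ≤ k) {F : Ix n k L → ℂ} (hF : Reg F)
    (c : Fin n → Fin n → Fin n → ℂ) : Finite (stab F c) := by
  have h1 := (finite_solutions hk hF F).to_subtype
  refine Finite.of_injective
    (fun g : stab F c => (⟨((g : GL (Fin n) ℂ) : Matrix (Fin n) (Fin n) ℂ), g.2.1⟩ :
      {g : Matrix (Fin n) (Fin n) ℂ | act g F = F})) ?_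
  intro g h hgh
  apply Subtype.ext
  apply Units.ext
  exact congrArg Subtype.val hgh

/-- the frames in which the tensors have the coordinates `F` and the structure constants are `c` -/
def frs {n k L : ℕ} (τ : Fin L → HT E M k) (F : Ix n k L → ℂ) (c : Fin n → Fin n → Fin n → ℂ)
    (x : M) : Set (Fin n → TangentSpace 𝓘(ℂ, E) x) :=
  {v | ∃ X : Fin n → (x : M) → TangentSpace 𝓘(ℂ, E) x, IsLF τ F X x ∧ (∀ i, X i x = v i) ∧
    sc X x = c}

omit [FiniteDimensional ℂ E] [T2Space M] [CompactSpace M] in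
theorem frs_tup {n k L : ℕ} {τ : Fin L → HT E M k} {F : Ix n k L → ℂ}
    {c : Fin n → Fin n → Fin n → ℂ} {x : M} {v : Fin n → TangentSpace 𝓘(ℂ, E) x}
    (hv : v ∈ frs τ F c x) : tup τ x v = F := by
  obtain ⟨X, hX, hXv, -⟩ := hv
  have h1 := hX.self_of_nhds.2
  have h2 : (fun i => X i x) = v := funext hXv
  rw [h2] at h1
  exact h1

theorem frs_orbit {n k L : ℕ} (hk : 1 ≤ k) (hn : Module.finrank ℂ E = n)
    {τ : Fin L → HT E M k} {F : Ix n k L → ℂ} (hF : Reg F)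
    {c : Fin n → Fin n → Fin n → ℂ} {x : M} {v : Fin n → TangentSpace 𝓘(ℂ, E) x}
    (hv : v ∈ frs τ F c x) (w : Fin n → TangentSpace 𝓘(ℂ, E) x) :
    w ∈ frs τ F c x ↔
      ∃ h ∈ stab F c, w = fmul v ((h : GL (Fin n) ℂ) : Matrix (Fin n) (Fin n) ℂ) := by
  have htv := frs_tup hv
  have hvi : LinearIndependent ℂ v := tup_indep hk (by rw [htv]; exact hF)
  obtain ⟨X, hX, hXv, hXc⟩ := hv
  have hXv' : (fun l => X l x) = v := funext hXv
  constructor
  · intro hw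
    have htw := frs_tup hw
    have hwi : LinearIndependent ℂ w := tup_indep hk (by rw [htw]; exact hF)
    obtain ⟨Y, hY, hYw, hYc⟩ := hw
    obtain ⟨g, hg, hgdet⟩ := exists_fmul hn hvi w
    have hgF : act g F = F := by
      rw [← htv, ← tup_fmul, ← hg, htw, htv]
    have hlf := lf_fmul hX hgF
    have heq := lf_unique hk hn hF hlf hY (fun i => by rw [hXv', ← hg, hYw])
    have hsc := sc_congr heq
    have hin := sc_fmul hk hn hF hX hgF
    rw [hsc, hYc, hXc] at hin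
    have hu : IsUnit g.det := isUnit_iff_ne_zero.2 (hgdet hwi)
    refine ⟨Matrix.GeneralLinearGroup.mkOfDetNeZero g (hgdet hwi), ⟨hgF, hin⟩, hg⟩
  · rintro ⟨h, ⟨h1, h2⟩, rfl⟩
    refine ⟨fun i x => fmul (fun l => X l x) (h : Matrix (Fin n) (Fin n) ℂ) i, lf_fmul hX h1,
      fun i => congrFun (congrArg (fun u => fmul u (h : Matrix (Fin n) (Fin n) ℂ)) hXv') i, ?_⟩
    have hin := sc_fmul hk hn hF hX h1
    rw [hXc] at hin
    have e1 : ((h⁻¹ : GL (Fin n) ℂ) : Matrix (Fin n) (Fin n) ℂ) * (h : Matrix _ _ ℂ) = 1 :=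
      h.inv_mul
    have e2 : (h : Matrix _ _ ℂ) * ((h⁻¹ : GL (Fin n) ℂ) : Matrix (Fin n) (Fin n) ℂ) = 1 :=
      h.mul_inv
    have h3 := (h2.symm e1 e2).comp hin
    rw [e1] at h3
    exact h3.eq_of_one

theorem frs_nonempty [ConnectedSpace M] {n k L : ℕ} (hk : 1 ≤ k) (hn : Module.finrank ℂ E = n)
    {τ : Fin L → HT E M k} {F : Ix n k L → ℂ} (hF : Reg F)
    (hall : ∀ x : M, ∃ v : Fin n → TangentSpace 𝓘(ℂ, E) x, tup τ x v = F) {x₁ : M}
    {X₁ : Fin n → (x : M) → TangentSpace 𝓘(ℂ, E) x} (hX₁ : IsLF τ F X₁ x₁) (x : M) :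
    (frs τ F (sc X₁ x₁) x).Nonempty := by
  obtain ⟨v, hv⟩ := hall x
  obtain ⟨X, hXv, hX⟩ := local_frame hk hn τ hF hall x v hv
  obtain ⟨h, h1, h2⟩ := sc_conj hk hn hF hall hX hX₁
  have hdet : h.det ≠ 0 := det_ne_zero_of_act hk hF (by rw [h1]; exact hF)
  have hu : IsUnit h.det := isUnit_iff_ne_zero.2 hdet
  have e1 : h * h⁻¹ = 1 := Matrix.mul_nonsing_inv h hu
  have e2 : h⁻¹ * h = 1 := Matrix.nonsing_inv_mul h hu
  have h3 : act h⁻¹ F = F := by
    conv_lhs => rw [← h1]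
    rw [← act_mul, e1, act_one]
  refine ⟨fun i => fmul (fun l => X l x) h⁻¹ i,
    fun i x => fmul (fun l => X l x) h⁻¹ i, lf_fmul hX h3, fun _ => rfl, ?_⟩
  have h4 := sc_fmul hk hn hF hX h3
  have h5 := h2.comp h4
  rw [e1] at h5
  exact h5.eq_of_one

theorem reg_mulA {n k L : ℕ} {F : Ix n k L → ℂ} (hF : Reg F) {A : Matrix (Fin L) (Fin L) ℂ}
    (hA : A.det ≠ 0) : Reg (fun p : Ix n k L => ∑ l', A p.2 l' * F (p.1, l')) := by
  intro v hv
  apply hF
  have h1 : A.mulVec (diag F v) = 0 := by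
    rw [← hv]
    funext l
    simp only [Matrix.mulVec, dotProduct, diag, Finset.mul_sum]
    rw [Finset.sum_comm]
    refine Finset.sum_congr rfl fun j _ => Finset.sum_congr rfl fun l' _ => ?_
    ring
  have hu : IsUnit A.det := isUnit_iff_ne_zero.2 hA
  have h2 : A⁻¹.mulVec (A.mulVec (diag F v)) = 0 := by rw [h1, Matrix.mulVec_zero]
  rwa [Matrix.mulVec_mulVec, Matrix.nonsing_inv_mul A hu, Matrix.one_mulVec] at h2

theorem infra_main [ConnectedSpace M] (h : Hyp f N Es Eu C ν) (x₁ : M)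
    (hx₁ : ∀ ξ : TangentSpace 𝓘(ℂ, E) x₁, ξ ≠ 0 → ∃ k : ℕ, 1 ≤ k ∧ ∃ τ : HT E M k,
      τ.1 x₁ (fun _ => ξ) ≠ 0) :
    ∃ (𝓕 : (x : M) → Set (Fin (Module.finrank ℂ E) → TangentSpace 𝓘(ℂ, E) x))
      (H : Subgroup (GL (Fin (Module.finrank ℂ E)) ℂ))
      (c : Fin (Module.finrank ℂ E) → Fin (Module.finrank ℂ E) → Fin (Module.finrank ℂ E) → ℂ)
      (a : GL (Fin (Module.finrank ℂ E)) ℂ), InfraFrame f 𝓕 H c a := by
  obtain ⟨k, hk, hx⟩ := exists_degree x₁ hx₁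
  have := ht_finite E M k
  let τ := Module.finBasis ℂ (HT E M k)
  let v₁ : Fin (Module.finrank ℂ E) → TangentSpace 𝓘(ℂ, E) x₁ := fun i => Module.finBasis ℂ E i
  have hv₁ : LinearIndependent ℂ v₁ := (Module.finBasis ℂ E).linearIndependent
  have hF := reg_of_basis τ hx hv₁
  set F := tup τ x₁ v₁ with hFdef
  have hall : ∀ x, ∃ v : Fin (Module.finrank ℂ E) → TangentSpace 𝓘(ℂ, E) x, tup τ x v = F :=
    exists_frame h hk rfl τ hF
  obtain ⟨X₁, hX₁v, hX₁⟩ := local_frame hk rfl τ hF hall x₁ v₁ hFdef.symm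
  have hcl := sc_locally_const hk rfl hF hall hX₁
  obtain ⟨halt, hjac⟩ := brc_lie hk rfl hF hX₁ hcl
  set c := sc X₁ x₁ with hc
  obtain ⟨A, hAdet, hA⟩ := exists_pull_matrix f τ
  have hne : ∀ x, (frs τ F c x).Nonempty := fun x => frs_nonempty hk rfl hF hall hX₁ x
  -- the matrix of `f`
  obtain ⟨w₁, Y₁, hY₁, hYw₁, hYc₁⟩ := hne (f x₁)
  obtain ⟨a, ha1, ha2, ha3⟩ := push_frame f hk rfl hF hA hX₁ hY₁
  rw [hYc₁, ← hc] at ha3
  have hadet : a.det ≠ 0 := det_ne_zero_of_act hk hF (by rw [ha2]; exact reg_mulA hF hAdet)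
  have hhyp : ∀ (l : ℂ) (t : Fin (Module.finrank ℂ E) → ℂ), ‖l‖ = 1 → a.mulVec t = l • t →
      t = 0 := fun l t hl ht => hyp_matrix h hk rfl hF hall hAdet hA ha2 hl ht
  have hau : IsUnit a.det := isUnit_iff_ne_zero.2 hadet
  have e1 : a * a⁻¹ = 1 := Matrix.mul_nonsing_inv a hau
  have e2 : a⁻¹ * a = 1 := Matrix.nonsing_inv_mul a hau
  refine ⟨frs τ F c, stab F c, c, Matrix.GeneralLinearGroup.mkOfDetNeZero a hadet, ?_⟩
  refine ⟨stab_finite hk hF c, ?_, hne, ?_, ?_, ⟨halt, hjac⟩, ?_, ?_, ?_⟩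
  · intro x v hv
    have hvi : LinearIndependent ℂ v := tup_indep hk (by rw [frs_tup hv]; exact hF)
    have : FiniteDimensional ℂ (TangentSpace 𝓘(ℂ, E) x) := inferInstanceAs (FiniteDimensional ℂ E)
    exact ⟨hvi, hvi.span_eq_top_of_card_eq_finrank' (by rw [Fintype.card_fin]; rfl)⟩
  · intro x v hv w
    exact frs_orbit hk rfl hF hv w
  · rintro x₀ v ⟨X, hX, hXv, hXc⟩
    refine ⟨X, hXv, ?_⟩
    have h1 := sc_locally_const hk rfl hF hall hX
    have h2 := sc_spec hk rfl hF hX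
    filter_upwards [hX, eventually_eventually_nhds.2 hX, h1, h2] with x hx1 hx2 hx3 hx4
    refine ⟨hx1.1, ⟨X, hx2, fun _ => rfl, by rw [hx3, hXc]⟩, fun i j => ?_⟩
    rw [hx4 i j, hx3, hXc]
  · exact exists_flag_brc halt hjac hadet ha3 hhyp
  · intro x v hv
    obtain ⟨w, hw⟩ := hne (f x)
    have hw' := hw
    obtain ⟨X, hX, hXv, hXc⟩ := hv
    obtain ⟨Y, hY, hYw, hYc⟩ := hw'
    obtain ⟨b, hb1, hb2, hb3⟩ := push_frame f hk rfl hF hA hX hY
    rw [hXc, hYc] at hb3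
    have hYw' : (fun l => Y l (f x)) = w := funext hYw
    rw [hYw'] at hb1
    have hbdet : b.det ≠ 0 := det_ne_zero_of_act hk hF (by rw [hb2]; exact reg_mulA hF hAdet)
    have hg : (b * a⁻¹).det ≠ 0 := by
      rw [Matrix.det_mul]
      refine mul_ne_zero hbdet ?_
      intro h0
      have := congrArg Matrix.det e1
      rw [Matrix.det_mul, h0, mul_zero, Matrix.det_one] at this
      exact zero_ne_one this
    have hmem : Matrix.GeneralLinearGroup.mkOfDetNeZero (b * a⁻¹) hg ∈ stab F c := by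
      refine ⟨?_, ?_⟩
      · change act (b * a⁻¹) F = F
        rw [act_mul, hb2, ← ha2, ← act_mul, e1, act_one]
      · change Intw (b * a⁻¹) c c
        exact hb3.comp (ha3.symm e2 e1)
    refine ⟨fmul w (b * a⁻¹), (frs_orbit hk rfl hF hw _).2 ⟨_, hmem, rfl⟩, fun i => ?_⟩
    rw [← hXv i, hb1 i]
    have h3 : fmul (fmul w (b * a⁻¹)) a = fmul w b := by
      rw [fmul_mul, Matrix.mul_assoc, e2, Matrix.mul_one]
    exact (congrFun h3 i).symm
  · exact hhyp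

end

end Pool.Agent.HOG
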