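import Pool.Agent.HOG.TDefs

/-!
# The conclusion of the theorem on covariant tensors
-/

open scoped Manifold ContDiff Topology
open Set Metric

namespace Pool.Agent.HOG

open Pool.Agent.HOA

noncomputable section

variable {E : Type} [NormedAddCommGroup E] [NormedSpace ℂ E]
variable {M : Type} [TopologicalSpace M] [ChartedSpace E M] [IsManifold 𝓘(ℂ, E) ω M]

/-- `𝓕 x` is a set of bases of the tangent space at `x`, an orbit of the finite group `H` of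
matrices; through every basis in `𝓕 x₀` passes a local holomorphic frame with values in `𝓕`, whose
brackets have the constant structure constants `c`, those of a nilpotent Lie algebra; the
derivative of `f` maps the bases in `𝓕 x` to bases in `𝓕 (f x)` multiplied by the constant matrix
`a`, which has no eigenvalue of modulus one. -/
structure InfraFrame (f : M → M) {n : ℕ} (𝓕 : (x : M) → Set (Fin n → TangentSpace 𝓘(ℂ, E) x))
    (H : Subgroup (GL (Fin n) ℂ)) (c : Fin n → Fin n → Fin n → ℂ) (a : GL (Fin n) ℂ) : Prop where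
  fin : Finite H
  basis : ∀ x, ∀ v ∈ 𝓕 x, LinearIndependent ℂ v ∧ Submodule.span ℂ (range v) = ⊤
  nonempty : ∀ x, (𝓕 x).Nonempty
  orbit : ∀ x, ∀ v ∈ 𝓕 x, ∀ w, w ∈ 𝓕 x ↔
    ∃ h ∈ H, w = fmul v ((h : GL (Fin n) ℂ) : Matrix (Fin n) (Fin n) ℂ)
  loc : ∀ x₀, ∀ v ∈ 𝓕 x₀, ∃ X : Fin n → (x : M) → TangentSpace 𝓘(ℂ, E) x,
    (∀ i, X i x₀ = v i) ∧ ∀ᶠ x in 𝓝 x₀, (∀ i, HolAt (X i) x) ∧ (fun i => X i x) ∈ 𝓕 x ∧
      ∀ i j, VectorField.mlieBracket 𝓘(ℂ, E) (X i) (X j) x = ∑ l, c i j l • X l x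
  lie : (∀ u : Fin n → ℂ, brc c u u = 0) ∧ ∀ u v w : Fin n → ℂ,
    brc c u (brc c v w) = brc c (brc c u v) w + brc c v (brc c u w)
  nil : ∃ b : Module.Basis (Fin n) ℂ (Fin n → ℂ), ∀ (u : Fin n → ℂ) (i : Fin n),
    brc c u (b i) ∈ Submodule.span ℂ (b '' {j | j < i})
  push : ∀ x, ∀ v ∈ 𝓕 x, ∃ w ∈ 𝓕 (f x), ∀ i,
    mfderiv 𝓘(ℂ, E) 𝓘(ℂ, E) f x (v i) = fmul w (a : Matrix (Fin n) (Fin n) ℂ) i
  hyp : ∀ (l : ℂ) (t : Fin n → ℂ), ‖l‖ = 1 →
    (a : Matrix (Fin n) (Fin n) ℂ).mulVec t = l • t → t = 0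

end

end Pool.Agent.HOG
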