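import Pool.Agent.HOG.Orb

/-!
# HOG/Lift: local analytic lifts to the linear group

The orbit map of a regular tuple of tensors has an injective derivative at every invertible matrix
and is proper; so it has a local analytic left inverse, and an analytic map with values in the orbit
lifts locally to the linear group.
-/

open scoped BigOperators Topology
open Filter Set

namespace Pool.Agent.HOG

noncomputable section

variable {E : Type} [NormedAddCommGroup E] [NormedSpace ℂ E] [FiniteDimensional ℂ E]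

private theorem diag_smul {n k L : ℕ} (T : Ix n k L → ℂ) (c : ℂ) (v : Fin n → ℂ) (l : Fin L) :
    diag T (c • v) l = c ^ k * diag T v l := by
  simp only [diag, Pi.smul_apply, smul_eq_mul, Finset.prod_mul_distrib, Finset.prod_const,
    Finset.card_univ, Fintype.card_fin, Finset.mul_sum, mul_assoc]

private theorem diag_cont {n k L : ℕ} (T : Ix n k L → ℂ) (l : Fin L) :
    Continuous fun v : Fin n → ℂ => diag T v l := by
  unfold diag
  exact continuous_finsetSum _ fun j _ => Continuous.mul (continuous_finsetProd _ fun a _ =>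
    continuous_apply (j a)) continuous_const

private theorem lin_zero {n k L : ℕ} (hk : 1 ≤ k) {F : Ix n k L → ℂ} (hF : Reg F)
    (X : (Fin n → ℂ) →ₗ[ℂ] (Fin n → ℂ))
    (h : ∀ (u : Fin n → ℂ) (l : Fin L), HasDerivAt (fun s : ℂ => diag F (u + s • X u) l) 0 0) :
    X = 0 := by
  have h1 : ∀ (v : Fin n → ℂ) (c : ℂ), v ≠ 0 → X v = c • v → c = 0 := by
    intro v c hv hc
    by_contra hc0
    have hd : ∃ l, diag F v l ≠ 0 := by
      by_contra hh
      push Not at hh
      exact hv (hF v (funext hh))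
    obtain ⟨l, hl⟩ := hd
    have h2 := h v l
    have e : (fun s : ℂ => diag F (v + s • X v) l) = fun s => (1 + s * c) ^ k * diag F v l := by
      funext s
      rw [← diag_smul, hc, add_smul, one_smul, mul_smul]
    rw [e] at h2
    have h3 : HasDerivAt (fun s : ℂ => (1 + s * c) ^ k * diag F v l)
        (((k : ℂ) * (1 + 0 * c) ^ (k - 1) * (1 * c)) * diag F v l) 0 :=
      ((((hasDerivAt_id (0 : ℂ)).mul_const c).const_add 1).pow k).mul_const (diag F v l)
    have h4 := h3.unique h2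
    have hk0 : (k : ℂ) ≠ 0 := by
      have : k ≠ 0 := by omega
      exact_mod_cast this
    simp [hk0, hc0, hl] at h4
  have h2 : ∀ u : Fin n → ℂ, X (X u) = 0 → X u = 0 := by
    intro u hu
    set w := X u with hw
    refine hF w (funext fun l => ?_)
    have hφ : ∀ s₀ : ℂ, HasDerivAt (fun s : ℂ => diag F (u + s • w) l) 0 s₀ := by
      intro s₀
      have h3 := h (u + s₀ • w) l
      have e : (fun s : ℂ => diag F (u + s₀ • w + s • X (u + s₀ • w)) l) =
          fun s => diag F (u + (s₀ + s) • w) l := by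
        funext s
        rw [map_add, map_smul, hu, smul_zero, add_zero, ← hw, add_smul, add_assoc]
      rw [e] at h3
      have h4 := HasDerivAt.comp_sub_const (f := fun s : ℂ => diag F (u + (s₀ + s) • w) l) s₀ s₀
        (by rw [sub_self]; exact h3)
      refine h4.congr_of_eventuallyEq (Eventually.of_forall fun s => ?_)
      show diag F (u + s • w) l = diag F (u + (s₀ + (s - s₀)) • w) l
      rw [add_sub_cancel]
    have hconst : ∀ s : ℂ, diag F (u + s • w) l = diag F (u + (0 : ℂ) • w) l := by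
      intro s
      exact is_const_of_deriv_eq_zero (fun s => (hφ s).differentiableAt) (fun s => (hφ s).deriv) s 0
    have hr : ∀ r : ℂ, r ∈ ({0}ᶜ : Set ℂ) → diag F (r • u + w) l = r ^ k * diag F u l := by
      intro r hr
      have hr0 : r ≠ 0 := hr
      have h5 := hconst r⁻¹
      rw [zero_smul, add_zero] at h5
      have e : r • u + w = r • (u + r⁻¹ • w) := by
        rw [smul_add, smul_smul, mul_inv_cancel₀ hr0, one_smul]
      rw [e, diag_smul, h5]
    have hc1 : Continuous fun r : ℂ => diag F (r • u + w) l :=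
      (diag_cont F l).comp (by fun_prop)
    have hc2 : Continuous fun r : ℂ => r ^ k * diag F u l := by fun_prop
    have h6 := congrFun (hc1.ext_on (dense_compl_singleton (0 : ℂ)) hc2 hr) 0
    have h7 : diag F ((0 : ℂ) • u + w) l = (0 : ℂ) ^ k * diag F u l := h6
    rw [zero_smul, zero_add, zero_pow (by omega), zero_mul] at h7
    exact h7
  by_contra hX
  have hR : LinearMap.range X ≠ ⊥ := fun hh => hX (LinearMap.range_eq_bot.1 hh)
  have hnt : Nontrivial (LinearMap.range X) := (Submodule.nontrivial_iff_ne_bot).2 hR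
  obtain ⟨c, hc⟩ := Module.End.exists_eigenvalue
    (X.restrict (p := LinearMap.range X) (q := LinearMap.range X) (fun x _ => LinearMap.mem_range_self X x))
  obtain ⟨v, hv⟩ := hc.exists_hasEigenvector
  have hv1 : X (v : Fin n → ℂ) = c • (v : Fin n → ℂ) := congrArg Subtype.val hv.apply_eq_smul
  have hv0 : (v : Fin n → ℂ) ≠ 0 := fun hh => hv.2 (Subtype.ext hh)
  have hc0 := h1 v c hv0 hv1
  obtain ⟨u, hu⟩ := v.2
  rw [hc0, zero_smul, ← hu] at hv1
  exact hv0 (hu ▸ h2 u hv1)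


/-- the orbit map on functions of two variables -/
private def Am {n k L : ℕ} (F : Ix n k L → ℂ) (g : Fin n → Fin n → ℂ) : Ix n k L → ℂ :=
  act (Matrix.of g) F

private theorem Am_contDiff {n k L : ℕ} (F : Ix n k L → ℂ) : ContDiff ℂ ⊤ (Am F) := by
  refine contDiff_pi.2 fun p => ?_
  show ContDiff ℂ ⊤ fun g : Fin n → Fin n → ℂ => ∑ j : Fin k → Fin n, (∏ a, g (j a) (p.1 a)) * F (j, p.2)
  refine ContDiff.sum fun j _ => ContDiff.mul ?_ contDiff_const
  exact contDiff_prod fun a _ => by fun_prop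

private theorem Am_cont {n k L : ℕ} (F : Ix n k L → ℂ) : Continuous (Am F) := (Am_contDiff F).continuous

private theorem Am_smul {n k L : ℕ} (F : Ix n k L → ℂ) (c : ℂ) (g : Fin n → Fin n → ℂ) :
    Am F (c • g) = c ^ k • Am F g := by
  funext p
  show ∑ j : Fin k → Fin n, (∏ a, c * g (j a) (p.1 a)) * F (j, p.2) =
    c ^ k * ∑ j : Fin k → Fin n, (∏ a, g (j a) (p.1 a)) * F (j, p.2)
  simp only [Finset.prod_mul_distrib, Finset.prod_const, Finset.card_univ, Fintype.card_fin,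
    Finset.mul_sum, mul_assoc]

private theorem Am_zero {n k L : ℕ} {F : Ix n k L → ℂ} (hF : Reg F) (g : Fin n → Fin n → ℂ)
    (h : Am F g = 0) : g = 0 := by
  have h1 : ∀ v : Fin n → ℂ, (Matrix.of g).mulVec v = 0 := by
    intro v
    refine hF _ ?_
    rw [← diag_act]
    have h2 : act (Matrix.of g) F = 0 := h
    rw [h2]
    funext l
    simp [diag]
  funext i j
  have h3 := congrFun (h1 (Pi.single j 1)) i
  rw [Matrix.mulVec_single_one] at h3
  exact h3

private theorem Am_inj {n k L : ℕ} (hk : 1 ≤ k) {F : Ix n k L → ℂ} (hF : Reg F)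
    {g₀ : Fin n → Fin n → ℂ} (hg : (Matrix.of g₀).det ≠ 0) {Y : Fin n → Fin n → ℂ}
    (hY : fderiv ℂ (Am F) g₀ Y = 0) : Y = 0 := by
  have hd : HasFDerivAt (Am F) (fderiv ℂ (Am F) g₀) g₀ :=
    ((Am_contDiff F).contDiffAt.differentiableAt (by simp)).hasFDerivAt
  have hl : HasDerivAt (fun s : ℂ => Am F (g₀ + s • Y)) 0 0 := by
    have h1 : HasDerivAt (fun s : ℂ => g₀ + s • Y) Y 0 := by
      have := ((hasDerivAt_id (0 : ℂ)).smul_const Y).const_add g₀
      simpa using this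
    have h2 : HasFDerivAt (Am F) (fderiv ℂ (Am F) g₀) (g₀ + (0 : ℂ) • Y) := by
      rw [zero_smul, add_zero]
      exact hd
    have h3 := h2.comp_hasDerivAt (0 : ℂ) h1
    rw [hY] at h3
    exact h3
  have hdiag : ∀ (v : Fin n → ℂ) (l : Fin L), HasDerivAt (fun s : ℂ =>
      diag F ((Matrix.of g₀).mulVec v + s • (Matrix.of Y).mulVec v) l) 0 0 := by
    intro v l
    have e : (fun s : ℂ => diag F ((Matrix.of g₀).mulVec v + s • (Matrix.of Y).mulVec v) l) =
        fun s => ∑ j : Fin k → Fin n, (∏ a, v (j a)) * Am F (g₀ + s • Y) (j, l) := by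
      funext s
      have h1 : (Matrix.of g₀).mulVec v + s • (Matrix.of Y).mulVec v =
          (Matrix.of (g₀ + s • Y)).mulVec v := by
        have h2 : Matrix.of (g₀ + s • Y) = Matrix.of g₀ + s • Matrix.of Y := rfl
        rw [h2, Matrix.add_mulVec, Matrix.smul_mulVec]
      rw [h1, ← diag_act]
      rfl
    rw [e]
    have h3 : HasDerivAt (fun s : ℂ => ∑ j : Fin k → Fin n, (∏ a, v (j a)) * Am F (g₀ + s • Y) (j, l))
        (∑ j : Fin k → Fin n, (∏ a, v (j a)) * 0) 0 := by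
      refine HasDerivAt.fun_sum fun j _ => HasDerivAt.const_mul _ ?_
      exact (hasDerivAt_pi.1 hl) (j, l)
    simpa using h3
  have hu : IsUnit (Matrix.of g₀).det := isUnit_iff_ne_zero.2 hg
  have hX : (Matrix.of Y * (Matrix.of g₀)⁻¹).mulVecLin = 0 := by
    refine lin_zero hk hF _ fun u l => ?_
    have h1 := hdiag ((Matrix.of g₀)⁻¹.mulVec u) l
    rw [Matrix.mulVec_mulVec, Matrix.mul_nonsing_inv _ hu, Matrix.one_mulVec, Matrix.mulVec_mulVec] at h1
    exact h1
  have h2 : Matrix.of Y * (Matrix.of g₀)⁻¹ = 0 := by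
    have h3 := congrArg LinearMap.toMatrix' hX
    rw [map_zero] at h3
    rw [← h3, ← Matrix.toLin'_apply', LinearMap.toMatrix'_toLin']
  have h3 : Matrix.of Y = 0 := by
    have h4 : Matrix.of Y = Matrix.of Y * (Matrix.of g₀)⁻¹ * Matrix.of g₀ := by
      rw [Matrix.mul_assoc, Matrix.nonsing_inv_mul _ hu, Matrix.mul_one]
    rw [h4, h2, Matrix.zero_mul]
  exact h3

private theorem loc_inv {n k L : ℕ} (hk : 1 ≤ k) {F : Ix n k L → ℂ} (hF : Reg F)
    {g₀ : Fin n → Fin n → ℂ} (hg : (Matrix.of g₀).det ≠ 0) :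
    ∃ G : (Ix n k L → ℂ) → (Fin n → Fin n → ℂ), AnalyticAt ℂ G (Am F g₀) ∧ G (Am F g₀) = g₀ ∧
      ∀ᶠ g in 𝓝 g₀, G (Am F g) = g := by
  have hinj : Function.Injective (fderiv ℂ (Am F) g₀ : (Fin n → Fin n → ℂ) →ₗ[ℂ] (Ix n k L → ℂ)) := by
    rw [injective_iff_map_eq_zero]
    intro Y hY
    exact Am_inj hk hF hg hY
  obtain ⟨π, hπ⟩ := LinearMap.exists_leftInverse_of_injective _ (LinearMap.ker_eq_bot.2 hinj)
  let P : (Ix n k L → ℂ) →L[ℂ] (Fin n → Fin n → ℂ) := LinearMap.toContinuousLinearMap π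
  have hc : ContDiffAt ℂ ⊤ (fun g => P (Am F g)) g₀ :=
    (P.contDiff.comp (Am_contDiff F)).contDiffAt
  have hd : HasFDerivAt (fun g => P (Am F g))
      ((ContinuousLinearEquiv.refl ℂ (Fin n → Fin n → ℂ) : (Fin n → Fin n → ℂ) →L[ℂ] _)) g₀ := by
    have h1 : HasFDerivAt (Am F) (fderiv ℂ (Am F) g₀) g₀ :=
      ((Am_contDiff F).contDiffAt.differentiableAt (by simp)).hasFDerivAt
    have h2 := (P.hasFDerivAt (x := Am F g₀)).comp g₀ h1
    have e : P.comp (fderiv ℂ (Am F) g₀) =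
        (ContinuousLinearEquiv.refl ℂ (Fin n → Fin n → ℂ) : (Fin n → Fin n → ℂ) →L[ℂ] _) := by
      refine ContinuousLinearMap.ext fun Y => ?_
      exact LinearMap.congr_fun hπ Y
    rw [← e]
    exact h2
  have hn : (⊤ : WithTop ℕ∞) ≠ 0 := by simp
  have h3 := hc.to_localInverse hd hn
  have h4 : hc.localInverse hd hn (P (Am F g₀)) = g₀ := hc.localInverse_apply_image hd hn
  have h5 : ∀ᶠ g in 𝓝 g₀, hc.localInverse hd hn (P (Am F g)) = g :=
    (hc.hasStrictFDerivAt' hd hn).eventually_left_inverse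
  refine ⟨fun w => hc.localInverse hd hn (P w), ?_, h4, h5⟩
  have h6 : AnalyticAt ℂ (hc.localInverse hd hn) (P (Am F g₀)) := h3.analyticAt
  exact h6.comp (P.analyticAt _)


private theorem Am_bdd {n k L : ℕ} (hk : 1 ≤ k) {F : Ix n k L → ℂ} (hF : Reg F) (C : ℝ) :
    ∃ R : ℝ, ∀ g : Fin n → Fin n → ℂ, ‖Am F g‖ ≤ C → ‖g‖ ≤ R := by
  have hδ : ∃ δ : ℝ, 0 < δ ∧ ∀ g ∈ Metric.sphere (0 : Fin n → Fin n → ℂ) 1, δ ≤ ‖Am F g‖ := by
    rcases (Metric.sphere (0 : Fin n → Fin n → ℂ) 1).eq_empty_or_nonempty with he | hne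
    · refine ⟨1, one_pos, fun g hg => ?_⟩
      rw [he] at hg
      exact hg.elim
    · obtain ⟨g, hg, hm⟩ := (isCompact_sphere (0 : Fin n → Fin n → ℂ) 1).exists_isMinOn hne
        ((Am_cont F).norm.continuousOn)
      refine ⟨‖Am F g‖, norm_pos_iff.2 fun h0 => ?_, fun g' hg' => hm hg'⟩
      have h1 := Am_zero hF g h0
      rw [h1] at hg
      simp at hg
  obtain ⟨δ, hδ0, hδ⟩ := hδ
  refine ⟨max 1 (C / δ), fun g hg => ?_⟩
  rcases le_or_gt ‖g‖ 1 with h1 | h1
  · exact h1.trans (le_max_left _ _)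
  · refine le_trans ?_ (le_max_right _ _)
    have hg0 : ‖g‖ ≠ 0 := by positivity
    rw [le_div_iff₀ hδ0]
    have h2 : ((‖g‖⁻¹ : ℝ) : ℂ) • g ∈ Metric.sphere (0 : Fin n → Fin n → ℂ) 1 := by
      rw [mem_sphere_zero_iff_norm, norm_smul, Complex.norm_real, norm_inv, norm_norm, inv_mul_cancel₀ hg0]
    have h3 := hδ _ h2
    rw [Am_smul, norm_smul, norm_pow, Complex.norm_real, norm_inv, norm_norm] at h3
    have h4 : δ * ‖g‖ ^ k ≤ ‖Am F g‖ := by
      have h5 : 0 < ‖g‖ ^ k := by positivity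
      calc δ * ‖g‖ ^ k ≤ ((‖g‖⁻¹) ^ k * ‖Am F g‖) * ‖g‖ ^ k := by gcongr
        _ = ‖Am F g‖ := by
          rw [inv_pow]
          field_simp
    have h5 : ‖g‖ ≤ ‖g‖ ^ k := le_self_pow₀ h1.le (by omega)
    calc ‖g‖ * δ = δ * ‖g‖ := mul_comm _ _
      _ ≤ δ * ‖g‖ ^ k := by gcongr
      _ ≤ ‖Am F g‖ := h4
      _ ≤ C := hg

private theorem act_inv {n k L : ℕ} {g : Matrix (Fin n) (Fin n) ℂ} (hg : g.det ≠ 0)
    {T S : Ix n k L → ℂ} (h : act g T = act g S) : T = S := by
  have hu : IsUnit g.det := isUnit_iff_ne_zero.2 hg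
  have h1 : act g⁻¹ (act g T) = act g⁻¹ (act g S) := by rw [h]
  rw [← act_mul, ← act_mul, Matrix.mul_nonsing_inv _ hu, act_one, act_one] at h1
  exact h1

theorem local_lift {n k L : ℕ} (hk : 1 ≤ k) {F : Ix n k L → ℂ} (hF : Reg F)
    {t : E → Ix n k L → ℂ} {U : Set E} (hU : IsOpen U) (ht : AnalyticOnNhd ℂ t U)
    (hor : ∀ z ∈ U, ∃ g : Matrix (Fin n) (Fin n) ℂ, g.det ≠ 0 ∧ t z = act g F)
    {z₀ : E} (hz₀ : z₀ ∈ U) {g₀ : Matrix (Fin n) (Fin n) ℂ} (hg₀ : g₀.det ≠ 0)
    (h0 : t z₀ = act g₀ F) :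
    ∃ γ : E → Matrix (Fin n) (Fin n) ℂ, (∀ i j, AnalyticAt ℂ (fun z => γ z i j) z₀) ∧
      γ z₀ = g₀ ∧ ∀ᶠ z in 𝓝 z₀, t z = act (γ z) F := by
  obtain ⟨G, hG, hG0, hGl⟩ := loc_inv hk hF (g₀ := g₀) hg₀
  have hta : AnalyticAt ℂ t z₀ := ht z₀ hz₀
  have htz : t z₀ = Am F g₀ := h0
  have hGt : AnalyticAt ℂ (fun z => G (t z)) z₀ := by
    refine AnalyticAt.comp (g := G) ?_ hta
    rw [htz]
    exact hG
  refine ⟨fun z => Matrix.of (G (t z)), ?_, ?_, ?_⟩
  · intro i j
    have h1 : AnalyticAt ℂ (fun g : Fin n → Fin n → ℂ => g i j) (G (t z₀)) :=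
      ((ContinuousLinearMap.proj (R := ℂ) (φ := fun _ : Fin n => ℂ) j).comp
        (ContinuousLinearMap.proj (R := ℂ) (φ := fun _ : Fin n => Fin n → ℂ) i)).analyticAt _
    exact AnalyticAt.fun_comp (g := fun g : Fin n → Fin n → ℂ => g i j) (f := fun z => G (t z)) h1 hGt
  · show Matrix.of (G (t z₀)) = g₀
    rw [htz, hG0]
    rfl
  · by_contra hcon
    have hfr : ∃ᶠ z in 𝓝 z₀, ¬ (t z = act (Matrix.of (G (t z))) F) := Filter.not_eventually.1 hcon
    have hne : (𝓝 z₀ ⊓ 𝓟 {z | ¬ (t z = act (Matrix.of (G (t z))) F)}).NeBot :=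
      frequently_mem_iff_neBot.1 hfr
    obtain ⟨u, hu⟩ := Ultrafilter.exists_le (𝓝 z₀ ⊓ 𝓟 {z | ¬ (t z = act (Matrix.of (G (t z))) F)})
    have hu1 : (u : Filter E) ≤ 𝓝 z₀ := hu.trans inf_le_left
    have hu2 : ∀ᶠ z in (u : Filter E), ¬ (t z = act (Matrix.of (G (t z))) F) :=
      (hu.trans inf_le_right) (mem_principal_self _)
    have huU : ∀ᶠ z in (u : Filter E), z ∈ U := hu1 (hU.mem_nhds hz₀)
    choose! gg hgg using hor
    have htt : Tendsto t (u : Filter E) (𝓝 (t z₀)) := hta.continuousAt.tendsto.mono_left hu1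
    have hbd : ∀ᶠ z in (u : Filter E), ‖t z‖ ≤ ‖t z₀‖ + 1 := by
      have := htt.norm.eventually (Iic_mem_nhds (lt_add_one ‖t z₀‖))
      exact this
    obtain ⟨R, hR⟩ := Am_bdd hk hF (‖t z₀‖ + 1)
    let gv : E → (Fin n → Fin n → ℂ) := fun z => gg z
    have hgR : ∀ᶠ z in (u : Filter E), gv z ∈ Metric.closedBall (0 : Fin n → Fin n → ℂ) R := by
      filter_upwards [hbd, huU] with z h1 h2
      rw [mem_closedBall_zero_iff]
      refine hR _ ?_
      have h3 : Am F (gv z) = t z := (hgg z h2).2.symm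
      rw [h3]
      exact h1
    obtain ⟨g, -, hgl⟩ := (isCompact_closedBall (0 : Fin n → Fin n → ℂ) R).ultrafilter_le_nhds
      (u.map gv) (le_principal_iff.2 hgR)
    have hgt : Tendsto gv (u : Filter E) (𝓝 g) := hgl
    have hAg : Am F g = t z₀ := by
      refine tendsto_nhds_unique (((Am_cont F).tendsto g).comp hgt) (htt.congr' ?_)
      filter_upwards [huU] with z hz
      exact (hgg z hz).2
    have hgd : (Matrix.of g).det ≠ 0 := by
      intro hd0
      obtain ⟨v, hv, hv0⟩ := Matrix.exists_mulVec_eq_zero_iff.2 hd0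
      have h1 : diag (act (Matrix.of g) F) v = 0 := by
        rw [diag_act, hv0]
        funext l
        have := diag_smul F 0 (0 : Fin n → ℂ) l
        rw [zero_smul, zero_pow (by omega), zero_mul] at this
        exact this
      have h2 : act (Matrix.of g) F = act g₀ F := by rw [← h0]; exact hAg
      rw [h2, diag_act] at h1
      have h3 := hF _ h1
      exact hv ((Matrix.mulVec_injective_iff_isUnit.2 ((Matrix.isUnit_iff_isUnit_det _).2
        (isUnit_iff_ne_zero.2 hg₀))) (by rw [h3, Matrix.mulVec_zero]))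
    have hu0 : IsUnit g₀.det := isUnit_iff_ne_zero.2 hg₀
    have hug : IsUnit (Matrix.of g).det := isUnit_iff_ne_zero.2 hgd
    -- the stabiliser element
    let h : Matrix (Fin n) (Fin n) ℂ := g₀ * (Matrix.of g)⁻¹
    have hh : act h F = F := by
      refine act_inv hgd ?_
      rw [← act_mul, Matrix.mul_assoc, Matrix.nonsing_inv_mul _ hug, Matrix.mul_one, ← h0]
      exact hAg.symm
    have hlim : Tendsto (fun z => (h * gg z : Matrix (Fin n) (Fin n) ℂ)) (u : Filter E) (𝓝 g₀) := by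
      have h1 : Tendsto (fun z => gg z) (u : Filter E) (𝓝 (Matrix.of g)) := hgt
      have h2 := h1.const_mul h
      have h3 : h * Matrix.of g = g₀ := by
        rw [Matrix.mul_assoc, Matrix.nonsing_inv_mul _ hug, Matrix.mul_one]
      rw [h3] at h2
      exact h2
    have hev := hlim.eventually hGl
    have hfin : ∀ᶠ z in (u : Filter E), False := by
      filter_upwards [hev, hu2, huU] with z h1 h2 h3
      apply h2
      have h4 : act (h * gg z) F = t z := by
        rw [act_mul, hh]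
        exact (hgg z h3).2.symm
      have h5 : G (t z) = h * gg z := by
        rw [← h4]
        exact h1
      rw [h5]
      exact h4.symm
    exact (u.neBot.ne (by simpa using hfin)).elim

theorem lift_unique {n k L : ℕ} (hk : 1 ≤ k) {F : Ix n k L → ℂ} (hF : Reg F) {X : Type}
    [TopologicalSpace X] {γ γ' : X → Matrix (Fin n) (Fin n) ℂ} {z₀ : X}
    (hγ : ContinuousAt γ z₀) (hγ' : ContinuousAt γ' z₀) (h0 : γ z₀ = γ' z₀)
    (hdet : (γ z₀).det ≠ 0) (h : ∀ᶠ z in 𝓝 z₀, act (γ z) F = act (γ' z) F) :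
    ∀ᶠ z in 𝓝 z₀, γ z = γ' z := by
  obtain ⟨G, -, -, hGl⟩ := loc_inv hk hF (g₀ := γ z₀) hdet
  have h1 : ∀ᶠ z in 𝓝 z₀, G (Am F (γ z)) = γ z := hγ.tendsto.eventually hGl
  have h2 : ∀ᶠ z in 𝓝 z₀, G (Am F (γ' z)) = γ' z := by
    rw [h0] at hGl
    exact hγ'.tendsto.eventually hGl
  filter_upwards [h, h1, h2] with z ha hb hc
  have hd : Am F (γ z) = Am F (γ' z) := ha
  have he : γ z = G (Am F (γ z)) := hb.symm
  rw [he, hd]
  exact hc

end

end Pool.Agent.HOG
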