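import Pool.Agent.HOG.TAlg
import Pool.Agent.HOG.RepL
import Pool.Agent.HOG.Lift

/-!
# HOG/LocFr: local holomorphic frames with constant tensor coordinates

PLAN.  Let `e = chartAt E x₀`, `β` a basis of `E` indexed by `Fin n`, and
`t z = tup τ (e.symm z) (fun i => ilc e z (β i))`, analytic on `e.target` (definition of `HolTensor`).
For `z ∈ e.target` the frame `v` at `e.symm z` with `tup = F` (`hall`) is related to the frame
`ilc e z (β i)` (a basis) by a matrix with nonzero determinant (`exists_fmul`, `tup_indep`), so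
`t z = act g F` with `g.det ≠ 0`.  At `z₀ = e x₀`, let `g₀` be the matrix with
`(ilc e z₀ (β i))_i = fmul v₀ g₀`; `t z₀ = act g₀ F`.  `local_lift` gives `γ`.  Put
`X i x = Σ_j (γ (e x))⁻¹ j i • ilc e (e x) (β j)` (transported to the tangent space at `x` for
`x ∈ e.source`; e.g. define `X i x` as the vector with `lc e x (X i x) = Σ_j (γ (e x))⁻¹ j i • β j`,
`= ilc e (e x) (..)` cast along `e.symm (e x) = x`, or by choice from the bijectivity of `lc e x`; `0`
outside the source).  Then `tup τ x (X · x) = act (γ (e x))⁻¹ (act (γ (e x)) F) = F`, `X i x₀ = v₀ i`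
(`fmul_mul`), and `rep e (X i) z = Σ_j (γ z)⁻¹ j i • β j` near `z₀` is analytic (inverse matrix:
adjugate over determinant), so `holAt_of_rep`.
`lf_unique`: in the chart `e` both frames are `ilc e z (β ·)` times matrices `γ z`, `γ' z` continuous
at `z₀` and equal there; `lift_unique` (for the inverse matrices: `t z = act (γ z)⁻¹ F`).
-/

open scoped Manifold ContDiff Topology BigOperators
open Set Metric Filter

namespace Pool.Agent.HOG

open Pool.Agent.HOA

noncomputable section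

variable {E : Type} [NormedAddCommGroup E] [NormedSpace ℂ E] [FiniteDimensional ℂ E]
variable {M : Type} [TopologicalSpace M] [T2Space M] [CompactSpace M] [ChartedSpace E M]
  [IsManifold 𝓘(ℂ, E) ω M]

/-- the vectors with constant coordinates in a chart are linearly independent -/
private theorem bz_indep {n : ℕ} {e : OpenPartialHomeomorph M E} (he : e ∈ atlas E M) {z : E}
    (hz : z ∈ e.target) {β : Fin n → E} (hβ : LinearIndependent ℂ β) :
    LinearIndependent ℂ (fun i => ilc e z (β i)) := by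
  let f : TangentSpace 𝓘(ℂ, E) (e.symm z) →ₗ[ℂ] E :=
    (mfderiv 𝓘(ℂ, E) 𝓘(ℂ, E) e (e.symm z)).toLinearMap
  refine LinearIndependent.of_comp f ?_
  have h1 : (f ∘ fun i => ilc e z (β i)) = β := by
    funext i
    exact lc_ilc he hz (β i)
  rw [h1]
  exact hβ

private theorem ilc_sum {n : ℕ} (e : OpenPartialHomeomorph M E) (z : E) (c : Fin n → ℂ)
    (β : Fin n → E) : ilc e z (∑ j, c j • β j) = ∑ j, c j • ilc e z (β j) := by
  let f : E →ₗ[ℂ] TangentSpace 𝓘(ℂ, E) (e.symm z) :=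
    (mfderiv 𝓘(ℂ, E) 𝓘(ℂ, E) e.symm z).toLinearMap
  have h : f (∑ j, c j • β j) = ∑ j, c j • f (β j) := by
    rw [map_sum]
    exact Finset.sum_congr rfl fun j _ => map_smul _ _ _
  exact h

private theorem t_analytic {n k L : ℕ} (τ : Fin L → HT E M k) {e : OpenPartialHomeomorph M E}
    (he : e ∈ atlas E M) (β : Fin n → E) :
    AnalyticOnNhd ℂ (fun z => tup τ (e.symm z) (fun i => ilc e z (β i))) e.target := by
  intro z hz
  refine AnalyticAt.pi fun p => ?_
  exact (τ p.2).2 e he (fun a => β (p.1 a)) z hz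

private theorem det_an {n : ℕ} {γ : E → Matrix (Fin n) (Fin n) ℂ} {z₀ : E}
    (h : ∀ i j, AnalyticAt ℂ (fun z => γ z i j) z₀) : AnalyticAt ℂ (fun z => (γ z).det) z₀ := by
  simp only [Matrix.det_apply]
  refine Finset.analyticAt_fun_sum _ fun σ _ => ?_
  have h1 : AnalyticAt ℂ (fun z => ∏ i, γ z (σ i) i) z₀ :=
    Finset.analyticAt_fun_prod _ fun i _ => h _ _
  rcases Int.units_eq_one_or (Equiv.Perm.sign σ) with h2 | h2
  · simp only [h2, one_smul]
    exact h1
  · simp only [h2, Units.neg_smul, one_smul]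
    exact h1.neg

private theorem inv_an {n : ℕ} {γ : E → Matrix (Fin n) (Fin n) ℂ} {z₀ : E}
    (h : ∀ i j, AnalyticAt ℂ (fun z => γ z i j) z₀) (hd : (γ z₀).det ≠ 0) (i j : Fin n) :
    AnalyticAt ℂ (fun z => (γ z)⁻¹ i j) z₀ := by
  have e : (fun z => (γ z)⁻¹ i j) = fun z => ((γ z).det)⁻¹ * ((γ z).updateRow j (Pi.single i 1)).det := by
    funext z
    rw [Matrix.inv_def, Ring.inverse_eq_inv', Matrix.smul_apply, Matrix.adjugate_apply, smul_eq_mul]
  rw [e]
  refine ((det_an h).inv hd).mul (det_an fun a b => ?_)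
  by_cases ha : a = j
  · subst ha
    simp only [Matrix.updateRow_self]
    exact analyticAt_const
  · simp only [Matrix.updateRow_ne ha]
    exact h a b

private theorem inv_cont {n : ℕ} {γ : E → Matrix (Fin n) (Fin n) ℂ} {z₀ : E}
    (h : ContinuousAt γ z₀) (hd : (γ z₀).det ≠ 0) : ContinuousAt (fun z => (γ z)⁻¹) z₀ := by
  have e : (fun z => (γ z)⁻¹) = (fun A : Matrix (Fin n) (Fin n) ℂ => (A.det)⁻¹ • A.adjugate) ∘ γ := by
    funext z
    show (γ z)⁻¹ = ((γ z).det)⁻¹ • (γ z).adjugate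
    rw [Matrix.inv_def, Ring.inverse_eq_inv']
  rw [e]
  refine ContinuousAt.comp ?_ h
  refine ContinuousAt.smul (ContinuousAt.inv₀ ?_ hd) ?_
  · exact (Continuous.matrix_det continuous_id).continuousAt
  · exact (Continuous.matrix_adjugate continuous_id).continuousAt

/-- the local frame in a chart -/
private theorem lf_aux {n k L : ℕ} (hk : 1 ≤ k) (hn : Module.finrank ℂ E = n)
    (τ : Fin L → HT E M k) {F : Ix n k L → ℂ} (hF : Reg F)
    (hall : ∀ x : M, ∃ v : Fin n → TangentSpace 𝓘(ℂ, E) x, tup τ x v = F)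
    (hHol : ∀ {X : (x : M) → TangentSpace 𝓘(ℂ, E) x} {x : M}
      {e : OpenPartialHomeomorph M E}, e ∈ atlas E M → x ∈ e.source →
      AnalyticAt ℂ (rep e X) (e x) → HolAt X x)
    (htf : ∀ (x : M) (v : Fin n → TangentSpace 𝓘(ℂ, E) x) (g : Matrix (Fin n) (Fin n) ℂ),
      tup τ x (fmul v g) = act g (tup τ x v))
    (hind : ∀ {x : M} {v : Fin n → TangentSpace 𝓘(ℂ, E) x}, Reg (tup τ x v) →
      LinearIndependent ℂ v)
    (hex : ∀ {x : M} {v : Fin n → TangentSpace 𝓘(ℂ, E) x}, LinearIndependent ℂ v →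
      ∀ w : Fin n → TangentSpace 𝓘(ℂ, E) x,
      ∃ g : Matrix (Fin n) (Fin n) ℂ, w = fmul v g ∧ (LinearIndependent ℂ w → g.det ≠ 0))
    {e : OpenPartialHomeomorph M E} (he : e ∈ atlas E M) {z₀ : E} (hz₀ : z₀ ∈ e.target)
    (v₀ : Fin n → TangentSpace 𝓘(ℂ, E) (e.symm z₀)) (h0 : tup τ (e.symm z₀) v₀ = F) :
    ∃ X : Fin n → (x : M) → TangentSpace 𝓘(ℂ, E) x, (∀ i, X i (e.symm z₀) = v₀ i) ∧
      IsLF τ F X (e.symm z₀) := by
  let β : Module.Basis (Fin n) ℂ E := Module.finBasisOfFinrankEq ℂ E hn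
  let I : E → E → E := fun z w => ilc e z w
  have hbi : ∀ z ∈ e.target, LinearIndependent ℂ (fun i => ilc e z (β i)) := fun z hz =>
    bz_indep he hz β.linearIndependent
  have ht := t_analytic τ he (fun i => β i)
  have hor : ∀ z ∈ e.target, ∃ g : Matrix (Fin n) (Fin n) ℂ, g.det ≠ 0 ∧
      tup τ (e.symm z) (fun i => ilc e z (β i)) = act g F := by
    intro z hz
    obtain ⟨v, hv⟩ := hall (e.symm z)
    have hvi : LinearIndependent ℂ v := hind (by rw [hv]; exact hF)
    obtain ⟨g, hg1, hg2⟩ := hex hvi (fun i => ilc e z (β i))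
    refine ⟨g, hg2 (hbi z hz), ?_⟩
    rw [hg1, htf, hv]
  have hv0 : LinearIndependent ℂ v₀ := hind (by rw [h0]; exact hF)
  obtain ⟨g₀, hg1, hg2⟩ := hex hv0 (fun i => ilc e z₀ (β i))
  have hg0 := hg2 (hbi z₀ hz₀)
  obtain ⟨γ, hγ1, hγ2, hγ3⟩ := local_lift hk hF e.open_target ht hor hz₀ hg0 (by
    rw [hg1, htf, h0])
  let X : Fin n → (x : M) → TangentSpace 𝓘(ℂ, E) x :=
    fun i x => I (e x) (∑ j, (γ (e x))⁻¹ j i • β j)
  have hX : ∀ z ∈ e.target, (fun i => X i (e.symm z)) = fmul (fun i => ilc e z (β i)) (γ z)⁻¹ := by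
    intro z hz
    funext i
    show I (e (e.symm z)) (∑ j, (γ (e (e.symm z)))⁻¹ j i • β j) =
      ∑ j, (γ z)⁻¹ j i • ilc e z (β j)
    rw [e.right_inv hz]
    exact ilc_sum e z _ _
  have hd0 : (γ z₀).det ≠ 0 := by
    rw [hγ2]
    exact hg0
  refine ⟨X, ?_, ?_⟩
  · intro i
    have h1 := congrFun (hX z₀ hz₀) i
    rw [hγ2, hg1, fmul_mul, Matrix.mul_nonsing_inv _ (isUnit_iff_ne_zero.2 hg0), fmul_one] at h1
    exact h1
  · have hxs : e.symm z₀ ∈ e.source := e.map_target hz₀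
    have htend : Tendsto e (𝓝 (e.symm z₀)) (𝓝 z₀) := by
      have h1 := (e.continuousAt hxs).tendsto
      rw [e.right_inv hz₀] at h1
      exact h1
    -- analyticity of the coordinates
    have hco : ∀ i, AnalyticAt ℂ (fun z => ∑ j, (γ z)⁻¹ j i • β j) z₀ := by
      intro i
      refine Finset.analyticAt_fun_sum _ fun j _ => ?_
      exact (inv_an hγ1 hd0 j i).smul analyticAt_const
    have hrep : ∀ i, ∀ z ∈ e.target, rep e (X i) z = ∑ j, (γ z)⁻¹ j i • β j := by
      intro i z hz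
      have h1 : X i (e.symm z) = ilc e z (∑ j, (γ z)⁻¹ j i • β j) := by
        have h2 := congrFun (hX z hz) i
        rw [ilc_sum]
        exact h2
      show lc e (e.symm z) (X i (e.symm z)) = _
      rw [h1, lc_ilc he hz]
    have hev1 : ∀ᶠ z in 𝓝 z₀, ∀ i, AnalyticAt ℂ (fun z => ∑ j, (γ z)⁻¹ j i • β j) z :=
      Filter.eventually_all.2 fun i => (hco i).eventually_analyticAt
    have hev2 : ∀ᶠ z in 𝓝 z₀, (γ z).det ≠ 0 :=
      (det_an hγ1).continuousAt.eventually_ne hd0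
    have hev3 : ∀ᶠ z in 𝓝 z₀, z ∈ e.target := e.open_target.mem_nhds hz₀
    have hev4 : ∀ᶠ x in 𝓝 (e.symm z₀), x ∈ e.source := e.open_source.mem_nhds hxs
    filter_upwards [htend.eventually hev1, htend.eventually hev2, htend.eventually hev3,
      htend.eventually hγ3, hev4] with x h1 h2 h3 h4 h5
    constructor
    · intro i
      refine hHol he h5 ?_
      refine (h1 i).congr ?_
      filter_upwards [e.open_target.mem_nhds h3] with z hz
      exact (hrep i z hz).symm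
    · obtain ⟨z, hz, rfl⟩ : ∃ z ∈ e.target, e.symm z = x := ⟨e x, h3, e.left_inv h5⟩
      rw [e.right_inv hz] at h2 h4
      rw [hX z hz, htf, h4, ← act_mul, Matrix.mul_nonsing_inv _ (isUnit_iff_ne_zero.2 h2),
        act_one]

theorem local_frame {n k L : ℕ} (hk : 1 ≤ k) (hn : Module.finrank ℂ E = n)
    (τ : Fin L → HT E M k) {F : Ix n k L → ℂ} (hF : Reg F)
    (hall : ∀ x : M, ∃ v : Fin n → TangentSpace 𝓘(ℂ, E) x, tup τ x v = F) (x₀ : M)
    (v₀ : Fin n → TangentSpace 𝓘(ℂ, E) x₀) (h0 : tup τ x₀ v₀ = F) :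
    ∃ X : Fin n → (x : M) → TangentSpace 𝓘(ℂ, E) x, (∀ i, X i x₀ = v₀ i) ∧ IsLF τ F X x₀ := by
  obtain ⟨e, he, hx0⟩ : ∃ e ∈ atlas E M, x₀ ∈ e.source :=
    ⟨chartAt E x₀, chart_mem_atlas E x₀, mem_chart_source E x₀⟩
  obtain ⟨z₀, hz₀, hz⟩ : ∃ z₀ ∈ e.target, e.symm z₀ = x₀ :=
    ⟨e x₀, e.map_source hx0, e.left_inv hx0⟩
  subst hz
  exact lf_aux hk hn τ hF hall (fun he hx h => holAt_of_rep he hx h)
    (fun x v g => tup_fmul τ x v g) (fun h => tup_indep hk h) (fun h w => exists_fmul hn h w)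
    he hz₀ v₀ h0

/-- the coordinates of a frame in a chart -/
private def cmat {n : ℕ} (β : Module.Basis (Fin n) ℂ E) (e : OpenPartialHomeomorph M E)
    (X : Fin n → (x : M) → TangentSpace 𝓘(ℂ, E) x) (z : E) : Matrix (Fin n) (Fin n) ℂ :=
  Matrix.of fun j i => β.repr (rep e (X i) z) j

private theorem cmat_fmul {n : ℕ} (β : Module.Basis (Fin n) ℂ E)
    {e : OpenPartialHomeomorph M E} (he : e ∈ atlas E M)
    (X : Fin n → (x : M) → TangentSpace 𝓘(ℂ, E) x) {z : E} (hz : z ∈ e.target) :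
    (fun i => X i (e.symm z)) = fmul (fun i => ilc e z (β i)) (cmat β e X z) := by
  funext i
  have h1 : rep e (X i) z = ∑ j, cmat β e X z j i • β j := (β.sum_repr _).symm
  have h2 : X i (e.symm z) = ilc e z (rep e (X i) z) := (ilc_lc he hz _).symm
  show X i (e.symm z) = ∑ j, cmat β e X z j i • ilc e z (β j)
  rw [h2, h1, ilc_sum]

private theorem cmat_cont {n : ℕ} (β : Module.Basis (Fin n) ℂ E)
    {e : OpenPartialHomeomorph M E} (he : e ∈ atlas E M)
    {X : Fin n → (x : M) → TangentSpace 𝓘(ℂ, E) x} {z : E} (hz : z ∈ e.target)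
    (hX : ∀ i, HolAt (X i) (e.symm z)) : ContinuousAt (cmat β e X) z := by
  refine continuousAt_pi.2 fun j => continuousAt_pi.2 fun i => ?_
  have h1 := (rep_analyticAt (hX i) he (e.map_target hz)).continuousAt
  rw [e.right_inv hz] at h1
  have h2 : Continuous fun w : E => β.repr w j := by
    let f : E →ₗ[ℂ] ℂ := β.coord j
    exact LinearMap.continuous_of_finiteDimensional f
  exact ContinuousAt.comp (f := rep e (X i)) (g := fun w : E => β.repr w j) h2.continuousAt h1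

theorem lf_unique {n k L : ℕ} (hk : 1 ≤ k) (hn : Module.finrank ℂ E = n)
    {τ : Fin L → HT E M k} {F : Ix n k L → ℂ} (hF : Reg F) {x₀ : M}
    {X X' : Fin n → (x : M) → TangentSpace 𝓘(ℂ, E) x} (hX : IsLF τ F X x₀)
    (hX' : IsLF τ F X' x₀) (h : ∀ i, X i x₀ = X' i x₀) :
    ∀ᶠ x in 𝓝 x₀, ∀ i, X i x = X' i x := by
  obtain ⟨e, he, hx0⟩ : ∃ e ∈ atlas E M, x₀ ∈ e.source :=
    ⟨chartAt E x₀, chart_mem_atlas E x₀, mem_chart_source E x₀⟩
  obtain ⟨z₀, hz₀, hz⟩ : ∃ z₀ ∈ e.target, e.symm z₀ = x₀ :=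
    ⟨e x₀, e.map_source hx0, e.left_inv hx0⟩
  subst hz
  let β : Module.Basis (Fin n) ℂ E := Module.finBasisOfFinrankEq ℂ E hn
  have hsym : Tendsto e.symm (𝓝 z₀) (𝓝 (e.symm z₀)) :=
    (e.symm.continuousAt hz₀).tendsto
  have hxs : e.symm z₀ ∈ e.source := e.map_target hz₀
  have htend : Tendsto e (𝓝 (e.symm z₀)) (𝓝 z₀) := by
    have h1 := (e.continuousAt hxs).tendsto
    rw [e.right_inv hz₀] at h1
    exact h1
  have hev3 : ∀ᶠ z in 𝓝 z₀, z ∈ e.target := e.open_target.mem_nhds hz₀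
  have hbi : ∀ z ∈ e.target, LinearIndependent ℂ (fun i => ilc e z (β i)) := fun z hz =>
    bz_indep he hz β.linearIndependent
  -- the determinants
  have hdet : ∀ Y : Fin n → (x : M) → TangentSpace 𝓘(ℂ, E) x, ∀ z ∈ e.target,
      tup τ (e.symm z) (fun i => Y i (e.symm z)) = F → (cmat β e Y z).det ≠ 0 := by
    intro Y z hz hY
    have h1 : LinearIndependent ℂ (fun i => Y i (e.symm z)) :=
      tup_indep hk (by rw [hY]; exact hF)
    obtain ⟨g, hg1, hg2⟩ := exists_fmul hn (hbi z hz) (fun i => Y i (e.symm z))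
    have h2 : cmat β e Y z = g := by
      refine fmul_inj (hbi z hz) ?_
      rw [← cmat_fmul β he Y hz]
      exact hg1
    rw [h2]
    exact hg2 h1
  have key : ∀ Y : Fin n → (x : M) → TangentSpace 𝓘(ℂ, E) x, ∀ z ∈ e.target,
      tup τ (e.symm z) (fun i => Y i (e.symm z)) = F →
      act (cmat β e Y z)⁻¹ F = tup τ (e.symm z) (fun i => ilc e z (β i)) := by
    intro Y z hz hY
    have h1 := hdet Y z hz hY
    have h2 : F = act (cmat β e Y z) (tup τ (e.symm z) (fun i => ilc e z (β i))) := by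
      rw [← tup_fmul, ← cmat_fmul β he Y hz]
      exact hY.symm
    calc act (cmat β e Y z)⁻¹ F = act (cmat β e Y z)⁻¹ (act (cmat β e Y z)
          (tup τ (e.symm z) (fun i => ilc e z (β i)))) := by rw [← h2]
      _ = _ := by
        rw [← act_mul, Matrix.mul_nonsing_inv _ (isUnit_iff_ne_zero.2 h1), act_one]
  have hXz := hX.self_of_nhds
  have hXz' := hX'.self_of_nhds
  have e0 : cmat β e X z₀ = cmat β e X' z₀ := by
    unfold cmat rep
    simp only [h]
  have hd := hdet X z₀ hz₀ hXz.2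
  have hd' := hdet X' z₀ hz₀ hXz'.2
  have hc := inv_cont (cmat_cont β he hz₀ hXz.1) hd
  have hc' := inv_cont (cmat_cont β he hz₀ hXz'.1) hd'
  have hdi : ((cmat β e X z₀)⁻¹).det ≠ 0 := by
    rw [Matrix.det_nonsing_inv, Ring.inverse_eq_inv']
    exact inv_ne_zero hd
  have hlu := lift_unique hk hF hc hc' (by rw [e0]) hdi (by
    filter_upwards [hsym.eventually hX, hsym.eventually hX', hev3] with z h1 h2 h3
    rw [key X z h3 h1.2, key X' z h3 h2.2])
  have hev : ∀ᶠ z in 𝓝 z₀, ∀ i, X i (e.symm z) = X' i (e.symm z) := by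
    filter_upwards [hsym.eventually hX, hsym.eventually hX', hev3, hlu] with z h1 h2 h3 h4
    have h5 := hdet X z h3 h1.2
    have h6 := hdet X' z h3 h2.2
    have h7 : cmat β e X z = cmat β e X' z := by
      have h8 : (cmat β e X z)⁻¹⁻¹ = (cmat β e X' z)⁻¹⁻¹ := by rw [h4]
      rwa [Matrix.nonsing_inv_nonsing_inv _ (isUnit_iff_ne_zero.2 h5),
        Matrix.nonsing_inv_nonsing_inv _ (isUnit_iff_ne_zero.2 h6)] at h8
    intro i
    have h8 := congrFun (cmat_fmul β he X h3) i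
    have h9 := congrFun (cmat_fmul β he X' h3) i
    rw [h7, ← h9] at h8
    exact h8
  have hev4 : ∀ᶠ x in 𝓝 (e.symm z₀), x ∈ e.source := e.open_source.mem_nhds hxs
  filter_upwards [htend.eventually hev, hev4] with x h1 h2 i
  have h3 := h1 i
  rw [e.left_inv h2] at h3
  exact h3

end

end Pool.Agent.HOG
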