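import Pool.Agent.HOG.TAlg
import Pool.Agent.HOA.KDefs
import Pool.Agent.HOA.Loc
import Pool.Agent.HOA.KLoc

/-!
# HOG/SPm: a semi-invariant of the tensors is a section of a power of the canonical bundle

PLAN.  Let `S x = eval (tup τ x β) P` (the basis `β` of `E` is a frame of `TangentSpace 𝓘(ℂ, E) x = E`).
For a chart `e` and `z ∈ e.target`, `x = e.symm z`, `A = fderiv ℂ (chartAt E x ∘ e.symm) z`
(`= mfderiv e.symm z`, i.e. `ilc e z w = A w` in the preferred chart at `x`), invertible, with matrix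
`a` in the basis `β` (`A (β i) = Σ_j a j i • β j`, `a.det = A.det`): the frame `i ↦ ilc e z (β i)` is
`fmul β a`, so by `tup_fmul` and `hP`
`kloc c S e z = S x * A.det ^ c = eval (act a (tup τ x β)) P = eval (tup τ x (ilc e z (β i))_i) P`,
a polynomial in the coefficients `(τ l).1 x (fun a => ilc e z (β (j a)))`, which are analytic in `z`
(`HolTensor`).
-/

open scoped Manifold ContDiff Topology BigOperators
open Set Metric Filter

namespace Pool.Agent.HOG

open Pool.Agent.HOA

noncomputable section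

variable {E : Type} [NormedAddCommGroup E] [NormedSpace ℂ E] [FiniteDimensional ℂ E]
variable {M : Type} [TopologicalSpace M] [T2Space M] [CompactSpace M] [ChartedSpace E M]
  [IsManifold 𝓘(ℂ, E) ω M]

private theorem symm_md {e : OpenPartialHomeomorph M E} (he : e ∈ atlas E M) {z : E}
    (hz : z ∈ e.target) : MDifferentiableAt 𝓘(ℂ, E) 𝓘(ℂ, E) e.symm z :=
  ((contMDiffOn_symm_of_mem_maximalAtlas (n := ω) (I := 𝓘(ℂ, E))
    (IsManifold.subset_maximalAtlas he)).contMDiffAt
    (e.open_target.mem_nhds hz)).mdifferentiableAt (by simp)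

private theorem ilc_eq {e : OpenPartialHomeomorph M E} (he : e ∈ atlas E M) {z : E}
    (hz : z ∈ e.target) (w : E) :
    (ilc e z w : E) = fderiv ℂ (chartAt E (e.symm z) ∘ e.symm) z w := by
  have h1 := symm_md he hz
  unfold ilc
  rw [mfderiv, if_pos h1]
  simp only [mfld_simps, fderivWithin_univ]
  rfl

private theorem kloc_eval {n k L : ℕ} (β : Module.Basis (Fin n) ℂ E) (τ : Fin L → HT E M k) {c : ℕ}
    {P : MvPolynomial (Ix n k L) ℂ} (hP : Wt c P) {e : OpenPartialHomeomorph M E}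
    (he : e ∈ atlas E M) {z : E} (hz : z ∈ e.target) :
    kloc (c : ℤ) (fun x : M => MvPolynomial.eval (tup τ x (fun i => β i)) P) e z =
      MvPolynomial.eval (tup τ (e.symm z) (fun i => ilc e z (β i))) P := by
  have hinv := (lmap_invertible (Diffeomorph.refl 𝓘(ℂ, E) M ω) he (chart_mem_atlas E (e.symm z))
    (e.map_target hz) (mem_chart_source E (e.symm z))).2
  have hdet : (fderiv ℂ (chartAt E (e.symm z) ∘ e.symm) z).det ≠ 0 := by
    have h3 : (fderiv ℂ (chartAt E (e.symm z) ∘ e.symm) (e (e.symm z))).det ≠ 0 := hinv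
    rwa [e.right_inv hz] at h3
  obtain ⟨A, hA⟩ : ∃ A : E →L[ℂ] E, A = fderiv ℂ (chartAt E (e.symm z) ∘ e.symm) z := ⟨_, rfl⟩
  obtain ⟨a, ha⟩ : ∃ a : Matrix (Fin n) (Fin n) ℂ, a = LinearMap.toMatrix β β (A : E →ₗ[ℂ] E) :=
    ⟨_, rfl⟩
  have hda : a.det = A.det := by
    rw [ha, LinearMap.det_toMatrix]
  have hfr : (fun i => ilc e z (β i) : Fin n → TangentSpace 𝓘(ℂ, E) (e.symm z)) =
      fmul (fun i => (β i : TangentSpace 𝓘(ℂ, E) (e.symm z))) a := by
    funext i
    have h2 : (ilc e z (β i) : E) = ∑ j, a j i • β j := by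
      rw [ilc_eq he hz, ← hA, ha]
      have h3 := (β.sum_repr (A (β i))).symm
      refine h3.trans (Finset.sum_congr rfl fun j _ => ?_)
      rw [LinearMap.toMatrix_apply]
      rfl
    exact h2
  rw [← hA, ← hda] at hdet
  obtain ⟨v, hv⟩ : ∃ v : Fin n → TangentSpace 𝓘(ℂ, E) (e.symm z), v = fun i => β i := ⟨_, rfl⟩
  have h4 : MvPolynomial.eval (tup τ (e.symm z) (fun i => ilc e z (β i))) P =
      a.det ^ c * MvPolynomial.eval (tup τ (e.symm z) v) P := by
    have h5 : (fun i => ilc e z (β i) : Fin n → TangentSpace 𝓘(ℂ, E) (e.symm z)) = fmul v a := by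
      rw [hv]
      exact hfr
    rw [h5, tup_fmul, hP a hdet]
  rw [h4, hv]
  unfold kloc
  rw [← hA, ← hda, zpow_natCast, mul_comm]

theorem eval_mem_ks {n k L : ℕ} (β : Module.Basis (Fin n) ℂ E) (τ : Fin L → HT E M k) {c : ℕ}
    {P : MvPolynomial (Ix n k L) ℂ} (hP : Wt c P) :
    (fun x : M => MvPolynomial.eval (tup τ x (fun i => β i)) P) ∈
      (KS E (c : ℤ) : Submodule ℂ (M → ℂ)) := by
  intro e he
  have h1 : AnalyticOnNhd ℂ (fun z => MvPolynomial.aeval
      (tup τ (e.symm z) (fun i => ilc e z (β i))) P) e.target := by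
    intro z hz
    refine AnalyticAt.aeval_mvPolynomial (fun p => ?_) P
    exact (τ p.2).2 e he (fun a => β (p.1 a)) z hz
  refine AnalyticOnNhd.congr e.open_target h1 fun z hz => ?_
  rw [kloc_eval β τ hP he hz]
  rfl

end

end Pool.Agent.HOG
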