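import Pool.Agent.HOA.Tools
import Pool.Agent.HOG.Act

/-!
# Holomorphic covariant tensors: definitions (problem MP_2bbe3e_an, part 2)
-/

open scoped Manifold ContDiff Topology
open Set Metric

namespace Pool.Agent.HOG

open Pool.Agent.HOA

noncomputable section

section Alg

/-- the frame `v` multiplied by the matrix `g`: its `i`-th vector is `Σ_j g j i • v j` -/
def fmul {n : ℕ} {V : Type} [AddCommGroup V] [Module ℂ V] (v : Fin n → V)
    (g : Matrix (Fin n) (Fin n) ℂ) : Fin n → V := fun i => ∑ j, g j i • v j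

/-- the bilinear map on `ℂ ^ n` with structure constants `c` -/
def brc {n : ℕ} (c : Fin n → Fin n → Fin n → ℂ) (u v : Fin n → ℂ) : Fin n → ℂ :=
  fun k => ∑ i, ∑ j, u i * v j * c i j k

/-- the matrix `h` maps the bracket with constants `c'` to the bracket with constants `c` -/
def Intw {n : ℕ} (h : Matrix (Fin n) (Fin n) ℂ) (c' c : Fin n → Fin n → Fin n → ℂ) : Prop :=
  ∀ u v : Fin n → ℂ, h.mulVec (brc c' u v) = brc c (h.mulVec u) (h.mulVec v)

open Classical in
/-- the coordinates of `w` with respect to the family `v` (`0` if there are none) -/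
def coord {n : ℕ} {V : Type} [AddCommGroup V] [Module ℂ V] (v : Fin n → V) (w : V) : Fin n → ℂ :=
  if h : ∃ t : Fin n → ℂ, w = ∑ i, t i • v i then h.choose else 0

theorem coord_eq {n : ℕ} {V : Type} [AddCommGroup V] [Module ℂ V] {v : Fin n → V}
    (hv : LinearIndependent ℂ v) (t : Fin n → ℂ) : coord v (∑ i, t i • v i) = t := by
  have h : ∃ s : Fin n → ℂ, (∑ i, t i • v i) = ∑ i, s i • v i := ⟨t, rfl⟩
  have h1 : coord v (∑ i, t i • v i) = h.choose := by
    unfold coord
    rw [dif_pos h]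
  have h2 := h.choose_spec
  rw [h1]
  funext i
  have h3 : ∑ i, (h.choose i - t i) • v i = 0 := by
    simp only [sub_smul, Finset.sum_sub_distrib]
    rw [← h2, sub_self]
  exact sub_eq_zero.1 (Fintype.linearIndependent_iff.1 hv _ h3 i)

end Alg

variable {E : Type} [NormedAddCommGroup E] [NormedSpace ℂ E]
variable {M : Type} [TopologicalSpace M] [ChartedSpace E M]

/-- `τ` is a holomorphic covariant `k`-tensor on `M`: its coefficients in the charts of the atlas
are analytic (`ilc e z w` is the tangent vector at `e.symm z` with coordinates `w`) -/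
def HolTensor (k : ℕ)
    (τ : (x : M) → MultilinearMap ℂ (fun _ : Fin k => TangentSpace 𝓘(ℂ, E) x) ℂ) : Prop :=
  ∀ e ∈ atlas E M, ∀ w : Fin k → E,
    AnalyticOnNhd ℂ (fun z => τ (e.symm z) (fun a => ilc e z (w a))) e.target

variable (E M) in
/-- the space of holomorphic covariant `k`-tensors -/
def HT (k : ℕ) :
    Submodule ℂ ((x : M) → MultilinearMap ℂ (fun _ : Fin k => TangentSpace 𝓘(ℂ, E) x) ℂ) where
  carrier := {τ | HolTensor k τ}
  zero_mem' := fun _ _ _ => analyticOnNhd_const
  add_mem' := fun ha hb e he w => (ha e he w).add (hb e he w)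
  smul_mem' := fun _ _ ha e he w => analyticOnNhd_const.mul (ha e he w)

/-- the coordinates of the tuple `τ` of tensors in the frame `v` of the tangent space at `x` -/
def tup {k L n : ℕ} (τ : Fin L → HT E M k) (x : M) (v : Fin n → TangentSpace 𝓘(ℂ, E) x) :
    Ix n k L → ℂ :=
  fun p => (τ p.2).1 x (fun a => v (p.1 a))

/-- `X` is holomorphic at (hence near) the point `x` -/
def HolAt [IsManifold 𝓘(ℂ, E) ω M] (X : (x : M) → TangentSpace 𝓘(ℂ, E) x) (x : M) : Prop :=
  ContMDiffAt 𝓘(ℂ, E) (𝓘(ℂ, E)).tangent ω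
    (fun y => (⟨y, X y⟩ : TangentBundle 𝓘(ℂ, E) M)) x

/-- `X` is near `x₀` a holomorphic frame in which the tensors `τ` have the constant
coordinates `F` -/
def IsLF [IsManifold 𝓘(ℂ, E) ω M] {k L n : ℕ} (τ : Fin L → HT E M k) (F : Ix n k L → ℂ)
    (X : Fin n → (x : M) → TangentSpace 𝓘(ℂ, E) x) (x₀ : M) : Prop :=
  ∀ᶠ x in 𝓝 x₀, (∀ i, HolAt (X i) x) ∧ tup τ x (fun i => X i x) = F

/-- the structure functions of the frame `X` -/
def sc [IsManifold 𝓘(ℂ, E) ω M] {n : ℕ} (X : Fin n → (x : M) → TangentSpace 𝓘(ℂ, E) x) (x : M) :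
    Fin n → Fin n → Fin n → ℂ :=
  fun i j => coord (fun l => X l x) (VectorField.mlieBracket 𝓘(ℂ, E) (X i) (X j) x)

end

end Pool.Agent.HOG
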